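import Mathlib
import Pool.Agent.H713R5.QJ.TMINA

/-!
Abstract minimization with logarithmic terms.
-/

set_option autoImplicit false

open Topology Filter Metric Set Polynomial MeasureTheory
open Pool.Agent.H713R3.ZA
open Pool.Agent.H713R5.QJ

namespace Run7.h598.TT

/-- the functional which is minimized -/
noncomputable def WW {V J : Type} [Fintype J] (cf : J → V → ℂ) (τ : J → ℂ) (AN : V → ℝ)
    (f D u : V → ℂ) (c δ κ e : ℝ) (p : V) : ℝ :=
  AN p + (c * ∑ j, ‖cf j p - τ j‖ ^ 2 - δ * Real.log ‖f p‖ - κ * Real.log ‖D p‖ +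
    e * Real.log ‖u p‖)

theorem absmin {V J : Type} [NormedAddCommGroup V] [NormedSpace ℂ V] [Fintype J]
    {cf : J → V → ℂ} (hcf : ∀ j, Differentiable ℂ (cf j)) (τ : J → ℂ) {AN : V → ℝ} {L : Set V}
    {f D u : V → ℂ} {c δ κ e : ℝ} {p₂ : V} {Q : V → Prop} (hAN : ∀ p, 0 ≤ AN p) (hc : 0 < c)
    (hδ : 0 < δ) (hκ : 0 < κ) (hL : IsCompact L) (hfc : ContinuousOn f L)
    (hDc : ContinuousOn D L) (huc : ContinuousOn u L) (hu0 : ∀ p ∈ L, u p ≠ 0)
    (hlsc : LowerSemicontinuousOn AN L) (hp₂ : p₂ ∈ L) (hfp₂ : f p₂ ≠ 0) (hDp₂ : D p₂ ≠ 0)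
    (hstep : ∀ p ∈ L, f p ≠ 0 → D p ≠ 0 →
      WW cf τ AN f D u c δ κ e p ≤ WW cf τ AN f D u c δ κ e p₂ → Q p ∨
      ∃ (r₀ : ℝ) (γ : ℂ → V), 0 < r₀ ∧ γ 0 = p ∧ DifferentiableOn ℂ γ (ball 0 r₀) ∧
        (∀ t ∈ ball (0 : ℂ) r₀, γ t ∈ L ∧ f (γ t) ≠ 0 ∧ D (γ t) ≠ 0) ∧
        DifferentiableOn ℂ (fun t => f (γ t)) (ball 0 r₀) ∧
        DifferentiableOn ℂ (fun t => D (γ t)) (ball 0 r₀) ∧
        DifferentiableOn ℂ (fun t => u (γ t)) (ball 0 r₀) ∧
        (∃ j, deriv (fun t => cf j (γ t)) 0 ≠ 0) ∧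
        ∀ r : ℝ, 0 < r → r < r₀ → ∀ η : ℝ, 0 < η → ∀ q : ℝ → ℝ, Continuous q →
          ∃ θ : ℝ, AN (γ (circleMap 0 r θ)) + q θ <
            AN (γ 0) + η + (2 * Real.pi)⁻¹ * ∫ θ in (0 : ℝ)..(2 * Real.pi),
              (q θ - 2 * c * ∑ j, ‖cf j (γ (circleMap 0 r θ)) - cf j (γ 0)‖ ^ 2)) :
    ∃ p ∈ L, f p ≠ 0 ∧ D p ≠ 0 ∧
      WW cf τ AN f D u c δ κ e p ≤ WW cf τ AN f D u c δ κ e p₂ ∧ Q p := by
  have hpi := Real.pi_pos
  -- bounds
  obtain ⟨Fm₀, hFm₀⟩ := hL.exists_bound_of_continuousOn hfc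
  obtain ⟨Dm₀, hDm₀⟩ := hL.exists_bound_of_continuousOn hDc
  have hluc : ContinuousOn (fun p => Real.log ‖u p‖) L :=
    ContinuousOn.log huc.norm (fun p hp => (norm_pos_iff.mpr (hu0 p hp)).ne')
  obtain ⟨Um, hUm⟩ := hL.exists_bound_of_continuousOn hluc
  set lF : ℝ := Real.log (max 1 Fm₀) with hlF
  set lD : ℝ := Real.log (max 1 Dm₀) with hlD
  have hlF0 : 0 ≤ lF := Real.log_nonneg (le_max_left _ _)
  have hlD0 : 0 ≤ lD := Real.log_nonneg (le_max_left _ _)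
  have hUm0 : 0 ≤ Um := (norm_nonneg _).trans (hUm p₂ hp₂)
  have hlogf : ∀ p ∈ L, f p ≠ 0 → Real.log ‖f p‖ ≤ lF := fun p hp hf =>
    Real.log_le_log (norm_pos_iff.mpr hf) ((hFm₀ p hp).trans (le_max_right _ _))
  have hlogD : ∀ p ∈ L, D p ≠ 0 → Real.log ‖D p‖ ≤ lD := fun p hp hf =>
    Real.log_le_log (norm_pos_iff.mpr hf) ((hDm₀ p hp).trans (le_max_right _ _))
  have hlogu : ∀ p ∈ L, -(|e| * Um) ≤ e * Real.log ‖u p‖ := by
    intro p hp
    have h1 : |e * Real.log ‖u p‖| ≤ |e| * Um := by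
      rw [abs_mul]
      exact mul_le_mul_of_nonneg_left (hUm p hp) (abs_nonneg e)
    exact (abs_le.mp h1).1
  set DT : V → ℝ := fun p => ∑ j, ‖cf j p - τ j‖ ^ 2 with hDT
  have hDT0 : ∀ p, 0 ≤ DT p := fun p => Finset.sum_nonneg fun _ _ => by positivity
  have hDTc : Continuous DT :=
    continuous_finsetSum _ fun j _ => (((hcf j).continuous).sub continuous_const).norm.pow 2
  set W : V → ℝ := WW cf τ AN f D u c δ κ e with hW
  have hWe : ∀ p, W p = AN p + (c * DT p - δ * Real.log ‖f p‖ - κ * Real.log ‖D p‖ +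
    e * Real.log ‖u p‖) := fun p => rfl
  set w₂ : ℝ := W p₂ with hw₂
  -- the compact set where the logarithms are bounded
  set Λ : ℝ := (|w₂| + 1 + κ * lD + δ * lF + |e| * Um) with hΛ
  have hΛ0 : 0 < Λ := by positivity
  set f₀ : ℝ := Real.exp (-(Λ / δ)) with hf₀
  set D₀ : ℝ := Real.exp (-(Λ / κ)) with hD₀
  have hf₀0 : 0 < f₀ := Real.exp_pos _
  have hD₀0 : 0 < D₀ := Real.exp_pos _
  set K₁ : Set V := (L ∩ f ⁻¹' {w | f₀ ≤ ‖w‖}) ∩ (L ∩ D ⁻¹' {w | D₀ ≤ ‖w‖}) with hK₁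
  have hK₁c : IsCompact K₁ := by
    have h1 : IsCompact (L ∩ f ⁻¹' {w | f₀ ≤ ‖w‖}) := by
      apply hL.of_isClosed_subset
      · exact hfc.preimage_isClosed_of_isClosed hL.isClosed
            (isClosed_le continuous_const continuous_norm)
      · rintro x ⟨h1, -⟩; exact h1
    have h2 : IsCompact (L ∩ D ⁻¹' {w | D₀ ≤ ‖w‖}) := by
      apply hL.of_isClosed_subset
      · exact hDc.preimage_isClosed_of_isClosed hL.isClosed
            (isClosed_le continuous_const continuous_norm)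
      · rintro x ⟨h1, -⟩; exact h1
    exact h1.inter h2
  have hKf : ∀ x ∈ K₁, f x ≠ 0 := by
    rintro x ⟨⟨-, h2⟩, -⟩ h4
    have h2' : f₀ ≤ ‖f x‖ := h2
    rw [h4, norm_zero] at h2'
    linarith
  have hKD : ∀ x ∈ K₁, D x ≠ 0 := by
    rintro x ⟨-, ⟨-, h2⟩⟩ h4
    have h2' : D₀ ≤ ‖D x‖ := h2
    rw [h4, norm_zero] at h2'
    linarith
  have hKL : ∀ x ∈ K₁, x ∈ L := fun x hx => hx.1.1
  have hbig : ∀ x ∈ L, f x ≠ 0 → D x ≠ 0 → x ∉ K₁ → w₂ < W x := by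
    intro x hx hfx hDx hxK
    have e1 := hAN x
    have e2 := mul_nonneg hc.le (hDT0 x)
    have e3 := hlogu x hx
    have e4 := hlogf x hx hfx
    have e5 := hlogD x hx hDx
    have e6 := le_abs_self w₂
    by_cases hxf : f₀ ≤ ‖f x‖
    · have hxD : ¬ D₀ ≤ ‖D x‖ := fun h => hxK ⟨⟨hx, hxf⟩, ⟨hx, h⟩⟩
      rw [not_le] at hxD
      have h2 : Real.log ‖D x‖ ≤ -(Λ / κ) := by
        have := Real.log_le_log (norm_pos_iff.mpr hDx) hxD.le
        rwa [hD₀, Real.log_exp] at this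
      have h3 : κ * Real.log ‖D x‖ ≤ κ * (-(Λ / κ)) := mul_le_mul_of_nonneg_left h2 hκ.le
      have h4 : κ * (-(Λ / κ)) = -Λ := by field_simp
      have h5 : δ * Real.log ‖f x‖ ≤ δ * lF := mul_le_mul_of_nonneg_left e4 hδ.le
      have h6 : 0 ≤ κ * lD := by positivity
      rw [hWe]
      linarith
    · rw [not_le] at hxf
      have h2 : Real.log ‖f x‖ ≤ -(Λ / δ) := by
        have := Real.log_le_log (norm_pos_iff.mpr hfx) hxf.le
        rwa [hf₀, Real.log_exp] at this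
      have h3 : δ * Real.log ‖f x‖ ≤ δ * (-(Λ / δ)) := mul_le_mul_of_nonneg_left h2 hδ.le
      have h4 : δ * (-(Λ / δ)) = -Λ := by field_simp
      have h5 : κ * Real.log ‖D x‖ ≤ κ * lD := mul_le_mul_of_nonneg_left e5 hκ.le
      have h6 : 0 ≤ δ * lF := by positivity
      rw [hWe]
      linarith
  have hp₂K : p₂ ∈ K₁ := by
    by_contra h
    exact lt_irrefl _ (hbig p₂ hp₂ hfp₂ hDp₂ h)
  have hWlsc : LowerSemicontinuousOn W K₁ := by
    have h1 : LowerSemicontinuousOn AN K₁ := hlsc.mono hKL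
    have h2 : ContinuousOn (fun p => c * DT p - δ * Real.log ‖f p‖ - κ * Real.log ‖D p‖ +
        e * Real.log ‖u p‖) K₁ := by
      have i1 : ContinuousOn (fun p => c * DT p) K₁ := (continuous_const.mul hDTc).continuousOn
      have i2 : ContinuousOn (fun p => δ * Real.log ‖f p‖) K₁ :=
        continuousOn_const.mul (ContinuousOn.log ((hfc.mono hKL).norm)
          (fun x hx => (norm_pos_iff.mpr (hKf x hx)).ne'))
      have i3 : ContinuousOn (fun p => κ * Real.log ‖D p‖) K₁ :=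
        continuousOn_const.mul (ContinuousOn.log ((hDc.mono hKL).norm)
          (fun x hx => (norm_pos_iff.mpr (hKD x hx)).ne'))
      have i4 : ContinuousOn (fun p => e * Real.log ‖u p‖) K₁ :=
        continuousOn_const.mul (hluc.mono hKL)
      exact ((i1.sub i2).sub i3).add i4
    exact h1.add h2.lowerSemicontinuousOn
  obtain ⟨x, hxK, hxmin⟩ := hWlsc.exists_isMinOn ⟨p₂, hp₂K⟩ hK₁c
  have hx := hKL x hxK
  have hfx := hKf x hxK
  have hDx := hKD x hxK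
  have hWx : W x ≤ w₂ := hxmin hp₂K
  have hmin : ∀ y ∈ L, f y ≠ 0 → D y ≠ 0 → W x ≤ W y := by
    intro y hy hfy hDy
    by_cases hyK : y ∈ K₁
    · exact hxmin hyK
    · exact hWx.trans (hbig y hy hfy hDy hyK).le
  refine ⟨x, hx, hfx, hDx, hWx, ?_⟩
  rcases hstep x hx hfx hDx hWx with hQ | ⟨r₀, γ, hr₀, hγ0, hγd, hγL, hfγd, hDγd, huγd, ⟨j, hj⟩, hγs⟩
  · exact hQ
  exfalso
  set r : ℝ := r₀ / 2 with hr
  have hr0 : 0 < r := by positivity
  have hrr : r < r₀ := by linarith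
  have hdj : 0 < ‖deriv (fun t => cf j (γ t)) 0‖ := norm_pos_iff.mpr hj
  set gain : ℝ := c * (r ^ 2 * ‖deriv (fun t => cf j (γ t)) 0‖ ^ 2) with hgain
  have hgain0 : 0 < gain := by positivity
  have hfγ : ∀ t ∈ ball (0 : ℂ) r₀, f (γ t) ≠ 0 := fun t ht => (hγL t ht).2.1
  have hDγ : ∀ t ∈ ball (0 : ℂ) r₀, D (γ t) ≠ 0 := fun t ht => (hγL t ht).2.2
  have huγ : ∀ t ∈ ball (0 : ℂ) r₀, u (γ t) ≠ 0 := fun t ht => hu0 _ (hγL t ht).1
  have hγc := circ_cont hr0 hrr hγd.continuousOn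
  have hlogc : ∀ g : V → ℂ, DifferentiableOn ℂ (fun t => g (γ t)) (ball 0 r₀) →
      (∀ t ∈ ball (0 : ℂ) r₀, g (γ t) ≠ 0) →
      Continuous (fun θ : ℝ => Real.log ‖g (γ (circleMap 0 r θ))‖) := by
    intro g hg hg0
    have h1 := circ_cont hr0 hrr hg.continuousOn
    exact h1.norm.log (fun θ => (norm_pos_iff.mpr (hg0 _ (circ_mem hr0 hrr θ))).ne')
  have cf' := hlogc f hfγd hfγ
  have cD' := hlogc D hDγd hDγ
  have cu' := hlogc u huγd huγ
  have hDTγ : Continuous (fun θ : ℝ => DT (γ (circleMap 0 r θ))) := hDTc.comp hγc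
  have hDlγ : Continuous (fun θ : ℝ => ∑ j, ‖cf j (γ (circleMap 0 r θ)) - cf j (γ 0)‖ ^ 2) :=
    continuous_finsetSum _ fun j _ =>
      ((((hcf j).continuous).comp hγc).sub continuous_const).norm.pow 2
  set q : ℝ → ℝ := fun θ => c * DT (γ (circleMap 0 r θ)) -
    δ * Real.log ‖f (γ (circleMap 0 r θ))‖ - κ * Real.log ‖D (γ (circleMap 0 r θ))‖ +
    e * Real.log ‖u (γ (circleMap 0 r θ))‖ with hq
  have c1 : Continuous (fun θ : ℝ => c * DT (γ (circleMap 0 r θ))) := continuous_const.mul hDTγ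
  have c2 : Continuous (fun θ : ℝ => δ * Real.log ‖f (γ (circleMap 0 r θ))‖) :=
    continuous_const.mul cf'
  have c3 : Continuous (fun θ : ℝ => κ * Real.log ‖D (γ (circleMap 0 r θ))‖) :=
    continuous_const.mul cD'
  have c4 : Continuous (fun θ : ℝ => e * Real.log ‖u (γ (circleMap 0 r θ))‖) :=
    continuous_const.mul cu'
  have hqc : Continuous q := ((c1.sub c2).sub c3).add c4
  obtain ⟨θ, hθ⟩ := hγs r hr0 hrr (gain / 2) (by positivity) q hqc
  have hθm := circ_mem hr0 hrr θ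
  have hge : W x ≤ AN (γ (circleMap 0 r θ)) + q θ :=
    hmin _ (hγL _ hθm).1 (hγL _ hθm).2.1 (hγL _ hθm).2.2
  -- evaluation of the integral
  set J' : ℝ := ∫ θ in (0 : ℝ)..(2 * Real.pi),
    ∑ j, ‖cf j (γ (circleMap 0 r θ)) - cf j (γ 0)‖ ^ 2 with hJ
  have hDTi : ∫ θ in (0 : ℝ)..(2 * Real.pi), DT (γ (circleMap 0 r θ)) =
      2 * Real.pi * DT (γ 0) + J' := MINA_circ hcf hr0 hrr hγd τ
  have hint : ∫ θ in (0 : ℝ)..(2 * Real.pi), (q θ - 2 * c * ∑ j, ‖cf j (γ (circleMap 0 r θ)) -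
      cf j (γ 0)‖ ^ 2) =
      c * (2 * Real.pi * DT (γ 0) + J') - δ * (2 * Real.pi * Real.log ‖f (γ 0)‖) -
        κ * (2 * Real.pi * Real.log ‖D (γ 0)‖) + e * (2 * Real.pi * Real.log ‖u (γ 0)‖) -
        2 * c * J' := by
    have i1 : IntervalIntegrable q volume 0 (2 * Real.pi) := hqc.intervalIntegrable _ _
    have i2 : IntervalIntegrable (fun θ : ℝ => 2 * c * ∑ j, ‖cf j (γ (circleMap 0 r θ)) -
        cf j (γ 0)‖ ^ 2) volume 0 (2 * Real.pi) :=
      (continuous_const.mul hDlγ).intervalIntegrable _ _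
    have j1 := c1.intervalIntegrable (μ := volume) 0 (2 * Real.pi)
    have j2 := c2.intervalIntegrable (μ := volume) 0 (2 * Real.pi)
    have j3 := c3.intervalIntegrable (μ := volume) 0 (2 * Real.pi)
    have j4 := c4.intervalIntegrable (μ := volume) 0 (2 * Real.pi)
    rw [intervalIntegral.integral_sub i1 i2, intervalIntegral.integral_const_mul]
    simp only [hq]
    rw [intervalIntegral.integral_add ((j1.sub j2).sub j3) j4,
      intervalIntegral.integral_sub (j1.sub j2) j3, intervalIntegral.integral_sub j1 j2,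
      intervalIntegral.integral_const_mul, intervalIntegral.integral_const_mul,
      intervalIntegral.integral_const_mul, intervalIntegral.integral_const_mul, hDTi,
      circ_log hr0 hrr hfγd hfγ, circ_log hr0 hrr hDγd hDγ, circ_log hr0 hrr huγd huγ]
  have hJge : 2 * Real.pi * (r ^ 2 * ‖deriv (fun t => cf j (γ t)) 0‖ ^ 2) ≤ J' :=
    MINA_circ_ge hcf hr0 hrr hγd j
  rw [hint, hγ0] at hθ
  have h1 : (2 * Real.pi)⁻¹ * (c * (2 * Real.pi * DT x + J') -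
      δ * (2 * Real.pi * Real.log ‖f x‖) - κ * (2 * Real.pi * Real.log ‖D x‖) +
      e * (2 * Real.pi * Real.log ‖u x‖) - 2 * c * J') =
      (c * DT x - δ * Real.log ‖f x‖ - κ * Real.log ‖D x‖ + e * Real.log ‖u x‖) -
        c * ((2 * Real.pi)⁻¹ * J') := by
    field_simp
    ring
  have h2 : gain ≤ c * ((2 * Real.pi)⁻¹ * J') := by
    rw [hgain]
    apply mul_le_mul_of_nonneg_left _ hc.le
    rw [inv_mul_eq_div, le_div_iff₀ (by positivity), mul_comm]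
    exact hJge
  rw [h1] at hθ
  rw [hWe] at hge
  linarith

end Run7.h598.TT
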