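import Mathlib
import Pool.Agent.H713R5.QJ.TCRB
import Pool.Agent.H713R5.QJ.TRL
import Pool.Agent.H713R5.QJ.TCRE
import Pool.Agent.H713R5.QJ.TLOCP
import Pool.Agent.H713R5.QJ.TGDP
import Pool.Agent.H713R5.QJ.Core5

/-!
Rigid discs without a condition on the remaining critical points; the local inequality for the level
`N` area when the remaining critical points do not come close to the target region before the
time `N`.
-/

set_option autoImplicit false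

open Topology Filter Metric Set Polynomial MeasureTheory
open Pool.Agent.H713R3.ZA
open Pool.Agent.H713R5.QJ

namespace Run7.h598.TT

section
variable (a : ℂ) (n P M : ℕ) (B R₃ : ℝ) (ψ : PE n × ℂ → ℂ) (Es Ee : Finset (Fin n))
  (rf : Fin n → Fin n) (ap : Fin n → ℕ) (F0 : Fin n → ℂ)

/-- rigid discs -/
structure GW (ρ : ℝ) (γ : ℂ → PE n) : Prop where
  hρ : 0 < ρ
  γd : DifferentiableOn ℂ γ (ball 0 ρ)
  γB : ∀ t ∈ ball (0 : ℂ) ρ, γ t ∈ ball (0 : PE n) B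
  A0s : ∀ t ∈ ball (0 : ℂ) ρ, ∀ i ∈ Es, (γ t, γ t (some i)) ∈ A0 a n P
  lam : ∀ t ∈ ball (0 : ℂ) ρ, ∀ i ∈ Es, LP (fx a n (γ t)) P (γ t (some i)) =
    LP (fx a n (γ 0)) P (γ 0 (some i))
  kne : ∀ t ∈ ball (0 : ℂ) ρ, ∀ i ∈ Es, KP (fx a n (γ t)) P (γ t (some i)) ≠ 0
  rel : ∀ t ∈ ball (0 : ℂ) ρ, ∀ i ∈ Es, SP (fx a n (γ t)) P (γ t (some i)) =
    (fx a n (γ t))^[ap i] (SP (fx a n (γ t)) P (γ t (some (rf i))))
  ref : RFP n Es rf ap
  dis : ∀ t ∈ ball (0 : ℂ) ρ, ∀ i ∈ Es, ∀ i' ∈ Es, rf i = i → rf i' = i' → i ≠ i' → ∀ b : ℕ,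
    SP (fx a n (γ t)) P (γ t (some i')) ≠ (fx a n (γ t))^[b] (SP (fx a n (γ t)) P (γ t (some i)))
  rat : ∀ t ∈ ball (0 : ℂ) ρ, ∀ i ∈ Es, KP (fx a n (γ t)) P (γ t (some i)) *
    KP (fx a n (γ 0)) P ((fx a n (γ 0))^[ap i] (γ 0 (some (rf i)))) =
    KP (fx a n (γ 0)) P (γ 0 (some i)) *
    KP (fx a n (γ t)) P ((fx a n (γ t))^[ap i] (γ t (some (rf i))))
  F1 : ∀ i ∈ Ee, R₃ < ‖F0 i‖
  esc : ∀ t ∈ ball (0 : ℂ) ρ, ∀ i ∈ Ee, (fx a n (γ t))^[M] (γ t (some i)) = ψ (γ t, F0 i)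
  cen : ∀ t ∈ ball (0 : ℂ) ρ, (fam a n (γ t)).coeff n = (fam a n (γ 0)).coeff n

/-- the critical point `l` does not come close to the target region before the time `N` -/
def LB (N : ℕ) (r' : ℝ) (x : PE n) (l : Fin n) : Prop :=
  ∀ j ≤ N, ‖(fx a n x)^[j] (x (some l))‖ < R₃ ∧ ∀ i ∈ Es, ∀ b < P,
    r' < ‖(fx a n x)^[j] (x (some l)) - (fx a n x)^[b] (SP (fx a n x) P (x (some i)))‖

end

lemma GW.mono {a : ℂ} {n P M : ℕ} {B R₃ : ℝ} {ψ : PE n × ℂ → ℂ} {Es Ee : Finset (Fin n)}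
    {rf : Fin n → Fin n} {ap : Fin n → ℕ} {F0 : Fin n → ℂ} {ρ ρ' : ℝ} {γ : ℂ → PE n}
    (h : GW a n P M B R₃ ψ Es Ee rf ap F0 ρ γ) (h0 : 0 < ρ') (h1 : ρ' ≤ ρ) :
    GW a n P M B R₃ ψ Es Ee rf ap F0 ρ' γ := by
  have hs : ball (0 : ℂ) ρ' ⊆ ball 0 ρ := ball_subset_ball h1
  exact
    { hρ := h0
      γd := h.γd.mono hs
      γB := fun t ht => h.γB t (hs ht)
      A0s := fun t ht => h.A0s t (hs ht)
      lam := fun t ht => h.lam t (hs ht)
      kne := fun t ht => h.kne t (hs ht)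
      rel := fun t ht => h.rel t (hs ht)
      ref := h.ref
      dis := fun t ht => h.dis t (hs ht)
      rat := fun t ht => h.rat t (hs ht)
      F1 := h.F1
      esc := fun t ht => h.esc t (hs ht)
      cen := fun t ht => h.cen t (hs ht) }

/-- distinct far away points -/
noncomputable def fF (R₃ : ℝ) {n : ℕ} (i : Fin n) : ℂ := ((|R₃| + 1 + (i : ℕ) : ℝ) : ℂ)

lemma fF_inj (R₃ : ℝ) {n : ℕ} {i j : Fin n} (h : fF R₃ i = fF R₃ j) : i = j := by
  unfold fF at h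
  have h1 := Complex.ofReal_injective h
  have h2 : ((i : ℕ) : ℝ) = ((j : ℕ) : ℝ) := by linarith
  exact Fin.ext (by exact_mod_cast h2)

lemma fF_norm (R₃ : ℝ) {n : ℕ} (i : Fin n) : R₃ < ‖fF R₃ i‖ := by
  unfold fF
  rw [Complex.norm_real, Real.norm_eq_abs]
  have h1 : (0 : ℝ) ≤ ((i : ℕ) : ℝ) := Nat.cast_nonneg _
  have h2 := abs_nonneg R₃
  have h3 := le_abs_self R₃
  rw [abs_of_nonneg (by positivity)]
  linarith

open Classical in
/-- an artificial far coordinate -/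
noncomputable def fψ (a : ℂ) (n M : ℕ) (R₃ : ℝ) (p : PE n × ℂ) : ℂ :=
  if h : ∃ i : Fin n, fF R₃ i = p.2 then (fx a n p.1)^[M] (p.1 (some h.choose)) else 0

lemma fψ_eq (a : ℂ) (n M : ℕ) (R₃ : ℝ) (x : PE n) (i : Fin n) :
    fψ a n M R₃ (x, fF R₃ i) = (fx a n x)^[M] (x (some i)) := by
  unfold fψ
  have h : ∃ j : Fin n, fF R₃ j = ((x, fF R₃ i) : PE n × ℂ).2 := ⟨i, rfl⟩
  rw [dif_pos h]
  have h2 : h.choose = i := fF_inj R₃ h.choose_spec
  rw [h2]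

/-- for the part near the sinks the other critical points are irrelevant -/
lemma GW.fake {a : ℂ} {n P M : ℕ} {B R₃ : ℝ} {ψ : PE n × ℂ → ℂ} {Es Ee : Finset (Fin n)}
    {rf : Fin n → Fin n} {ap : Fin n → ℕ} {F0 : Fin n → ℂ} {ρ : ℝ} {γ : ℂ → PE n}
    (h : GW a n P M B R₃ ψ Es Ee rf ap F0 ρ γ) :
    GD a n P M B R₃ (fψ a n M R₃) Es Finset.univ rf ap (fF R₃) ρ γ :=
  { hρ := h.hρ
    γd := h.γd
    γB := h.γB
    A0s := h.A0s
    lam := h.lam
    kne := h.kne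
    rel := h.rel
    ref := h.ref
    dis := h.dis
    rat := h.rat
    F1 := fun i _ => fF_norm R₃ i
    esc := fun t _ i _ => (fψ_eq a n M R₃ (γ t) i).symm
    cen := h.cen
    bad := fun l _ h2 => absurd (Finset.mem_univ l) h2 }

/-- The remaining critical points stay away from the target region up to the time `N`, for nearby
maps. -/
theorem crb_w (hKO0 : StKO0) (hKO1 : StKO1) {a : ℂ} {n P M N : ℕ}
    {B R₃ R₇ r' τ ρ : ℝ} {ψ φ : PE n × ℂ → ℂ} {Es Ee : Finset (Fin n)}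
    {rf : Fin n → Fin n} {ap : Fin n → ℕ} {F0 : Fin n → ℂ} {γ : ℂ → PE n} (ha : a ≠ 0)
    (hn : 1 ≤ n) (hP : 0 < P) (hgd : GW a n P M B R₃ ψ Es Ee rf ap F0 ρ γ)
    (hLB : ∀ l, l ∉ Es → l ∉ Ee → LB a n P R₃ Es N r' (γ 0) l) :
    ∃ ρ' : ℝ, 0 < ρ' ∧ ρ' ≤ ρ ∧ ∀ t ∈ ball (0 : ℂ) ρ', ∀ l : Fin n, l ∉ Es → l ∉ Ee → ∀ j ≤ N,
      (fx a n (γ t))^[j] (γ t (some l)) ∉ UF n R₃ R₇ φ (γ t) ∪ US a n P Es rf r' τ (γ t) := by
  have h0b : (0 : ℂ) ∈ ball (0 : ℂ) ρ := mem_ball_self hgd.hρ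
  have hγc : ContinuousAt γ 0 := hgd.γd.continuousOn.continuousAt (isOpen_ball.mem_nhds h0b)
  obtain ⟨ho, hSP, -, -⟩ := hKO1 hKO0 a n P ha hn hP
  have hco : ∀ k : Option (Fin n), ContinuousAt (fun t => γ t k) 0 := fun k =>
    (continuous_apply k).continuousAt.comp hγc
  have key : ∀ l : Fin n, l ∉ Es → l ∉ Ee → ∀ j ≤ N, ∀ᶠ t in 𝓝 (0 : ℂ),
      (fx a n (γ t))^[j] (γ t (some l)) ∉ UF n R₃ R₇ φ (γ t) ∪ US a n P Es rf r' τ (γ t) := by
    intro l hl1 hl2 j hj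
    obtain ⟨hfar, hnear0⟩ := hLB l hl1 hl2 j hj
    have hy : ContinuousAt (fun t => (fx a n (γ t))^[j] (γ t (some l))) 0 :=
      ContinuousAt.comp (f := fun t => (γ t, γ t (some l)))
        (g := fun p : PE n × ℂ => (fx a n p.1)^[j] p.2)
        (contDiff_fx a n j).continuous.continuousAt (hγc.prodMk (hco _))
    have ev1 : ∀ᶠ t in 𝓝 (0 : ℂ), ‖(fx a n (γ t))^[j] (γ t (some l))‖ < R₃ :=
      hy.norm.eventually (gt_mem_nhds hfar)
    have hnear : ∀ i ∈ Es, ∀ b < P, ∀ᶠ t in 𝓝 (0 : ℂ),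
        r' < ‖(fx a n (γ t))^[j] (γ t (some l)) -
          (fx a n (γ t))^[b] (SP (fx a n (γ t)) P (γ t (some i)))‖ := by
      intro i hi b hb
      have hat : AT (fx a n (γ 0)) P (γ 0 (some i)) := (hgd.A0s 0 h0b i hi).1
      have hs0 : ContinuousAt (fun y : PE n × ℂ => SP (fx a n y.1) P y.2) (γ 0, γ 0 (some i)) :=
        hSP.continuousOn.continuousAt (ho.mem_nhds hat)
      have hs : ContinuousAt (fun t => SP (fx a n (γ t)) P (γ t (some i))) 0 :=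
        ContinuousAt.comp (f := fun t => (γ t, γ t (some i))) hs0 (hγc.prodMk (hco _))
      have hsb : ContinuousAt
          (fun t => (fx a n (γ t))^[b] (SP (fx a n (γ t)) P (γ t (some i)))) 0 :=
        ContinuousAt.comp (f := fun t => (γ t, SP (fx a n (γ t)) P (γ t (some i))))
          (g := fun p : PE n × ℂ => (fx a n p.1)^[b] p.2)
          (contDiff_fx a n b).continuous.continuousAt (hγc.prodMk hs)
      exact (hy.sub hsb).norm.eventually (lt_mem_nhds (hnear0 i hi b hb))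
    have ev2 : ∀ᶠ t in 𝓝 (0 : ℂ), ∀ i ∈ Es, ∀ b ∈ Finset.range P,
        r' < ‖(fx a n (γ t))^[j] (γ t (some l)) -
          (fx a n (γ t))^[b] (SP (fx a n (γ t)) P (γ t (some i)))‖ := by
      rw [Filter.eventually_all_finset]
      intro i hi
      rw [Filter.eventually_all_finset]
      intro b hb
      exact hnear i hi b (Finset.mem_range.1 hb)
    filter_upwards [ev1, ev2] with t ht1 ht2
    rintro (hU | hU)
    · exact absurd hU.1 (not_lt.2 ht1.le)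
    · obtain ⟨i, hi, -, b, hbP, h5, -⟩ := hU
      exact absurd h5 (not_lt.2 (ht2 i hi b (Finset.mem_range.2 hbP)).le)
  have all : ∀ᶠ t in 𝓝 (0 : ℂ), ∀ l : Fin n, ∀ j ∈ Finset.range (N + 1), l ∉ Es → l ∉ Ee →
      (fx a n (γ t))^[j] (γ t (some l)) ∉ UF n R₃ R₇ φ (γ t) ∪ US a n P Es rf r' τ (γ t) := by
    rw [Filter.eventually_all]
    intro l
    rw [Filter.eventually_all_finset]
    intro j hjr
    by_cases hl1 : l ∈ Es
    · exact Filter.Eventually.of_forall fun t h => absurd hl1 h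
    by_cases hl2 : l ∈ Ee
    · exact Filter.Eventually.of_forall fun t _ h => absurd hl2 h
    filter_upwards [key l hl1 hl2 j (by have := Finset.mem_range.1 hjr; omega)] with t ht _ _
    exact ht
  obtain ⟨ε, hε, h⟩ := Metric.eventually_nhds_iff_ball.1 all
  refine ⟨min ε ρ, lt_min hε hgd.hρ, min_le_right _ _, ?_⟩
  intro t ht l hl1 hl2 j hj
  exact h t (ball_subset_ball (min_le_left _ _) ht) l j (Finset.mem_range.2 (by omega)) hl1 hl2

private theorem qq_fiber {a : ℂ} (ha : a ≠ 0) (n : ℕ) (c : ℂ) : {w : ℂ | QQ a n w = c}.Finite := by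
  have h0 : (C a * X ^ (n + 1) - C c : ℂ[X]) ≠ 0 := by
    intro h
    have h1 := congrArg (fun q : ℂ[X] => q.coeff (n + 1)) h
    simp only [coeff_sub, coeff_C_mul, coeff_X_pow, if_true, coeff_C_succ, coeff_zero] at h1
    apply ha
    simpa using h1
  refine ((C a * X ^ (n + 1) - C c : ℂ[X]).rootSet_finite ℂ).subset ?_
  intro w hw
  rw [mem_rootSet]
  refine ⟨h0, ?_⟩
  have hw' : a * w ^ (n + 1) = c := hw
  simp [hw']

private theorem qq_iter_fiber {a : ℂ} (ha : a ≠ 0) (n : ℕ) (m : ℕ) (c : ℂ) :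
    {w : ℂ | (QQ a n)^[m] w = c}.Finite := by
  induction m generalizing c with
  | zero =>
    refine (finite_singleton c).subset ?_
    intro w hw
    exact hw
  | succ m ih =>
    have : {w : ℂ | (QQ a n)^[m + 1] w = c} ⊆
        ⋃ v ∈ {v : ℂ | QQ a n v = c}, {w : ℂ | (QQ a n)^[m] w = v} := by
      intro w hw
      have hw' : (QQ a n)^[m + 1] w = c := hw
      rw [Function.iterate_succ_apply'] at hw'
      exact mem_biUnion (x := (QQ a n)^[m] w) hw' rfl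
    exact ((qq_fiber ha n c).biUnion fun v _ => ih v).subset this

/-- Escaping critical points enter the far region at rigid points. -/
theorem cre_w {a : ℂ} {n P M N : ℕ} {B R C₁ R₁ R₃ R₇ ρ : ℝ} {ψ φ : PE n × ℂ → ℂ}
    {Es Ee : Finset (Fin n)} {rf : Fin n → Fin n} {ap : Fin n → ℕ} {F0 : Fin n → ℂ}
    {γ : ℂ → PE n} (ha : a ≠ 0) (hb : BO a n B R C₁ R₁ R₃ ψ φ)
    (hR7 : R₃ + C₁ ≤ R₇) (hg : GW a n P M B R₃ ψ Es Ee rf ap F0 ρ γ) :
    ∃ Bd : Set ℂ, Bd.Finite ∧ ∀ t ∈ ball (0 : ℂ) ρ, ∀ i ∈ Ee, ∀ j ≤ N,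
      ∀ w ∈ UF n R₃ R₇ φ (γ 0), (fx a n (γ t))^[j] (γ t (some i)) = ψ (γ t, φ (γ 0, w)) →
      w ∈ Bd := by
  have h0 : (0 : ℂ) ∈ ball (0 : ℂ) ρ := mem_ball_self hg.hρ
  have hR13 : R₁ ≤ R₃ := by have := hb.hC; have := hb.hR₃; linarith
  have hR17 : R₁ ≤ R₇ := by have := hb.hC; linarith
  set Vl : Set ℂ := ⋃ i ∈ (Ee : Set (Fin n)),
    ((⋃ m ∈ (Finset.range (M + 1) : Set ℕ), {v : ℂ | (QQ a n)^[m] v = F0 i}) ∪
      ⋃ m ∈ (Finset.range (N + 1) : Set ℕ), {(QQ a n)^[m] (F0 i)}) with hVl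
  have hVf : Vl.Finite := by
    refine (Finset.finite_toSet Ee).biUnion fun i _ => ?_
    exact ((Finset.finite_toSet _).biUnion fun m _ => qq_iter_fiber ha n m _).union
      ((Finset.finite_toSet _).biUnion fun m _ => finite_singleton _)
  have hinj : InjOn (fun w => φ (γ 0, w)) {w : ℂ | R₃ < ‖w‖} := by
    intro w hw w' hw' h
    have e1 := hb.ψφ (γ 0) (hg.γB 0 h0) w hw
    have e2 := hb.ψφ (γ 0) (hg.γB 0 h0) w' hw'
    simp only at h
    rw [← e1, ← e2, h]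
  refine ⟨{w : ℂ | R₃ < ‖w‖ ∧ φ (γ 0, w) ∈ Vl}, ?_, ?_⟩
  · refine Set.Finite.of_finite_image (f := fun w => φ (γ 0, w)) (hVf.subset ?_) ?_
    · rintro _ ⟨w, hw, rfl⟩
      exact hw.2
    · exact hinj.mono fun w hw => hw.1
  · intro t ht i hi j hj w hw he
    refine ⟨hw.1, ?_⟩
    have hw2 : R₁ < ‖φ (γ 0, w)‖ := lt_of_le_of_lt hR17 hw.2
    have hF : R₁ < ‖F0 i‖ := lt_of_le_of_lt hR13 (hg.F1 i hi)
    have hesc := hg.esc t ht i hi
    refine mem_biUnion (x := i) hi ?_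
    rcases le_or_gt j M with hjM | hjM
    · left
      refine mem_biUnion (x := M - j) (by simp) ?_
      have e1 : (fx a n (γ t))^[M] (γ t (some i)) =
          (fx a n (γ t))^[M - j] ((fx a n (γ t))^[j] (γ t (some i))) := by
        rw [← Function.iterate_add_apply]
        congr 1
        omega
      rw [e1, he, hb.fe_iter (hg.γB t ht) hw2] at hesc
      exact hb.ψi (γ t) (hg.γB t ht) (hb.QQ_iter hw2 _) hF hesc
    · right
      refine mem_biUnion (x := j - M) (by simp; omega) ?_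
      have e1 : (fx a n (γ t))^[j] (γ t (some i)) =
          (fx a n (γ t))^[j - M] ((fx a n (γ t))^[M] (γ t (some i))) := by
        rw [← Function.iterate_add_apply]
        congr 1
        omega
      rw [e1, hesc, hb.fe_iter (hg.γB t ht) hF] at he
      exact (hb.ψi (γ t) (hg.γB t ht) (hb.QQ_iter hF _) hw2 he).symm

end Run7.h598.TT
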