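import Mathlib
import Pool.Agent.Run7.h598.TT.Loc

/-!
The two pieces of the conjugacy give rigid data (version of `rl_holds` for `GW`), and the local
inequality for the level `N` area.
-/

set_option autoImplicit false

open Topology Filter Metric Set Polynomial MeasureTheory
open Pool.Agent.H713R3.ZA
open Pool.Agent.H713R5.QJ

namespace Run7.h598.TT

theorem rl_w (hDIC : StDIC) (hK0 : StKO0) (hK1 : StKO1) (hK2 : StKO2) (hK3 : StKO3)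
    (hCRS : StCRS) (hRF : StRF) (hRS : StRS) {a : ℂ} {n P M N : ℕ}
    {B R C₁ R₁ R₃ R₇ lam₀ lam₁ r₁ r₂ r' τ ρ : ℝ} {ψ φ : PE n × ℂ → ℂ}
    {Es Ee : Finset (Fin n)} {rf : Fin n → Fin n} {ap : Fin n → ℕ} {F0 : Fin n → ℂ}
    {γ : ℂ → PE n} (ha : a ≠ 0) (hn : 1 ≤ n) (hP : 0 < P) (hBO : BO a n B R C₁ R₁ R₃ ψ φ)
    (hR7 : R₃ + C₁ ≤ R₇) (hKL : KL a n P B lam₀ lam₁ r₁ r₂)
    (hGD : GW a n P M B R₃ ψ Es Ee rf ap F0 ρ γ)
    (hlam : ∀ i ∈ Es, lam₀ ≤ ‖LP (fx a n (γ 0)) P (γ 0 (some i))‖ ∧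
      ‖LP (fx a n (γ 0)) P (γ 0 (some i))‖ ≤ lam₁) (hr' : 0 < r') (hr'r₁ : r' < r₁) (hτ : 0 < τ)
    (hτK : ∀ i ∈ Es, ∀ b ≤ P, τ * ‖KP (fx a n (γ 0)) P ((fx a n (γ 0))^[b] (γ 0 (some i)))‖ <
      min r₂ (r' / 4))
    (hLB : ∀ l, l ∉ Es → l ∉ Ee → LB a n P R₃ Es N r' (γ 0) l) :
    ∃ (ρ' : ℝ) (U : Set ℂ) (H : ℂ → ℂ → ℂ) (Bd : Set ℂ), 0 < ρ' ∧ ρ' ≤ ρ ∧
      RDL (n + 1) (fun t => wv a n (γ t)) ρ' U H Bd N ∧
      U = UF n R₃ R₇ φ (γ 0) ∪ US a n P Es rf r' τ (γ 0) ∧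
      (∀ t ∈ ball (0 : ℂ) ρ', ∀ z ∈ U,
        H t z ∈ UF n R₃ R₇ φ (γ t) ∪ US a n P Es rf r' τ (γ t)) ∧
      ∀ t ∈ ball (0 : ℂ) ρ', ∀ z : ℂ, R₇ + C₁ < ‖z‖ → z ∈ U ∧ H t z = ψ (γ t, φ (γ 0, z)) := by
  classical
  obtain ⟨d1, d2, d3, d4, d5, d6, d7, d8, d9, d10⟩ := hDIC a n ha hn
  have hPF := hRF a n B R C₁ R₁ R₃ R₇ ρ ψ φ γ ha hn hBO hR7 hGD.hρ hGD.γd hGD.γB
  obtain ⟨ρ₁, Hs, hρ₁, hρ₁ρ, hPS, hVal⟩ := hRS hK0 hK1 hK2 hK3 a n P M B R₃ lam₀ lam₁ r₁ r₂ r' τ ρ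
    (fψ a n M R₃) Es Finset.univ rf ap (fF R₃) γ ha hn hP hKL hGD.fake hlam hr' hr'r₁ hτ hτK
  obtain ⟨ρ₂, hρ₂, hρ₂ρ, hbad⟩ := crb_w (R₇ := R₇) (τ := τ) (φ := φ) (N := N) hK0 hK1 ha hn hP hGD hLB
  set ρ' := min ρ₁ ρ₂ with hρ'
  have hρ'0 : 0 < ρ' := lt_min hρ₁ hρ₂
  have hρ'1 : ρ' ≤ ρ₁ := min_le_left _ _
  have hρ'2 : ρ' ≤ ρ₂ := min_le_right _ _
  have hρ'ρ : ρ' ≤ ρ := le_trans hρ'1 hρ₁ρ
  have hs1 : ball (0 : ℂ) ρ' ⊆ ball 0 ρ := ball_subset_ball hρ'ρ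
  have hs2 : ball (0 : ℂ) ρ' ⊆ ball 0 ρ₂ := ball_subset_ball hρ'2
  have hGD' := hGD.mono hρ'0 hρ'ρ
  have hPF' := RL_PCE_mono hPF hρ'ρ
  have hPS' := RL_PCE_mono hPS hρ'1
  have hVal' := RL_ValS_mono hVal hρ'1
  obtain ⟨Bs, hBs, hBs'⟩ := hCRS hK0 hK1 hK2 hK3 a n P M N B R₃ lam₀ lam₁ r₁ r₂ r' τ ρ'
    (fψ a n M R₃) Es Finset.univ rf ap (fF R₃) γ Hs ha hn hP hKL hGD'.fake hlam hr' hr'r₁ hτ hPS'
    hVal'
  obtain ⟨Be, hBe, hBe'⟩ := cre_w (N := N) ha hBO hR7 hGD'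
  have h0 : (0 : ℂ) ∈ ball (0 : ℂ) ρ' := mem_ball_self hρ'0
  -- elementary facts
  have hRR₃ : R ≤ R₃ := by linarith [hBO.hR₁, hBO.hR₃, hBO.hC]
  have hnB : ∀ t ∈ ball (0 : ℂ) ρ', ‖γ t‖ ≤ B := fun t ht =>
    (mem_ball_zero_iff.1 (hGD'.γB t ht)).le
  have hFn : ∀ t ∈ ball (0 : ℂ) ρ', ∀ z ∈ UF n R₃ R₇ φ (γ t), ¬ AT (fx a n (γ t)) P z :=
    fun t ht z hz => RL_not_AT hP hBO (hnB t ht) (le_trans hRR₃ hz.1.le)
  have hSa : ∀ t ∈ ball (0 : ℂ) ρ', ∀ z ∈ US a n P Es rf r' τ (γ t), AT (fx a n (γ t)) P z :=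
    fun t ht z hz => RL_US_AT hK0 hP hKL hGD'.fake hlam hr'r₁ ht hz
  have hdj : ∀ t ∈ ball (0 : ℂ) ρ', ∀ z ∈ US a n P Es rf r' τ (γ t), z ∉ UF n R₃ R₇ φ (γ t) :=
    fun t ht z hz hz' => hFn t ht z hz' (hSa t ht z hz)
  set H : ℂ → ℂ → ℂ := fun t z => if z ∈ UF n R₃ R₇ φ (γ 0) then ψ (γ t, φ (γ 0, z)) else Hs t z
    with hH
  have hHF : ∀ t, ∀ z ∈ UF n R₃ R₇ φ (γ 0), H t z = ψ (γ t, φ (γ 0, z)) := fun t z hz => by
    rw [hH]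
    exact if_pos hz
  have hHS : ∀ t, ∀ z ∈ US a n P Es rf r' τ (γ 0), H t z = Hs t z := fun t z hz => by
    rw [hH]
    exact if_neg (hdj 0 h0 z hz)
  have hHFi : ∀ t ∈ ball (0 : ℂ) ρ', ∀ z ∈ UF n R₃ R₇ φ (γ 0), H t z ∈ UF n R₃ R₇ φ (γ t) :=
    fun t ht z hz => by
      rw [hHF t z hz]
      exact hPF'.img t ht z hz
  have hHSi : ∀ t ∈ ball (0 : ℂ) ρ', ∀ z ∈ US a n P Es rf r' τ (γ 0),
      H t z ∈ US a n P Es rf r' τ (γ t) :=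
    fun t ht z hz => by
      rw [hHS t z hz]
      exact hPS'.img t ht z hz
  have hOv : ∀ c w : ℂ, Pool.Agent.H713R4.RB.Over (c, 1) w ↔ c = w := fun c w => by
    unfold Pool.Agent.H713R4.RB.Over
    simp
  refine ⟨ρ', UF n R₃ R₇ φ (γ 0) ∪ US a n P Es rf r' τ (γ 0), H, Bs ∪ Be, hρ'0, hρ'ρ, ?_, rfl, ?_, ?_⟩
  · refine
      { hρ := hρ'0
        γd := d10.comp_differentiableOn hGD'.γd
        ndg := fun t _ => d5 (γ t)
        Uo := hPF'.Uo.union hPS'.Uo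
        Hd := ?_
        H0 := ?_
        Hi := ?_
        inv := ?_
        conj := ?_
        Bf := hBs.union hBe
        crit := ?_
        inf := ?_ }
    · -- differentiability
      rintro ⟨t, z⟩ ⟨ht, hz⟩
      apply DifferentiableAt.differentiableWithinAt
      rcases hz with hz | hz
      · have h1 : DifferentiableAt ℂ (fun p : ℂ × ℂ => ψ (γ p.1, φ (γ 0, p.2))) (t, z) :=
          hPF'.Hd.differentiableAt ((isOpen_ball.prod hPF'.Uo).mem_nhds ⟨ht, hz⟩)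
        refine h1.congr_of_eventuallyEq ?_
        filter_upwards [(isOpen_ball.prod hPF'.Uo).mem_nhds (⟨ht, hz⟩ : (t, z) ∈ ball (0 : ℂ) ρ' ×ˢ
          UF n R₃ R₇ φ (γ 0))] with p hp
        exact hHF p.1 p.2 hp.2
      · have h1 : DifferentiableAt ℂ (fun p : ℂ × ℂ => Hs p.1 p.2) (t, z) :=
          hPS'.Hd.differentiableAt ((isOpen_ball.prod hPS'.Uo).mem_nhds ⟨ht, hz⟩)
        refine h1.congr_of_eventuallyEq ?_
        filter_upwards [(isOpen_ball.prod hPS'.Uo).mem_nhds (⟨ht, hz⟩ : (t, z) ∈ ball (0 : ℂ) ρ' ×ˢ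
          US a n P Es rf r' τ (γ 0))] with p hp
        exact hHS p.1 p.2 hp.2
    · -- identity at 0
      rintro z (hz | hz)
      · rw [hHF 0 z hz]
        exact hPF'.H0 z hz
      · rw [hHS 0 z hz]
        exact hPS'.H0 z hz
    · -- injectivity
      intro t ht z hz w hw e
      rcases hz with hz | hz <;> rcases hw with hw | hw
      · rw [hHF t z hz, hHF t w hw] at e
        exact hPF'.Hi t ht hz hw e
      · exfalso
        have h1 := hHFi t ht z hz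
        rw [e] at h1
        exact hdj t ht _ (hHSi t ht w hw) h1
      · exfalso
        have h1 := hHFi t ht w hw
        rw [← e] at h1
        exact hdj t ht _ (hHSi t ht z hz) h1
      · rw [hHS t z hz, hHS t w hw] at e
        exact hPS'.Hi t ht hz hw e
    · -- invariance
      rintro z (hz | hz)
      · refine ⟨fx a n (γ 0) z, Or.inl (hPF'.inv z hz), ?_⟩
        rw [d1, hOv]
      · refine ⟨fx a n (γ 0) z, Or.inr (hPS'.inv z hz), ?_⟩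
        rw [d1, hOv]
    · -- conjugacy
      intro t ht z hz w hw
      rw [d1, hOv] at hw
      rw [d1, hOv, ← hw]
      rcases hz with hz | hz
      · rw [hHF t z hz, hHF t _ (hPF'.inv z hz)]
        exact hPF'.conj t ht z hz
      · rw [hHS t z hz, hHS t _ (hPS'.inv z hz)]
        exact hPS'.conj t ht z hz
    · -- critical points
      intro t ht p _ hcr j hj1 hjN w hw hov
      by_cases hp2 : p.2 = 0
      · exact absurd (d4 (γ t) j p hp2) hov.1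
      · obtain ⟨l, hl⟩ := d7 (γ t) p hcr hp2
        have hp : p = (p.2 * γ t (some l), p.2) := by
          ext
          · rw [hl, mul_comm]
          · rfl
        rw [hp] at hov
        have hj := (d8 (γ t) j (γ t (some l)) (H t w) p.2 hp2).1 hov
        have hf := RL_diff a n (γ t)
        by_cases hlEs : l ∈ Es
        · have hA := (hGD'.A0s t ht l hlEs).1
          rcases hw with hw | hw
          · exfalso
            have h1 := hHFi t ht w hw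
            rw [← hj] at h1
            exact hFn t ht _ h1 ((RL_AT_iff hK0 hf hP _ j).2 hA)
          · left
            rw [hHS t w hw] at hj
            exact hBs' t ht l hlEs j hjN w hw hj
        · by_cases hlEe : l ∈ Ee
          · rcases hw with hw | hw
            · right
              rw [hHF t w hw] at hj
              exact hBe' t ht l hlEe j hjN w hw hj
            · exfalso
              have h1 := hSa t ht _ (hHSi t ht w hw)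
              rw [← hj, RL_AT_iff hK0 hf hP _ j] at h1
              have h2 := (RL_AT_iff hK0 hf hP (γ t (some l)) M).2 h1
              rw [hGD'.esc t ht l hlEe] at h2
              have h3 := hGD'.F1 l hlEe
              have h4 := hBO.ψc (γ t) (hGD'.γB t ht) (F0 l) (by linarith [hBO.hR₃, hBO.hC])
              have h5 : R ≤ ‖ψ (γ t, F0 l)‖ := by
                have h6 := norm_sub_norm_le (F0 l) (F0 l - ψ (γ t, F0 l))
                rw [sub_sub_cancel] at h6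
                rw [norm_sub_rev] at h4
                linarith [hBO.hR₁, hBO.hR₃, hBO.hC]
              exact RL_not_AT hP hBO (hnB t ht) h5 h2
          · exfalso
            refine hbad t (hs2 ht) l hlEs hlEe j hjN ?_
            rw [hj]
            rcases hw with hw | hw
            · exact Or.inl (hHFi t ht w hw)
            · exact Or.inr (hHSi t ht w hw)
    · -- infinity
      intro t ht w _ hov
      exact absurd (d4 (γ t) N (1, 0) rfl) hov.1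
  · rintro t ht z (hz | hz)
    · exact Or.inl (hHFi t ht z hz)
    · exact Or.inr (hHSi t ht z hz)
  · intro t ht z hz
    have h1 : z ∈ UF n R₃ R₇ φ (γ 0) := by
      have h2 : R₃ < ‖z‖ := by linarith [hBO.hC]
      refine ⟨h2, ?_⟩
      have h3 := hBO.φc (γ 0) (hGD'.γB 0 h0) z h2
      have h4 := norm_sub_norm_le z (z - φ (γ 0, z))
      rw [sub_sub_cancel] at h4
      rw [norm_sub_rev] at h3
      linarith
    exact ⟨Or.inl h1, hHF t z h1⟩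

/-- The local inequality for the level `N` area. -/
theorem loc_w (hDIC : StDIC) (hK0 : StKO0) (hK1 : StKO1) (hK2 : StKO2) (hK3 : StKO3)
    (hCRS : StCRS) (hRF : StRF) (hRS : StRS) (hASYP : StASYP) (hFARP : StFARP)
    (hAREA : Pool.Agent.H713R4.RB.StAREA) (hAVG : Pool.Agent.H713R4.RB.StAVG2)
    (hBAD : Pool.Agent.H713R4.RB.StBAD) (hMOTL : StMOTL) (hFULLL : StFULLL) (hROOT : StROOT)
    (hPRO : Pool.Agent.H713R4.RB.StPRO) (hWN : Pool.Agent.H713R4.RB.StWN) (hSTEPL : StSTEPL)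
    {a : ℂ} {n P M N : ℕ} {B R C₁ R₁ R₃ R₇ lam₀ lam₁ r₁ r₂ r' τ ρ R₄ R₅ rg c₀ : ℝ} {v : ℂ}
    {ψ φ : PE n × ℂ → ℂ} {Es Ee : Finset (Fin n)} {rf : Fin n → Fin n} {ap : Fin n → ℕ}
    {F0 : Fin n → ℂ} {γ : ℂ → PE n} (ha : a ≠ 0) (hn : 1 ≤ n) (hP : 0 < P)
    (hBO : BO a n B R C₁ R₁ R₃ ψ φ) (hR37 : R₃ + C₁ ≤ R₇) (hKL : KL a n P B lam₀ lam₁ r₁ r₂)
    (hGD : GW a n P M B R₃ ψ Es Ee rf ap F0 ρ γ)
    (hlam : ∀ i ∈ Es, lam₀ ≤ ‖LP (fx a n (γ 0)) P (γ 0 (some i))‖ ∧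
      ‖LP (fx a n (γ 0)) P (γ 0 (some i))‖ ≤ lam₁) (hr' : 0 < r') (hr'1 : r' < r₁) (hτ : 0 < τ)
    (hτb : ∀ i ∈ Es, ∀ b ≤ P, τ * ‖KP (fx a n (γ 0)) P ((fx a n (γ 0))^[b] (γ 0 (some i)))‖ <
      min r₂ (r' / 4))
    (hLB : ∀ l, l ∉ Es → l ∉ Ee → LB a n P R₃ Es N r' (γ 0) l)
    (hR4 : R₇ + 3 * C₁ < R₄) (hR45 : R₄ < R₅) (hc₀ : 0 < c₀)
    (hball : ball v rg ⊆ {z | R₄ < ‖z‖ ∧ ‖z‖ < R₅})
    (hGain : ∀ x ∈ ball (0 : PE n) B, ∀ y ∈ ball (0 : PE n) B,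
      (fam a n x).coeff n = (fam a n y).coeff n →
      Pool.Agent.H713R4.RB.Gain (n + 1) R₄ R₅ v v rg c₀ (wv a n x) (wv a n y)) :
    ∃ r₀ : ℝ, 0 < r₀ ∧ r₀ ≤ ρ ∧ ∀ r : ℝ, 0 < r → r < r₀ → ∀ η : ℝ, 0 < η →
      ∀ q : ℝ → ℝ, Continuous q → ∃ θ : ℝ,
        (volume (BN a n P R₃ R₇ φ Es rf r' τ N (γ (circleMap 0 r θ)))).toReal + q θ <
          (volume (BN a n P R₃ R₇ φ Es rf r' τ N (γ 0))).toReal + η + (2 * Real.pi)⁻¹ *
            ∫ θ in (0 : ℝ)..(2 * Real.pi),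
              (q θ - c₀ * Pool.Agent.H713R3.ZA.Dl a n (γ 0) (γ (circleMap 0 r θ))) := by
  obtain ⟨ρ', U, H, Bd, hρ', hρ'ρ, hRDL, hU, hHim, hUfar⟩ := rl_w hDIC hK0 hK1 hK2 hK3 hCRS
    hRF hRS ha hn hP hBO hR37 hKL hGD hlam hr' hr'1 hτ hτb hLB
  have hsubB : ball (0 : ℂ) ρ' ⊆ ball (0 : ℂ) ρ := ball_subset_ball hρ'ρ
  obtain ⟨hFAR, hfarsub⟩ := hFARP hDIC hASYP a n N B R C₁ R₁ R₃ R₇ ρ' ψ φ γ U H Bd ha hn hBO hR37
    hRDL (fun t ht => hGD.γB t (hsubB ht)) (fun t ht => hGD.cen t (hsubB ht)) hUfar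
  obtain ⟨D1, D2, D3, D4, D5, D6, D7, D8, D9, D10⟩ := hDIC a n ha hn
  refine ⟨ρ', hρ', hρ'ρ, ?_⟩
  intro r hr hrρ η hη q hq
  have hC := hBO.hC
  have hR4pos : 0 < R₄ := by
    have h1 := hBO.hR
    have h2 := hBO.hR₁
    have h3 := hBO.hR₃
    linarith
  have h0 : (0 : ℂ) ∈ ball (0 : ℂ) ρ' := mem_ball_self hρ'
  have hfar0 : {z : ℂ | R₄ < ‖z‖} ⊆ Pool.Agent.H713R4.RB.WN (n + 1) (wv a n (γ 0)) U N := by
    intro z hz
    have hz' : R₄ < ‖z‖ := hz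
    exact hFAR.mem z (by linarith)
  have h1 : {z : ℂ | R₄ < ‖z‖} ∪ ball v rg ∪ ball v rg ⊆
      Pool.Agent.H713R4.RB.WN (n + 1) (wv a n (γ 0)) U N := by
    rintro z ((hz | hz) | hz)
    · exact hfar0 hz
    · exact hfar0 (hball hz).1
    · exact hfar0 (hball hz).1
  have h2 : ∀ t ∈ ball (0 : ℂ) ρ', {z : ℂ | R₄ < ‖z‖} ⊆
      Pool.Agent.H713R4.RB.WN (n + 1) (wv a n (γ t)) (H t '' U) N := by
    intro t ht z hz
    have hz' : R₄ < ‖z‖ := hz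
    apply hfarsub t ht
    show R₇ + 3 * C₁ < ‖z‖
    linarith
  have h3 : ball v rg ∪ ball v rg ⊆ ball (0 : ℂ) R₅ := by
    rintro z (hz | hz)
    · rw [mem_ball_zero_iff]; exact (hball hz).2
    · rw [mem_ball_zero_iff]; exact (hball hz).2
  have h4 : ∀ t ∈ ball (0 : ℂ) ρ', Pool.Agent.H713R4.RB.Gain (n + 1) R₄ R₅ v v rg c₀
      (wv a n (γ 0)) (wv a n (γ t)) := fun t ht =>
    hGain (γ 0) (hGD.γB 0 (hsubB h0)) (γ t) (hGD.γB t (hsubB ht)) (hGD.cen t (hsubB ht)).symm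
  obtain ⟨θ, hθ⟩ := hSTEPL hAREA hAVG hBAD hMOTL hFULLL hROOT hPRO hWN (n + 1)
    (fun t => wv a n (γ t)) ρ' U H Bd N R₄ R₅ (R₇ + C₁) H v v rg c₀ (by omega) hRDL hR4pos hR45 h1
    h2 h3 hFAR hc₀ h4 r hr hrρ η hη q hq
  refine ⟨θ, ?_⟩
  set t := circleMap 0 r θ with ht
  have htρ : t ∈ ball (0 : ℂ) ρ' := by
    rw [mem_ball_zero_iff, ht, norm_circleMap_zero, abs_of_pos hr]
    exact hrρ
  have hsub : BN a n P R₃ R₇ φ Es rf r' τ N (γ t) ⊆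
      (Pool.Agent.H713R4.RB.WN (n + 1) (wv a n (γ t)) (H t '' U) N)ᶜ := by
    intro z hz hz2
    rw [D6] at hz2
    obtain ⟨w, hw, hwz⟩ := hz2
    apply hz
    rw [← hwz]
    exact hHim t htρ w hw
  have hfinm : volume (Pool.Agent.H713R4.RB.WN (n + 1) (wv a n (γ t)) (H t '' U) N)ᶜ ≠ ⊤ := by
    have hs : (Pool.Agent.H713R4.RB.WN (n + 1) (wv a n (γ t)) (H t '' U) N)ᶜ ⊆
        closedBall (0 : ℂ) R₄ := by
      intro z hz
      rw [mem_closedBall_zero_iff]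
      by_contra hcon
      exact hz (h2 t htρ (not_le.1 hcon))
    exact ((measure_mono hs).trans_lt measure_closedBall_lt_top).ne
  have hle : (volume (BN a n P R₃ R₇ φ Es rf r' τ N (γ t))).toReal ≤
      (volume (Pool.Agent.H713R4.RB.WN (n + 1) (wv a n (γ t)) (H t '' U) N)ᶜ).toReal :=
    ENNReal.toReal_mono hfinm (measure_mono hsub)
  have heq : (Pool.Agent.H713R4.RB.WN (n + 1) (wv a n (γ 0)) U N)ᶜ =
      BN a n P R₃ R₇ φ Es rf r' τ N (γ 0) := by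
    rw [D6, hU]
    rfl
  simp only [D9] at hθ
  rw [heq] at hθ
  linarith

/-- the local inequality, from the list of lemmas -/
theorem loc_H (H : HH)
    {a : ℂ} {n P M N : ℕ} {B R C₁ R₁ R₃ R₇ lam₀ lam₁ r₁ r₂ r' τ ρ R₄ R₅ rg c₀ : ℝ} {v : ℂ}
    {ψ φ : PE n × ℂ → ℂ} {Es Ee : Finset (Fin n)} {rf : Fin n → Fin n} {ap : Fin n → ℕ}
    {F0 : Fin n → ℂ} {γ : ℂ → PE n} (ha : a ≠ 0) (hn : 1 ≤ n) (hP : 0 < P)
    (hBO : BO a n B R C₁ R₁ R₃ ψ φ) (hR37 : R₃ + C₁ ≤ R₇) (hKL : KL a n P B lam₀ lam₁ r₁ r₂)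
    (hGD : GW a n P M B R₃ ψ Es Ee rf ap F0 ρ γ)
    (hlam : ∀ i ∈ Es, lam₀ ≤ ‖LP (fx a n (γ 0)) P (γ 0 (some i))‖ ∧
      ‖LP (fx a n (γ 0)) P (γ 0 (some i))‖ ≤ lam₁) (hr' : 0 < r') (hr'1 : r' < r₁) (hτ : 0 < τ)
    (hτb : ∀ i ∈ Es, ∀ b ≤ P, τ * ‖KP (fx a n (γ 0)) P ((fx a n (γ 0))^[b] (γ 0 (some i)))‖ <
      min r₂ (r' / 4))
    (hLB : ∀ l, l ∉ Es → l ∉ Ee → LB a n P R₃ Es N r' (γ 0) l)
    (hR4 : R₇ + 3 * C₁ < R₄) (hR45 : R₄ < R₅) (hc₀ : 0 < c₀)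
    (hball : ball v rg ⊆ {z | R₄ < ‖z‖ ∧ ‖z‖ < R₅})
    (hGain : ∀ x ∈ ball (0 : PE n) B, ∀ y ∈ ball (0 : PE n) B,
      (fam a n x).coeff n = (fam a n y).coeff n →
      Pool.Agent.H713R4.RB.Gain (n + 1) R₄ R₅ v v rg c₀ (wv a n x) (wv a n y)) :
    ∃ r₀ : ℝ, 0 < r₀ ∧ r₀ ≤ ρ ∧ ∀ r : ℝ, 0 < r → r < r₀ → ∀ η : ℝ, 0 < η →
      ∀ q : ℝ → ℝ, Continuous q → ∃ θ : ℝ,
        (volume (BN a n P R₃ R₇ φ Es rf r' τ N (γ (circleMap 0 r θ)))).toReal + q θ <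
          (volume (BN a n P R₃ R₇ φ Es rf r' τ N (γ 0))).toReal + η + (2 * Real.pi)⁻¹ *
            ∫ θ in (0 : ℝ)..(2 * Real.pi),
              (q θ - c₀ * Pool.Agent.H713R3.ZA.Dl a n (γ 0) (γ (circleMap 0 r θ))) :=
  loc_w H.dic H.ko0 H.ko1 H.ko2 H.ko3 H.crs H.rf H.rs H.asyp H.farp H.area H.avg2 H.rbad H.motl
    H.fulll H.root H.pro H.wn H.stepl ha hn hP hBO hR37 hKL hGD hlam hr' hr'1 hτ hτb hLB hR4 hR45
    hc₀ hball hGain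

end Run7.h598.TT
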