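import Mathlib
import Pool.Agent.Run7.h598.TT.RLw
import Pool.Agent.Run7.h598.TT.AbsMin

/-!
Kernel fields and rigid curves.
-/

set_option autoImplicit false

open Topology Filter Metric Set Polynomial MeasureTheory
open Pool.Agent.H713R3.ZA
open Pool.Agent.H713R5.QJ

namespace Run7.h598.TT

section
variable (a : ℂ) (n P M : ℕ) (φ : PE n × ℂ → ℂ) (Es Ee : Finset (Fin n))
  (rf : Fin n → Fin n) (ap : Fin n → ℕ) (uu : Fin n → PE n → ℂ) (Ω : Set (PE n)) (k : Fin n)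

/-- a holomorphic field which preserves the invariants of the good critical points, the functions
`uu i` of the other ones except `k`, and the centre, and which moves the coefficient `j` -/
structure FF (X : PE n → PE n) (j : ℕ) : Prop where
  Xd : DifferentiableOn ℂ X Ω
  X1 : ∀ x ∈ Ω, ∀ i ∈ Es, dn a n P rf ap i x * fderiv ℂ (nu a n P rf i) x (X x) -
      nu a n P rf i x * fderiv ℂ (dn a n P rf ap i) x (X x) = 0
  X2 : ∀ x ∈ Ω, ∀ i ∈ Ee,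
      fderiv ℂ (fun x : PE n => φ (x, (fx a n x)^[M] (x (some i)))) x (X x) = 0
  X3 : ∀ x ∈ Ω, fderiv ℂ (cf a n n) x (X x) = 0
  X4 : ∀ x ∈ Ω, ∀ i, i ∉ Es → i ∉ Ee → i ≠ k → fderiv ℂ (uu i) x (X x) = 0
  hj : j < n + 2
  ne : ∃ x ∈ Ω, fderiv ℂ (cf a n j) x (X x) ≠ 0

/-- the rows -/
noncomputable def Dw (i : Fin n) (x : PE n) : PE n →L[ℂ] ℂ :=
  if i ∈ Es then dn a n P rf ap i x • fderiv ℂ (nu a n P rf i) x -
      nu a n P rf i x • fderiv ℂ (dn a n P rf ap i) x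
  else if i ∈ Ee then fderiv ℂ (fun x : PE n => φ (x, (fx a n x)^[M] (x (some i)))) x
  else if i = k then fderiv ℂ (cf a n n) x else fderiv ℂ (uu i) x

end

theorem Dw_diff (H : HH) {a : ℂ} {n P M : ℕ} {B R C₁ R₁ R₃ : ℝ} {ψ φ : PE n × ℂ → ℂ}
    {Es Ee : Finset (Fin n)} {rf : Fin n → Fin n} {ap : Fin n → ℕ} {uu : Fin n → PE n → ℂ}
    {k : Fin n} (ha : a ≠ 0)
    (hn : 1 ≤ n) (hP : 0 < P) (hb : BO a n B R C₁ R₁ R₃ ψ φ) (hRFP : RFP n Es rf ap)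
    (huu : ∀ i, Differentiable ℂ (uu i))
    {Ω : Set (PE n)} (hΩo : IsOpen Ω) (hΩO : Ω ⊆ OO a n P M B R₃ Es Ee) (i : Fin n) (v : PE n) :
    DifferentiableOn ℂ (fun x => Dw a n P M φ Es Ee rf ap uu k i x v) Ω := by
  obtain ⟨-, hnud⟩ := H.nud H.ko0 H.ko1 H.ko2 H.ko3 a n P M B R₃ Es Ee rf ap ha hn hP hRFP
  unfold Dw
  by_cases h1 : i ∈ Es
  · simp only [if_pos h1]
    obtain ⟨e1, e2, -, -⟩ := hnud i h1
    have f1 := e1.mono hΩO
    have f2 := e2.mono hΩO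
    have g1 := Pool.Agent.Helper540.differentiableOn_fderiv_apply hΩo f1 v
    have g2 := Pool.Agent.Helper540.differentiableOn_fderiv_apply hΩo f2 v
    have g3 := (f2.mul g1).sub (f1.mul g2)
    exact g3
  · by_cases h2 : i ∈ Ee
    · simp only [if_neg h1, if_pos h2]
      have f1 : DifferentiableOn ℂ (fun x : PE n => φ (x, (fx a n x)^[M] (x (some i)))) Ω := by
        have h3 : DifferentiableOn ℂ
            (fun x : PE n => ((x, (fx a n x)^[M] (x (some i))) : PE n × ℂ)) Ω :=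
          differentiableOn_id.prodMk (crit_diff a n M i).differentiableOn
        exact hb.φd.comp h3 (fun x hx => ⟨(hΩO hx).1, (hΩO hx).2.2 i h2⟩)
      exact Pool.Agent.Helper540.differentiableOn_fderiv_apply hΩo f1 v
    · by_cases h3 : i = k
      · simp only [if_neg h1, if_neg h2, if_pos h3]
        exact Pool.Agent.Helper540.differentiableOn_fderiv_apply hΩo (cf_diff a n n).differentiableOn v
      · simp only [if_neg h1, if_neg h2, if_neg h3]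
        exact Pool.Agent.Helper540.differentiableOn_fderiv_apply hΩo (huu i).differentiableOn v

theorem exists_FF (H : HH) {a : ℂ} {n P M : ℕ} {B R C₁ R₁ R₃ : ℝ} {ψ φ : PE n × ℂ → ℂ}
    {Es Ee : Finset (Fin n)} {rf : Fin n → Fin n} {ap : Fin n → ℕ} {uu : Fin n → PE n → ℂ}
    (ha : a ≠ 0) (hn : 1 ≤ n) (hP : 0 < P) (hb : BO a n B R C₁ R₁ R₃ ψ φ)
    (hRFP : RFP n Es rf ap) (huu : ∀ i, Differentiable ℂ (uu i))
    (hse : ∀ i ∈ Ee, i ∉ Es) {Ω : Set (PE n)} (hΩo : IsOpen Ω) (hΩne : Ω.Nonempty)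
    (hΩO : Ω ⊆ OO a n P M B R₃ Es Ee) {k : Fin n} (hk1 : k ∉ Es) (hk2 : k ∉ Ee) :
    ∃ (X : PE n → PE n) (j : ℕ), FF a n P M φ Es Ee rf ap uu Ω k X j := by
  obtain ⟨X, hXd, hXne, hXk⟩ := exists_field H.cross (n := n) hΩo hΩne
    (Dw a n P M φ Es Ee rf ap uu k) (fun i v => Dw_diff H ha hn hP hb hRFP huu hΩo hΩO i v)
  obtain ⟨x₃, hx₃, hXx₃, hx₃i⟩ := exists_good H.iden hΩo hXd hXne
  obtain ⟨j, hj⟩ : ∃ j : ℕ, fderiv ℂ (cf a n j) x₃ (X x₃) ≠ 0 := by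
    by_contra hcon
    push Not at hcon
    exact hXx₃ (H.ndeg n a x₃ (X x₃) hn ha hx₃i hcon)
  have hjn : j < n + 2 := by
    by_contra hcon
    apply hj
    have h1 : cf a n j = fun _ => 0 := by
      funext x
      exact coeff_eq_zero_of_natDegree_lt (by have := natDegree_fam_le a n x; omega)
    rw [h1]
    simp
  refine ⟨X, j, hXd, ?_, ?_, ?_, ?_, hjn, ⟨x₃, hx₃, hj⟩⟩
  · intro x hx i hi
    have := hXk x hx i
    unfold Dw at this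
    rw [if_pos hi] at this
    exact this
  · intro x hx i hi
    have := hXk x hx i
    unfold Dw at this
    rw [if_neg (hse i hi), if_pos hi] at this
    exact this
  · intro x hx
    have := hXk x hx k
    unfold Dw at this
    rw [if_neg hk1, if_neg hk2, if_pos rfl] at this
    exact this
  · intro x hx i h1 h2 h3
    have := hXk x hx i
    unfold Dw at this
    rw [if_neg h1, if_neg h2, if_neg h3] at this
    exact this

/-- generic points -/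
theorem exists_ne (hIDEN : StIDEN) {n : ℕ} {ι : Type} (s : Finset ι) (g : ι → PE n → ℂ)
    {Ω : Set (PE n)} (hΩo : IsOpen Ω) (hΩc : IsPreconnected Ω)
    (hg : ∀ i ∈ s, DifferentiableOn ℂ (g i) Ω) (hne : ∀ i ∈ s, ∃ x ∈ Ω, g i x ≠ 0) :
    ∀ W : Set (PE n), IsOpen W → W.Nonempty → W ⊆ Ω → ∃ x ∈ W, ∀ i ∈ s, g i x ≠ 0 := by
  classical
  induction s using Finset.induction_on with
  | empty =>
    intro W _ hW _
    obtain ⟨x, hx⟩ := hW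
    exact ⟨x, hx, fun i hi => absurd hi (Finset.notMem_empty i)⟩
  | insert i s hi ih =>
    intro W hWo hWne hWΩ
    have hgi := hg i (Finset.mem_insert_self i s)
    -- a point of `W` where `g i` does not vanish
    obtain ⟨y, hyW, hy⟩ : ∃ y ∈ W, g i y ≠ 0 := by
      by_contra hcon
      push Not at hcon
      obtain ⟨x₀, hx₀⟩ := hWne
      have h1 : ∀ᶠ x in 𝓝 x₀, g i x = 0 := by
        filter_upwards [hWo.mem_nhds hx₀] with x hx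
        exact hcon x hx
      obtain ⟨x, hx, hx2⟩ := hne i (Finset.mem_insert_self i s)
      exact hx2 (hIDEN (PE n) Ω (g i) hΩo hΩc hgi x₀ (hWΩ hx₀) h1 x hx)
    set W' : Set (PE n) := {x | x ∈ W ∧ g i x ≠ 0} with hW'
    have hW'o : IsOpen W' := (hgi.mono hWΩ).continuousOn.isOpen_inter_preimage hWo isOpen_ne
    obtain ⟨x, hx, hx2⟩ := ih (fun j hj => hg j (Finset.mem_insert_of_mem hj))
      (fun j hj => hne j (Finset.mem_insert_of_mem hj)) W' hW'o ⟨y, hyW, hy⟩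
      (fun x hx => hWΩ hx.1)
    refine ⟨x, hx.1, fun j hj => ?_⟩
    rcases Finset.mem_insert.mp hj with rfl | hj'
    · exact hx.2
    · exact hx2 j hj'

/-- the environment -/
structure Env (a : ℂ) (n P M N : ℕ)
    (B R C₁ R₁ R₃ R₇ lam₀ lam₁ r₁ r₂ r' τ R₄ R₅ rg c₀ n₀ : ℝ) (v : ℂ) (ψ φ : PE n × ℂ → ℂ)
    (Es Ee : Finset (Fin n)) (rf : Fin n → Fin n) (ap : Fin n → ℕ) (xT : PE n)
    (Ω L₀ : Set (PE n)) : Prop where
  ha : a ≠ 0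
  hn : 1 ≤ n
  hP : 0 < P
  hb : BO a n B R C₁ R₁ R₃ ψ φ
  hR₇ : R₃ + C₁ ≤ R₇
  hKL : KL a n P B lam₀ lam₁ r₁ r₂
  hRFP : RFP n Es rf ap
  hΩo : IsOpen Ω
  hΩO : Ω ⊆ OO a n P M B R₃ Es Ee
  hrel : ∀ x ∈ Ω, ∀ i ∈ Es, SP (fx a n x) P (x (some i)) =
    (fx a n x)^[ap i] (SP (fx a n x) P (x (some (rf i))))
  hdis : ∀ x ∈ Ω, ∀ i ∈ Es, ∀ i' ∈ Es, rf i = i → rf i' = i' → i ≠ i' → ∀ b : ℕ,
    SP (fx a n x) P (x (some i')) ≠ (fx a n x)^[b] (SP (fx a n x) P (x (some i)))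
  hr' : 0 < r'
  hr'₁ : r' < r₁
  hτ : 0 < τ
  hR₄ : R₇ + 3 * C₁ < R₄
  hR₅ : R₄ < R₅
  hc₀ : 0 < c₀
  hv : ball v rg ⊆ {z | R₄ < ‖z‖ ∧ ‖z‖ < R₅}
  hgain : ∀ x ∈ ball (0 : PE n) B, ∀ y ∈ ball (0 : PE n) B,
    (fam a n x).coeff n = (fam a n y).coeff n →
    Pool.Agent.H713R4.RB.Gain (n + 1) R₄ R₅ v v rg c₀ (wv a n x) (wv a n y)
  hL₀c : IsCompact L₀
  hL₀Ω : L₀ ⊆ Ω
  hlam : ∀ x ∈ L₀, ∀ i ∈ Es, lam₀ ≤ ‖LP (fx a n x) P (x (some i))‖ ∧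
    ‖LP (fx a n x) P (x (some i))‖ ≤ lam₁
  hCK : ∀ x ∈ L₀, ∀ i ∈ Es, ∀ b ≤ P,
    τ * ‖KP (fx a n x) P ((fx a n x)^[b] (x (some i)))‖ < min r₂ (r' / 4)
  hF1 : ∀ x ∈ L₀, ∀ i ∈ Ee, R₃ < ‖φ (x, (fx a n x)^[M] (x (some i)))‖
  hsat : ∀ p ∈ L₀, Dl a n xT p < n₀ → ∀ γ : ℂ → PE n, ContinuousAt γ 0 → γ 0 = p →
    (∀ᶠ t in 𝓝 (0 : ℂ), γ t ∈ Ω ∧ ∀ i ∈ Ee, φ (γ t, (fx a n (γ t))^[M] (γ t (some i))) =
      φ (p, (fx a n p)^[M] (p (some i)))) → ∀ᶠ t in 𝓝 (0 : ℂ), γ t ∈ L₀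

/-- Integral curves of the fields. -/
theorem curve_w (H : HH) {a : ℂ} {n P M N : ℕ}
    {B R C₁ R₁ R₃ R₇ lam₀ lam₁ r₁ r₂ r' τ R₄ R₅ rg c₀ n₀ : ℝ} {v : ℂ} {ψ φ : PE n × ℂ → ℂ}
    {Es Ee : Finset (Fin n)} {rf : Fin n → Fin n} {ap : Fin n → ℕ} {xT : PE n}
    {Ω L₀ : Set (PE n)}
    (E : Env a n P M N B R C₁ R₁ R₃ R₇ lam₀ lam₁ r₁ r₂ r' τ R₄ R₅ rg c₀ n₀ v ψ φ Es Ee rf ap xT Ω L₀)
    {uu : Fin n → PE n → ℂ} (huu : ∀ i, Differentiable ℂ (uu i)) {k : Fin n} {X : PE n → PE n}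
    {j : ℕ} (hF : FF a n P M φ Es Ee rf ap uu Ω k X j)
    {p : PE n} (hp : p ∈ L₀) (hpK : ∀ i ∈ Es, KP (fx a n p) P (p (some i)) ≠ 0)
    (hpj : fderiv ℂ (cf a n j) p (X p) ≠ 0)
    (hLB : ∀ l, l ∉ Es → l ∉ Ee → LB a n P R₃ Es N r' p l) :
    ∃ (r₀ : ℝ) (γ : ℂ → PE n), 0 < r₀ ∧ γ 0 = p ∧ DifferentiableOn ℂ γ (ball 0 r₀) ∧
      (∀ t ∈ ball (0 : ℂ) r₀, γ t ∈ Ω ∧
        (∀ i ∈ Ee, φ (γ t, (fx a n (γ t))^[M] (γ t (some i))) =
          φ (p, (fx a n p)^[M] (p (some i)))) ∧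
        ∀ i, i ∉ Es → i ∉ Ee → i ≠ k → uu i (γ t) = uu i p) ∧
      deriv (fun t => cf a n j (γ t)) 0 ≠ 0 ∧
      ∀ r : ℝ, 0 < r → r < r₀ → ∀ η : ℝ, 0 < η → ∀ q : ℝ → ℝ, Continuous q →
        ∃ θ : ℝ, (volume (BN a n P R₃ R₇ φ Es rf r' τ N (γ (circleMap 0 r θ)))).toReal + q θ <
          (volume (BN a n P R₃ R₇ φ Es rf r' τ N (γ 0))).toReal + η + (2 * Real.pi)⁻¹ *
            ∫ θ in (0 : ℝ)..(2 * Real.pi),
              (q θ - c₀ * ∑ j : Fin (n + 2), ‖cf a n j (γ (circleMap 0 r θ)) - cf a n j (γ 0)‖ ^ 2) := by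
  classical
  have hpΩ : p ∈ Ω := E.hL₀Ω hp
  obtain ⟨hOo, hN⟩ := H.nud H.ko0 H.ko1 H.ko2 H.ko3 a n P M B R₃ Es Ee rf ap E.ha E.hn E.hP E.hRFP
  -- the open set where the positions do not vanish
  set hh : PE n → ℂ := fun x => ∏ i ∈ Es, KP (fx a n x) P (x (some i)) with hhh
  have hhd : DifferentiableOn ℂ hh Ω := by
    apply prod_diff
    intro i hi
    exact (hN i hi).2.2.1.mono E.hΩO
  have hhp : hh p ≠ 0 := Finset.prod_ne_zero_iff.mpr hpK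
  set Ω' : Set (PE n) := {x | x ∈ Ω ∧ hh x ≠ 0} with hΩ'
  have hΩ'o : IsOpen Ω' := hhd.continuousOn.isOpen_inter_preimage E.hΩo isOpen_ne
  have hΩ'Ω : Ω' ⊆ Ω := fun x hx => hx.1
  obtain ⟨ρ, hρ, hflow⟩ := H.flow (PE n) Ω' {p} X hΩ'o isCompact_singleton
    (singleton_subset_iff.mpr ⟨hpΩ, hhp⟩) (hF.Xd.mono hΩ'Ω)
  obtain ⟨γ, hγ0, hγ⟩ := hflow p rfl
  have h0 : (0 : ℂ) ∈ ball (0 : ℂ) ρ := mem_ball_self hρ
  have hγΩ : ∀ t ∈ ball (0 : ℂ) ρ, γ t ∈ Ω := fun t ht => hΩ'Ω (hγ t ht).1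
  have hkne : ∀ t ∈ ball (0 : ℂ) ρ, ∀ i ∈ Es, KP (fx a n (γ t)) P (γ t (some i)) ≠ 0 :=
    fun t ht i hi => Finset.prod_ne_zero_iff.mp (hγ t ht).1.2 i hi
  have hγd' : ∀ t ∈ ball (0 : ℂ) ρ, HasDerivAt γ (X (γ t)) t := fun t ht => (hγ t ht).2
  have hO : ∀ t ∈ ball (0 : ℂ) ρ, γ t ∈ OO a n P M B R₃ Es Ee := fun t ht => E.hΩO (hγΩ t ht)
  have hB : ∀ t ∈ ball (0 : ℂ) ρ, γ t ∈ ball (0 : PE n) B := fun t ht => (hO t ht).1
  have hA : ∀ t ∈ ball (0 : ℂ) ρ, ∀ i ∈ Es, (γ t, γ t (some i)) ∈ A0 a n P := fun t ht =>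
    (hO t ht).2.1
  have hEe : ∀ t ∈ ball (0 : ℂ) ρ, ∀ i ∈ Ee, R₃ < ‖(fx a n (γ t))^[M] (γ t (some i))‖ :=
    fun t ht => (hO t ht).2.2
  have hb := E.hb
  set F0 : Fin n → ℂ := fun i => φ (p, (fx a n p)^[M] (p (some i))) with hF0
  have hREL : ∀ t ∈ ball (0 : ℂ) ρ, ∀ i ∈ Es, nu a n P rf i (γ t) * dn a n P rf ap i (γ 0) =
      nu a n P rf i (γ 0) * dn a n P rf ap i (γ t) := by
    intro t ht i hi
    obtain ⟨hnu, hdn, -, hd0⟩ := hN i hi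
    exact gdp_quot hOo hnu hdn hγd' hO
      (fun s hs => hd0 _ (hO s hs) (hkne s hs (rf i) (E.hRFP.mem i hi)))
      (fun s hs => hF.X1 _ (hγΩ s hs) i hi) t ht
  have hlam0 : ∀ t ∈ ball (0 : ℂ) ρ, ∀ i ∈ Es, rf i = i →
      LP (fx a n (γ t)) P (γ t (some i)) = LP (fx a n (γ 0)) P (γ 0 (some i)) := by
    intro t ht i hi hri
    have h1 := hREL t ht i hi
    simp only [nu, dn, if_pos hri, mul_one] at h1
    exact h1
  have hlam1 : ∀ t ∈ ball (0 : ℂ) ρ, ∀ i ∈ Es,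
      LP (fx a n (γ t)) P (γ t (some i)) = LP (fx a n (γ t)) P (γ t (some (rf i))) := by
    intro t ht i hi
    obtain ⟨-, e2, e3⟩ := gdp_iter H.ko0 (Pool.Agent.H713R3.ZA.fx_differentiable a n (γ t)) E.hP
      (hA t ht (rf i) (E.hRFP.mem i hi)).1 (ap i)
    have e4 := E.hrel _ (hγΩ t ht) i hi
    rw [← e3]
    unfold LP
    rw [e2, e4]
  have hφc : ∀ t ∈ ball (0 : ℂ) ρ, ∀ i ∈ Ee, φ (γ t, (fx a n (γ t))^[M] (γ t (some i))) = F0 i := by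
    intro t ht i hi
    have hd : DifferentiableOn ℂ (fun x : PE n => φ (x, (fx a n x)^[M] (x (some i))))
        (OO a n P M B R₃ Es Ee) :=
      gdp_phi hb i (fun x hx => hx.1) (fun x hx => hx.2.2 i hi)
    have h1 := gdp_along hOo hd hγd' hO (fun s hs => hF.X2 _ (hγΩ s hs) i hi) t ht
    rw [hγ0] at h1
    exact h1
  have hGW : GW a n P M B R₃ ψ Es Ee rf ap F0 ρ γ :=
    { hρ := hρ
      γd := fun t ht => (hγd' t ht).differentiableAt.differentiableWithinAt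
      γB := hB
      A0s := hA
      lam := by
        intro t ht i hi
        rw [hlam1 t ht i hi, hlam1 0 h0 i hi]
        exact hlam0 t ht (rf i) (E.hRFP.mem i hi) (E.hRFP.idem i hi)
      kne := hkne
      rel := fun t ht => E.hrel _ (hγΩ t ht)
      ref := E.hRFP
      dis := fun t ht => E.hdis _ (hγΩ t ht)
      rat := by
        intro t ht i hi
        by_cases hri : rf i = i
        · rw [E.hRFP.zero i hi hri, hri]
          simp only [Function.iterate_zero, id_eq]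
          exact mul_comm _ _
        · have h1 := hREL t ht i hi
          simp only [nu, dn, if_neg hri] at h1
          exact h1
      F1 := fun i hi => E.hF1 p hp i hi
      esc := by
        intro t ht i hi
        have h5 := hb.ψφ (γ t) (hB t ht) _ (hEe t ht i hi)
        rw [← h5, hφc t ht i hi]
      cen := by
        intro t ht
        exact gdp_along isOpen_univ (cf_diff a n n).differentiableOn hγd' (fun _ _ => mem_univ _)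
          (fun s hs => hF.X3 _ (hγΩ s hs)) t ht }
  obtain ⟨r₀, hr₀, hr₀ρ, hloc⟩ := loc_H H (N := N) (R₇ := R₇) (lam₀ := lam₀) (lam₁ := lam₁)
    (r₁ := r₁) (r₂ := r₂) (r' := r') (τ := τ) (R₄ := R₄) (R₅ := R₅) (rg := rg) (c₀ := c₀)
    (v := v) E.ha E.hn E.hP E.hb E.hR₇ E.hKL hGW
    (by rw [hγ0]; exact fun i hi => E.hlam p hp i hi) E.hr' E.hr'₁ E.hτ
    (by rw [hγ0]; exact fun i hi b hb' => E.hCK p hp i hi b hb') (by rw [hγ0]; exact hLB) E.hR₄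
    E.hR₅ E.hc₀ E.hv E.hgain
  have hsub : ∀ t ∈ ball (0 : ℂ) r₀, t ∈ ball (0 : ℂ) ρ := fun t ht => ball_subset_ball hr₀ρ ht
  refine ⟨r₀, γ, hr₀, hγ0, fun t ht => (hγd' t (hsub t ht)).differentiableAt.differentiableWithinAt,
    fun t ht => ⟨hγΩ t (hsub t ht), fun i hi => hφc t (hsub t ht) i hi, fun i h1 h2 h3 => ?_⟩, ?_, ?_⟩
  · have := gdp_along isOpen_univ (huu i).differentiableOn hγd' (fun _ _ => mem_univ _)
      (fun s hs => hF.X4 _ (hγΩ s hs) i h1 h2 h3) t (hsub t ht)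
    rw [hγ0] at this
    exact this
  · have e1 : HasDerivAt (fun t => cf a n j (γ t)) (fderiv ℂ (cf a n j) (γ 0) (X (γ 0))) 0 :=
      ((cf_diff a n j) (γ 0)).hasFDerivAt.comp_hasDerivAt 0 (hγd' 0 h0)
    rw [e1.deriv, hγ0]
    exact hpj
  · intro r hr hrr η hη q hq
    obtain ⟨θ, hθ⟩ := hloc r hr hrr η hη q hq
    refine ⟨θ, ?_⟩
    have hDl : ∀ x y : PE n, ∑ j : Fin (n + 2), ‖cf a n j y - cf a n j x‖ ^ 2 = Dl a n x y := by
      intro x y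
      rw [Dl_eq, Finset.sum_range]
    simp only [hDl]
    exact hθ

end Run7.h598.TT
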