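import Mathlib
import Pool.Agent.Run7.h598.TT.Crv

/-!
One stage of the construction: a critical point which is not good is moved while the functions
`uu i` of the other ones are kept.
-/

set_option autoImplicit false

open Topology Filter Metric Set Polynomial MeasureTheory
open Pool.Agent.H713R3.ZA
open Pool.Agent.H713R5.QJ

namespace Run7.h598.TT

theorem stage (H : HH) {a : ℂ} {n P M N : ℕ}
    {B R C₁ R₁ R₃ R₇ lam₀ lam₁ r₁ r₂ r' τ R₄ R₅ rg c₀ n₀ : ℝ} {v : ℂ} {ψ φ : PE n × ℂ → ℂ}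
    {Es Ee : Finset (Fin n)} {rf : Fin n → Fin n} {ap : Fin n → ℕ} {xT : PE n}
    {Ω L₀ : Set (PE n)}
    (E : Env a n P M N B R C₁ R₁ R₃ R₇ lam₀ lam₁ r₁ r₂ r' τ R₄ R₅ rg c₀ n₀ v ψ φ Es Ee rf ap xT Ω L₀)
    {uu : Fin n → PE n → ℂ} (huu : ∀ i, Differentiable ℂ (uu i)) {k : Fin n} {X : PE n → PE n}
    {j : ℕ} (hF : FF a n P M φ Es Ee rf ap uu Ω k X j)
    {ff D uf : PE n → ℂ} (hff : DifferentiableOn ℂ ff Ω) (hD : DifferentiableOn ℂ D Ω)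
    (huf : DifferentiableOn ℂ uf Ω)
    (hfj : ∀ x ∈ Ω, ff x ≠ 0 → (∀ i ∈ Es, KP (fx a n x) P (x (some i)) ≠ 0) ∧
      fderiv ℂ (cf a n j) x (X x) ≠ 0)
    {δ κ e ra rb : ℝ} (hδ : 0 < δ) (hκ : 0 < κ) {W : PE n → ℝ}
    (hW : ∀ x, W x = (volume (BN a n P R₃ R₇ φ Es rf r' τ N x)).toReal + c₀ / 2 * Dl a n xT x -
      δ * Real.log ‖ff x‖ - κ * Real.log ‖D x‖ + e * Real.log ‖uf x‖)
    {p₂ : PE n} (hp₂ : p₂ ∈ L₀) (hfp₂ : ff p₂ ≠ 0)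
    (hDp₂ : D p₂ ≠ 0) (hra : ra ≤ ‖uu k p₂‖) (hrb : ‖uu k p₂‖ ≤ rb)
    (hu0 : ∀ x ∈ L₀, ra ≤ ‖uu k x‖ → uf x ≠ 0)
    (H1 : ∀ p ∈ L₀, (∀ i, i ∉ Es → i ∉ Ee → i ≠ k → uu i p = uu i p₂) → ra ≤ ‖uu k p‖ →
      ‖uu k p‖ ≤ rb → ff p ≠ 0 → D p ≠ 0 → W p ≤ W p₂ → Dl a n xT p < n₀)
    (H2 : ∀ p ∈ L₀, (∀ i, i ∉ Es → i ∉ Ee → i ≠ k → uu i p = uu i p₂) → ra < ‖uu k p‖ →
      ‖uu k p‖ < rb → ff p ≠ 0 → D p ≠ 0 → W p ≤ W p₂ →
      ∀ l, l ∉ Es → l ∉ Ee → LB a n P R₃ Es N r' p l) :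
    ∃ p ∈ L₀, (∀ i, i ∉ Es → i ∉ Ee → i ≠ k → uu i p = uu i p₂) ∧ ra ≤ ‖uu k p‖ ∧
      ‖uu k p‖ ≤ rb ∧ ff p ≠ 0 ∧ D p ≠ 0 ∧ W p ≤ W p₂ ∧
      (‖uu k p‖ = ra ∨ ‖uu k p‖ = rb) := by
  classical
  set L : Set (PE n) := L₀ ∩ ({x | ∀ i, i ∉ Es → i ∉ Ee → i ≠ k → uu i x = uu i p₂} ∩
    ({x | ra ≤ ‖uu k x‖} ∩ {x | ‖uu k x‖ ≤ rb})) with hL
  have hLL₀ : L ⊆ L₀ := fun x hx => hx.1
  have hLΩ : L ⊆ Ω := hLL₀.trans E.hL₀Ω
  have huc : Continuous (fun x => ‖uu k x‖) := (huu k).continuous.norm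
  have hLc : IsCompact L := by
    have h1 : IsClosed {x : PE n | ∀ i, i ∉ Es → i ∉ Ee → i ≠ k → uu i x = uu i p₂} := by
      simp only [setOf_forall]
      exact isClosed_iInter fun i => isClosed_iInter fun _ => isClosed_iInter fun _ =>
        isClosed_iInter fun _ => isClosed_eq (huu i).continuous continuous_const
    have h2 : IsClosed {x : PE n | ra ≤ ‖uu k x‖} := isClosed_le continuous_const huc
    have h3 : IsClosed {x : PE n | ‖uu k x‖ ≤ rb} := isClosed_le huc continuous_const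
    exact E.hL₀c.inter_right (h1.inter (h2.inter h3))
  have hlsc := H.lscp H.ko0 H.ko1 H.ko2 H.ko3 a n P M N B R C₁ R₁ R₃ R₇ lam₀ lam₁ r₁ r₂ r' τ ψ φ
    Es Ee rf L E.ha E.hn E.hP E.hb E.hR₇ E.hKL E.hr' E.hr'₁ E.hτ (hLΩ.trans E.hΩO)
    (fun x hx => E.hlam x (hLL₀ hx))
  have hDl : ∀ x : PE n, ∑ j : Fin (n + 2), ‖cf a n j x - cf a n j xT‖ ^ 2 = Dl a n xT x := by
    intro x
    rw [Dl_eq, Finset.sum_range]
  have hWW : ∀ x, WW (J := Fin (n + 2)) (fun j => cf a n j) (fun j => cf a n j xT)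
      (fun x => (volume (BN a n P R₃ R₇ φ Es rf r' τ N x)).toReal) ff D uf (c₀ / 2) δ κ e x =
      W x := by
    intro x
    unfold WW
    rw [hDl, hW]
    ring
  have hp₂L : p₂ ∈ L := ⟨hp₂, fun i _ _ _ => rfl, hra, hrb⟩
  have key := absmin (V := PE n) (J := Fin (n + 2))
    (cf := fun j => cf a n j) (fun j => cf_diff a n j) (fun j => cf a n j xT)
    (AN := fun x => (volume (BN a n P R₃ R₇ φ Es rf r' τ N x)).toReal) (L := L)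
    (f := ff) (D := D) (u := uf) (c := c₀ / 2) (δ := δ) (κ := κ) (e := e) (p₂ := p₂)
    (Q := fun p => ‖uu k p‖ = ra ∨ ‖uu k p‖ = rb)
    (fun _ => ENNReal.toReal_nonneg) (by have := E.hc₀; positivity) hδ hκ hLc
    (hff.continuousOn.mono hLΩ) (hD.continuousOn.mono hLΩ) (huf.continuousOn.mono hLΩ)
    (fun x hx => hu0 x (hLL₀ hx) hx.2.2.1) hlsc hp₂L hfp₂ hDp₂
  suffices hstep : _ by
    obtain ⟨p, hpL, hfp, hDp, hWp, hQ⟩ := key hstep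
    rw [hWW, hWW] at hWp
    exact ⟨p, hLL₀ hpL, hpL.2.1, hpL.2.2.1, hpL.2.2.2, hfp, hDp, hWp, hQ⟩
  · intro p hp hfp hDp hWp
    rw [hWW, hWW] at hWp
    obtain ⟨hp0, hpu, hpa, hpb⟩ := hp
    have hpa' : ra ≤ ‖uu k p‖ := hpa
    have hpb' : ‖uu k p‖ ≤ rb := hpb
    rcases hpa'.lt_or_eq with hlt | heq
    swap
    · exact Or.inl (Or.inl heq.symm)
    rcases hpb'.lt_or_eq with hlt2 | heq2
    swap
    · exact Or.inl (Or.inr heq2)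
    right
    have hpΩ := E.hL₀Ω hp0
    have hDlp := H1 p hp0 hpu hpa' hpb' hfp hDp hWp
    have hLBp := H2 p hp0 hpu hlt hlt2 hfp hDp hWp
    obtain ⟨hKp, hjp⟩ := hfj p hpΩ hfp
    obtain ⟨r₀, γ, hr₀, hγ0, hγd, hγp, hder, hloc⟩ := curve_w H E huu hF hp0 hKp hjp hLBp
    have h0 : (0 : ℂ) ∈ ball (0 : ℂ) r₀ := mem_ball_self hr₀
    have hγc : ContinuousAt γ 0 := hγd.continuousOn.continuousAt (isOpen_ball.mem_nhds h0)
    have hγe : ∀ᶠ t in 𝓝 (0 : ℂ), t ∈ ball (0 : ℂ) r₀ := isOpen_ball.mem_nhds h0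
    have e1 : ∀ᶠ t in 𝓝 (0 : ℂ), γ t ∈ L₀ := by
      apply E.hsat p hp0 hDlp γ hγc hγ0
      filter_upwards [hγe] with t ht
      exact ⟨(hγp t ht).1, (hγp t ht).2.1⟩
    have hcomp : ∀ g : PE n → ℂ, DifferentiableOn ℂ g Ω → ContinuousAt (fun t => g (γ t)) 0 := by
      intro g hg
      have h1 : ContinuousAt g (γ 0) := by
        rw [hγ0]
        exact hg.continuousOn.continuousAt (E.hΩo.mem_nhds hpΩ)
      exact ContinuousAt.comp (f := γ) (g := g) h1 hγc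
    have e2 : ∀ᶠ t in 𝓝 (0 : ℂ), ff (γ t) ≠ 0 :=
      (hcomp ff hff).eventually_ne (by rw [hγ0]; exact hfp)
    have e3 : ∀ᶠ t in 𝓝 (0 : ℂ), D (γ t) ≠ 0 :=
      (hcomp D hD).eventually_ne (by rw [hγ0]; exact hDp)
    have hun := (hcomp (uu k) (huu k).differentiableOn).norm
    have e4 : ∀ᶠ t in 𝓝 (0 : ℂ), ra < ‖uu k (γ t)‖ :=
      hun.eventually (lt_mem_nhds (by simp only [hγ0]; exact hlt))
    have e5 : ∀ᶠ t in 𝓝 (0 : ℂ), ‖uu k (γ t)‖ < rb :=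
      hun.eventually (gt_mem_nhds (by simp only [hγ0]; exact hlt2))
    obtain ⟨s, hs, hsb⟩ := Metric.eventually_nhds_iff_ball.1 (e1.and (e2.and (e3.and (e4.and e5))))
    refine ⟨min s r₀, γ, lt_min hs hr₀, hγ0,
      hγd.mono (ball_subset_ball (min_le_right _ _)), ?_, ?_, ?_, ?_, ?_, ?_⟩
    · intro t ht
      have ht1 := ball_subset_ball (min_le_left s r₀) ht
      have ht2 := ball_subset_ball (min_le_right s r₀) ht
      obtain ⟨f1, f2, f3, f4, f5⟩ := hsb t ht1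
      refine ⟨⟨f1, fun i hi1 hi2 hi3 => ?_, f4.le, f5.le⟩, f2, f3⟩
      rw [(hγp t ht2).2.2 i hi1 hi2 hi3]
      exact hpu i hi1 hi2 hi3
    · exact hff.comp (hγd.mono (ball_subset_ball (min_le_right _ _)))
        (fun t ht => (hγp t (ball_subset_ball (min_le_right _ _) ht)).1)
    · exact hD.comp (hγd.mono (ball_subset_ball (min_le_right _ _)))
        (fun t ht => (hγp t (ball_subset_ball (min_le_right _ _) ht)).1)
    · exact huf.comp (hγd.mono (ball_subset_ball (min_le_right _ _)))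
        (fun t ht => (hγp t (ball_subset_ball (min_le_right _ _) ht)).1)
    · exact ⟨⟨j, hF.hj⟩, hder⟩
    · intro r hr hrr η hη q hq
      have h2 : 2 * (c₀ / 2) = c₀ := by ring
      rw [h2]
      exact hloc r hr (hrr.trans_le (min_le_right _ _)) η hη q hq

end Run7.h598.TT
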