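import Mathlib
import Pool.Agent.Run7.h598.TT.Stage

/-!
The two kinds of stages: a critical point is made to escape, or it is made almost periodic (almost
mapped onto another critical point).
-/

set_option autoImplicit false

open Topology Filter Metric Set Polynomial MeasureTheory
open Pool.Agent.H713R3.ZA
open Pool.Agent.H713R5.QJ

namespace Run7.h598.TT

/-! ### Logarithms of products -/

theorem log_prod_eq {ι : Type} (S : Finset ι) (g : ι → ℂ) (h : ∏ q ∈ S, g q ≠ 0) :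
    Real.log ‖∏ q ∈ S, g q‖ = ∑ q ∈ S, Real.log ‖g q‖ := by
  rw [norm_prod, Real.log_prod]
  intro q hq
  exact norm_ne_zero_iff.mpr (Finset.prod_ne_zero_iff.mp h q hq)

theorem log_prod_ge {ι : Type} (S : Finset ι) (g : ι → ℂ) {s : ℝ} (hs : 0 < s)
    (h : ∀ q ∈ S, s ≤ ‖g q‖) : (S.card : ℝ) * Real.log s ≤ Real.log ‖∏ q ∈ S, g q‖ := by
  have h0 : ∏ q ∈ S, g q ≠ 0 := Finset.prod_ne_zero_iff.mpr fun q hq =>
    norm_pos_iff.mp (hs.trans_le (h q hq))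
  rw [log_prod_eq S g h0, ← nsmul_eq_mul, ← Finset.sum_const]
  exact Finset.sum_le_sum fun q hq => Real.log_le_log hs (h q hq)

theorem log_prod_le {ι : Type} (S : Finset ι) (g : ι → ℂ) {t : ℝ}
    (h : ∀ q ∈ S, ‖g q‖ ≤ t) (h0 : ∏ q ∈ S, g q ≠ 0) :
    Real.log ‖∏ q ∈ S, g q‖ ≤ (S.card : ℝ) * Real.log t := by
  rw [log_prod_eq S g h0, ← nsmul_eq_mul, ← Finset.sum_const]
  exact Finset.sum_le_sum fun q hq => Real.log_le_log
    (norm_pos_iff.mpr (Finset.prod_ne_zero_iff.mp h0 q hq)) (h q hq)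

theorem log_prod_near {ι : Type} (S : Finset ι) (g : ι → ℂ) {t Z : ℝ} (ht : 1 ≤ t)
    (h : ∀ q ∈ S, ‖g q‖ ≤ t) (h0 : ∏ q ∈ S, g q ≠ 0) {q₀ : ι} (hq₀ : q₀ ∈ S)
    (hg : ‖g q₀‖ ≤ Real.exp (-Z)) :
    Real.log ‖∏ q ∈ S, g q‖ ≤ -Z + (S.card : ℝ) * Real.log t := by
  classical
  have hlt : 0 ≤ Real.log t := Real.log_nonneg ht
  have hne : ∀ q ∈ S, 0 < ‖g q‖ := fun q hq => norm_pos_iff.mpr (Finset.prod_ne_zero_iff.mp h0 q hq)
  rw [log_prod_eq S g h0, ← Finset.add_sum_erase S _ hq₀]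
  have h1 : Real.log ‖g q₀‖ ≤ -Z := by
    have := Real.log_le_log (hne q₀ hq₀) hg
    rwa [Real.log_exp] at this
  have h2 : ∑ q ∈ S.erase q₀, Real.log ‖g q‖ ≤ ((S.erase q₀).card : ℝ) * Real.log t := by
    rw [← nsmul_eq_mul, ← Finset.sum_const]
    exact Finset.sum_le_sum fun q hq => Real.log_le_log (hne q (Finset.mem_of_mem_erase hq))
      (h q (Finset.mem_of_mem_erase hq))
  have h3 : ((S.erase q₀).card : ℝ) ≤ S.card := by exact_mod_cast Finset.card_erase_le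
  have h4 := mul_le_mul_of_nonneg_right h3 hlt
  linarith

/-! ### Definitions -/

/-- the product of the distances to the sinks -/
noncomputable def DD (a : ℂ) (n P : ℕ) (Es : Finset (Fin n)) (m : ℕ) (k : Fin n) (x : PE n) : ℂ :=
  ∏ q ∈ Es ×ˢ Finset.range P,
    ((fx a n x)^[m] (x (some k)) - (fx a n x)^[q.2] (SP (fx a n x) P (x (some q.1))))

/-- the functions which are controlled -/
noncomputable def uu (a : ℂ) (n : ℕ) (mm : Fin n → ℕ) (rr : Fin n → Option (Fin n)) (i : Fin n)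
    (x : PE n) : ℂ :=
  (fx a n x)^[mm i] (x (some i)) - (rr i).elim 0 (fun l => x (some l))

theorem uu_none {a : ℂ} {n : ℕ} {mm : Fin n → ℕ} {rr : Fin n → Option (Fin n)} {i : Fin n}
    (h : rr i = none) (x : PE n) : uu a n mm rr i x = (fx a n x)^[mm i] (x (some i)) := by
  unfold uu
  rw [h]
  simp

theorem uu_some {a : ℂ} {n : ℕ} {mm : Fin n → ℕ} {rr : Fin n → Option (Fin n)} {i r : Fin n}
    (h : rr i = some r) (x : PE n) :
    uu a n mm rr i x = (fx a n x)^[mm i] (x (some i)) - x (some r) := by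
  unfold uu
  rw [h]
  rfl

theorem uu_diff (a : ℂ) (n : ℕ) (mm : Fin n → ℕ) (rr : Fin n → Option (Fin n)) (i : Fin n) :
    Differentiable ℂ (uu a n mm rr i) := by
  rcases h : rr i with _ | r
  · have h1 : uu a n mm rr i = fun x => (fx a n x)^[mm i] (x (some i)) := funext fun x =>
      uu_none h x
    rw [h1]
    exact crit_diff a n (mm i) i
  · have h1 : uu a n mm rr i = fun x => (fx a n x)^[mm i] (x (some i)) - x (some r) :=
      funext fun x => uu_some h x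
    rw [h1]
    exact (crit_diff a n (mm i) i).sub (differentiable_apply _)

theorem DD_diff (H : HH) {a : ℂ} {n P : ℕ} (ha : a ≠ 0) (hn : 1 ≤ n) (hP : 0 < P)
    {Es : Finset (Fin n)} {Ω : Set (PE n)}
    (h : ∀ x ∈ Ω, ∀ i ∈ Es, AT (fx a n x) P (x (some i))) (m : ℕ) (k : Fin n) :
    DifferentiableOn ℂ (DD a n P Es m k) Ω := by
  classical
  obtain ⟨-, hSP, -⟩ := H.ko1 H.ko0 a n P ha hn hP
  unfold DD
  apply prod_diff
  rintro ⟨i, b⟩ hq
  have hi : i ∈ Es := (Finset.mem_product.mp hq).1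
  apply (crit_diff a n m k).differentiableOn.sub
  have h1 : DifferentiableOn ℂ (fun x : PE n => ((x, x (some i)) : PE n × ℂ)) Ω :=
    (differentiable_id.prodMk (differentiable_apply _)).differentiableOn
  have h2 : DifferentiableOn ℂ (fun x : PE n => SP (fx a n x) P (x (some i))) Ω := by
    have h3 := hSP
    revert h3
    generalize hG : (fun y : PE n × ℂ => SP (fx a n y.1) P y.2) = G
    intro h3
    have h4 : (fun x : PE n => SP (fx a n x) P (x (some i))) =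
        fun x => G ((fun x : PE n => ((x, x (some i)) : PE n × ℂ)) x) := by
      funext x; rw [← hG]
    rw [h4]
    exact h3.comp h1 (fun x hx => h x hx i hi)
  have h5 : DifferentiableOn ℂ (fun x : PE n => ((x, SP (fx a n x) P (x (some i))) : PE n × ℂ)) Ω :=
    differentiableOn_id.prodMk h2
  have h6 := (contDiff_fx a n b).differentiable (by norm_num)
  revert h6
  generalize hHe : (fun q : PE n × ℂ => (fx a n q.1)^[b] q.2) = G
  intro h6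
  have h7 : (fun x : PE n => (fx a n x)^[b] (SP (fx a n x) P (x (some i)))) =
      fun x => G ((fun x : PE n => ((x, SP (fx a n x) P (x (some i))) : PE n × ℂ)) x) := by
    funext x; rw [← hHe]
  show DifferentiableOn ℂ (fun x : PE n => (fx a n x)^[b] (SP (fx a n x) P (x (some i)))) Ω
  rw [h7]
  exact h6.comp_differentiableOn h5

/-- the critical point is bounded and away from the sinks at the time `m` -/
def NB (a : ℂ) (n P : ℕ) (Es : Finset (Fin n)) (Rh s : ℝ) (m : ℕ) (l : Fin n) (x : PE n) : Prop :=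
  ‖(fx a n x)^[m] (x (some l))‖ ≤ 3 * Rh ∧ ∀ i ∈ Es, ∀ b < P,
    s ≤ ‖(fx a n x)^[m] (x (some l)) - (fx a n x)^[b] (SP (fx a n x) P (x (some i)))‖

/-- estimates of orbits -/
structure Est (a : ℂ) (n P N : ℕ) (R₃ r' : ℝ) (Es Ee : Finset (Fin n)) (L₀ : Set (PE n))
    (Rh s Y Z : ℝ) (mm : Fin n → ℕ) (rr : Fin n → Option (Fin n)) : Prop where
  F1 : ∀ x ∈ L₀, ∀ i ∈ Es, ∀ b < P, ‖(fx a n x)^[b] (SP (fx a n x) P (x (some i)))‖ ≤ Rh
  F2 : ∀ x ∈ L₀, ∀ i : Fin n, ‖x (some i)‖ ≤ Rh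
  F3 : ∀ x ∈ L₀, ∀ l, l ∉ Es → l ∉ Ee → (∃ j ≤ N, R₃ ≤ ‖(fx a n x)^[j] (x (some l))‖) →
    Y + Rh < ‖(fx a n x)^[mm l] (x (some l))‖
  F4 : ∀ x ∈ L₀, ∀ l, l ∉ Es → l ∉ Ee → (∃ j ≤ N, ∃ i ∈ Es, ∃ b < P,
      ‖(fx a n x)^[j] (x (some l)) - (fx a n x)^[b] (SP (fx a n x) P (x (some i)))‖ ≤ r') →
    ∃ i ∈ Es, ∃ b < P, ‖(fx a n x)^[mm l] (x (some l)) -
      (fx a n x)^[b] (SP (fx a n x) P (x (some i)))‖ ≤ Real.exp (-Z)
  F5 : ∀ x ∈ L₀, ∀ l r, rr l = some r → ∀ i ∈ Es, ∀ b < P,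
    2 * s ≤ ‖x (some r) - (fx a n x)^[b] (SP (fx a n x) P (x (some i)))‖

/-- the numbers -/
structure Nums (Q : ℕ) (Rh s Y Z Λ G Cl : ℝ) : Prop where
  hRh : 1 ≤ Rh
  hs : 0 < s
  hs1 : s ≤ 1
  l0 : 0 ≤ Λ
  l1 : Real.log (4 * Rh) ≤ Λ
  l2 : Real.log 2 - Real.log s ≤ Λ
  hG : 0 ≤ G
  hZ0 : 0 < Z
  hZ : 8 * ((Q : ℝ) + 1) * Λ ≤ Z
  hZs : Real.exp (-Z) ≤ s / 2
  hY : 4 * Rh ≤ Y
  hYZ : Z ≤ Real.log Y
  hCl : 2 * ((Q : ℝ) + 1) * (4 * Λ + G) ≤ Cl * Z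

theorem NB_LB {a : ℂ} {n P N : ℕ} {R₃ r' : ℝ} {Es Ee : Finset (Fin n)} {L₀ : Set (PE n)}
    {Rh s Y Z : ℝ} {mm : Fin n → ℕ} {rr : Fin n → Option (Fin n)}
    (T : Est a n P N R₃ r' Es Ee L₀ Rh s Y Z mm rr) {Q : ℕ} {Λ G Cl : ℝ}
    (U : Nums Q Rh s Y Z Λ G Cl) {x : PE n} (hx : x ∈ L₀) {l : Fin n} (hl1 : l ∉ Es) (hl2 : l ∉ Ee)
    (h : NB a n P Es Rh s (mm l) l x) : LB a n P R₃ Es N r' x l := by
  intro j hj
  constructor
  · by_contra hcon
    have h1 := T.F3 x hx l hl1 hl2 ⟨j, hj, not_lt.mp hcon⟩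
    have := h.1
    have := U.hY
    have := U.hRh
    linarith
  · intro i hi b hb
    by_contra hcon
    obtain ⟨i', hi', b', hb', h1⟩ := T.F4 x hx l hl1 hl2 ⟨j, hj, i, hi, b, hb, not_lt.mp hcon⟩
    have h2 := h.2 i' hi' b' hb'
    have := U.hZs
    have := U.hs
    linarith

/-- if the critical point `k` comes close to the target region before the time `N` then it is
either very large or very close to a sink at the time `mm k` -/
theorem not_LB {a : ℂ} {n P N : ℕ} {R₃ r' : ℝ} {Es Ee : Finset (Fin n)} {L₀ : Set (PE n)}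
    {Rh s Y Z : ℝ} {mm : Fin n → ℕ} {rr : Fin n → Option (Fin n)}
    (T : Est a n P N R₃ r' Es Ee L₀ Rh s Y Z mm rr) {x : PE n} (hx : x ∈ L₀) {l : Fin n}
    (hl1 : l ∉ Es) (hl2 : l ∉ Ee) (h : ¬ LB a n P R₃ Es N r' x l) :
    Y + Rh < ‖(fx a n x)^[mm l] (x (some l))‖ ∨
    ∃ i ∈ Es, ∃ b < P, ‖(fx a n x)^[mm l] (x (some l)) -
      (fx a n x)^[b] (SP (fx a n x) P (x (some i)))‖ ≤ Real.exp (-Z) := by
  by_contra hcon
  apply h
  intro j hj
  constructor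
  · by_contra hcon2
    exact hcon (Or.inl (T.F3 x hx l hl1 hl2 ⟨j, hj, not_lt.mp hcon2⟩))
  · intro i hi b hb
    by_contra hcon2
    exact hcon (Or.inr (T.F4 x hx l hl1 hl2 ⟨j, hj, i, hi, b, hb, not_lt.mp hcon2⟩))

theorem DD_ne {a : ℂ} {n P : ℕ} {Es : Finset (Fin n)} {Rh s : ℝ} {m : ℕ} {k : Fin n} {x : PE n}
    (hs : 0 < s) (h : NB a n P Es Rh s m k x) : DD a n P Es m k x ≠ 0 := by
  unfold DD
  rw [Finset.prod_ne_zero_iff]
  rintro ⟨i, b⟩ hq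
  obtain ⟨hi, hb⟩ := Finset.mem_product.mp hq
  exact norm_pos_iff.mp (hs.trans_le (h.2 i hi b (Finset.mem_range.mp hb)))

theorem DD_ge {a : ℂ} {n P : ℕ} {Es : Finset (Fin n)} {Rh s : ℝ} {m : ℕ} {k : Fin n} {x : PE n}
    (hs : 0 < s) (h : NB a n P Es Rh s m k x) :
    ((Es ×ˢ Finset.range P).card : ℝ) * Real.log s ≤ Real.log ‖DD a n P Es m k x‖ := by
  unfold DD
  apply log_prod_ge _ _ hs
  rintro ⟨i, b⟩ hq
  obtain ⟨hi, hb⟩ := Finset.mem_product.mp hq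
  exact h.2 i hi b (Finset.mem_range.mp hb)

theorem DD_le {a : ℂ} {n P : ℕ} {Es : Finset (Fin n)} {t : ℝ} {m : ℕ} {k : Fin n} {x : PE n}
    (h : ∀ i ∈ Es, ∀ b < P,
      ‖(fx a n x)^[m] (x (some k)) - (fx a n x)^[b] (SP (fx a n x) P (x (some i)))‖ ≤ t)
    (h0 : DD a n P Es m k x ≠ 0) :
    Real.log ‖DD a n P Es m k x‖ ≤ ((Es ×ˢ Finset.range P).card : ℝ) * Real.log t := by
  unfold DD at h0 ⊢
  apply log_prod_le _ _ _ h0
  rintro ⟨i, b⟩ hq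
  obtain ⟨hi, hb⟩ := Finset.mem_product.mp hq
  exact h i hi b (Finset.mem_range.mp hb)

theorem DD_near {a : ℂ} {n P : ℕ} {Es : Finset (Fin n)} {t Z : ℝ} {m : ℕ} {k : Fin n} {x : PE n}
    (ht : 1 ≤ t) (h : ∀ i ∈ Es, ∀ b < P,
      ‖(fx a n x)^[m] (x (some k)) - (fx a n x)^[b] (SP (fx a n x) P (x (some i)))‖ ≤ t)
    (h0 : DD a n P Es m k x ≠ 0) (h1 : ∃ i ∈ Es, ∃ b < P, ‖(fx a n x)^[m] (x (some k)) -
      (fx a n x)^[b] (SP (fx a n x) P (x (some i)))‖ ≤ Real.exp (-Z)) :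
    Real.log ‖DD a n P Es m k x‖ ≤ -Z + ((Es ×ˢ Finset.range P).card : ℝ) * Real.log t := by
  obtain ⟨i, hi, b, hb, h2⟩ := h1
  unfold DD at h0 ⊢
  refine log_prod_near _ _ ht ?_ h0 (q₀ := (i, b))
    (Finset.mem_product.mpr ⟨hi, Finset.mem_range.mpr hb⟩) h2
  rintro ⟨i, b⟩ hq
  obtain ⟨hi, hb⟩ := Finset.mem_product.mp hq
  exact h i hi b (Finset.mem_range.mp hb)

end Run7.h598.TT
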