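import Mathlib
import Pool.Agent.Run7.h598.TT.Steps

/-!
The two kinds of stages, continued.
-/

set_option autoImplicit false

open Topology Filter Metric Set Polynomial MeasureTheory
open Pool.Agent.H713R3.ZA
open Pool.Agent.H713R5.QJ

namespace Run7.h598.TT

/-- Escape stage. -/
theorem esc_stage (H : HH) {a : ℂ} {n P M N : ℕ}
    {B R C₁ R₁ R₃ R₇ lam₀ lam₁ r₁ r₂ r' τ R₄ R₅ rg c₀ n₀ : ℝ} {v : ℂ} {ψ φ : PE n × ℂ → ℂ}
    {Es Ee : Finset (Fin n)} {rf : Fin n → Fin n} {ap : Fin n → ℕ} {xT : PE n}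
    {Ω L₀ : Set (PE n)}
    (E : Env a n P M N B R C₁ R₁ R₃ R₇ lam₀ lam₁ r₁ r₂ r' τ R₄ R₅ rg c₀ n₀ v ψ φ Es Ee rf ap xT Ω L₀)
    {Rh s Y Z : ℝ} {mm : Fin n → ℕ} {rr : Fin n → Option (Fin n)}
    (T : Est a n P N R₃ r' Es Ee L₀ Rh s Y Z mm rr) {Λ G Cl : ℝ}
    (U : Nums (Es ×ˢ Finset.range P).card Rh s Y Z Λ G Cl)
    {k : Fin n} (hk1 : k ∉ Es) (hk2 : k ∉ Ee) (hkr : rr k = none) {X : PE n → PE n}
    {j : ℕ} (hF : FF a n P M φ Es Ee rf ap (uu a n mm rr) Ω k X j)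
    {ff : PE n → ℂ} (hff : DifferentiableOn ℂ ff Ω) (hff1 : ∀ x ∈ L₀, ‖ff x‖ ≤ 1)
    (hfj : ∀ x ∈ Ω, ff x ≠ 0 → (∀ i ∈ Es, KP (fx a n x) P (x (some i)) ≠ 0) ∧
      fderiv ℂ (cf a n j) x (X x) ≠ 0)
    {δ V₀ θ : ℝ} (hδ : 0 < δ) (hθ : 0 < θ) {V : PE n → ℝ}
    (hV : ∀ x, V x = (volume (BN a n P R₃ R₇ φ Es rf r' τ N x)).toReal + c₀ / 2 * Dl a n xT x -
      δ * Real.log ‖ff x‖)
    {p₂ : PE n} (hp₂ : p₂ ∈ L₀) (hfp₂ : ff p₂ ≠ 0) (hVp₂ : V p₂ ≤ V₀)
    (hNB : ∀ l, l ∉ Es → l ∉ Ee → ∀ p ∈ L₀, uu a n mm rr l p = uu a n mm rr l p₂ →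
      NB a n P Es Rh s (mm l) l p)
    (hst : ‖uu a n mm rr k p₂‖ ≤ 2 * Rh)
    (hsmall : V₀ + Cl * (V₀ + θ) < c₀ / 2 * n₀) :
    ∃ p ∈ L₀, (∀ i, i ∉ Es → i ∉ Ee → i ≠ k → uu a n mm rr i p = uu a n mm rr i p₂) ∧
      ‖uu a n mm rr k p‖ = 2 * Rh ∧ ff p ≠ 0 ∧ V p ≤ V₀ + Cl * (V₀ + θ) := by
  classical
  have hc₀ := E.hc₀
  obtain ⟨hRh, hs, hs1, l0, l1, l2, hG, hZ0, hZ, hZs, hY, hYZ, hCl⟩ := U
  have U' : Nums (Es ×ˢ Finset.range P).card Rh s Y Z Λ G Cl :=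
    ⟨hRh, hs, hs1, l0, l1, l2, hG, hZ0, hZ, hZs, hY, hYZ, hCl⟩
  set Q : ℝ := ((Es ×ˢ Finset.range P).card : ℝ) with hQ
  have hQ0 : 0 ≤ Q := Nat.cast_nonneg _
  have hlog2 : 0 ≤ Real.log 2 := Real.log_nonneg (by norm_num)
  have hlogs : -Λ ≤ Real.log s := by linarith
  have hVge : ∀ x ∈ L₀, ff x ≠ 0 → c₀ / 2 * Dl a n xT x ≤ V x := by
    intro x hx hfx
    have h1 : Real.log ‖ff x‖ ≤ 0 := Real.log_nonpos (norm_nonneg _) (hff1 x hx)
    have h2 : 0 ≤ (volume (BN a n P R₃ R₇ φ Es rf r' τ N x)).toReal := ENNReal.toReal_nonneg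
    have h3 : δ * Real.log ‖ff x‖ ≤ 0 := mul_nonpos_of_nonneg_of_nonpos hδ.le h1
    rw [hV]
    linarith
  have hV0 : ∀ x ∈ L₀, ff x ≠ 0 → 0 ≤ V x := fun x hx hfx =>
    (mul_nonneg (by positivity) (Dl_nonneg a n xT x)).trans (hVge x hx hfx)
  have hV₀ : 0 ≤ V₀ := (hV0 p₂ hp₂ hfp₂).trans hVp₂
  set κ : ℝ := 2 * (V₀ + θ) / Z with hκ
  have hκ0 : 0 < κ := by positivity
  have hκZ : κ * Z = 2 * (V₀ + θ) := by rw [hκ]; field_simp
  -- the loss
  have hloss : κ * ((Q + 1) * (4 * Λ + G)) ≤ Cl * (V₀ + θ) := by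
    have h1 : κ * ((Q + 1) * (4 * Λ + G)) = (V₀ + θ) / Z * (2 * (Q + 1) * (4 * Λ + G)) := by
      rw [hκ]; ring
    rw [h1]
    calc (V₀ + θ) / Z * (2 * (Q + 1) * (4 * Λ + G)) ≤ (V₀ + θ) / Z * (Cl * Z) :=
          mul_le_mul_of_nonneg_left hCl (by positivity)
      _ = Cl * (V₀ + θ) := by field_simp
  have hbud : V₀ < κ * (Z - 4 * (Q + 1) * Λ) := by
    have h1 : κ * (8 * (Q + 1) * Λ) ≤ κ * Z := mul_le_mul_of_nonneg_left hZ hκ0.le
    have h2 : κ * (Z - 4 * (Q + 1) * Λ) = κ * Z - κ * (8 * (Q + 1) * Λ) / 2 := by ring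
    rw [h2, hκZ]
    rw [hκZ] at h1
    linarith
  have hNBk := hNB k hk1 hk2 p₂ hp₂ rfl
  set D : PE n → ℂ := DD a n P Es (mm k) k with hD
  have hDp₂ : D p₂ ≠ 0 := DD_ne hs hNBk
  have hDge : -(Q * Λ) ≤ Real.log ‖D p₂‖ := by
    have h1 := DD_ge hs hNBk
    have h2 : Q * (-Λ) ≤ Q * Real.log s := mul_le_mul_of_nonneg_left hlogs hQ0
    linarith
  have hDd : DifferentiableOn ℂ D Ω := DD_diff H E.ha E.hn E.hP
    (fun x hx i hi => ((E.hΩO hx).2.1 i hi).1) (mm k) k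
  set W : PE n → ℝ := fun x => (volume (BN a n P R₃ R₇ φ Es rf r' τ N x)).toReal +
    c₀ / 2 * Dl a n xT x - δ * Real.log ‖ff x‖ - κ * Real.log ‖D x‖ +
      0 * Real.log ‖(1 : ℂ)‖ with hW
  have hWV : ∀ x, W x = V x - κ * Real.log ‖D x‖ := by
    intro x
    rw [hV]
    simp only [hW]
    ring
  have hukp : ∀ x, uu a n mm rr k x = (fx a n x)^[mm k] (x (some k)) := uu_none hkr
  -- bound of the functional at the starting point
  have hWp₂ : W p₂ ≤ V₀ + κ * (Q * Λ) := by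
    rw [hWV]
    have := mul_le_mul_of_nonneg_left hDge hκ0.le
    linarith
  -- upper bound of the logarithm
  have hDle : ∀ p ∈ L₀, ‖uu a n mm rr k p‖ ≤ 2 * Rh → D p ≠ 0 → Real.log ‖D p‖ ≤ Q * Λ := by
    intro p hp hup hDp
    have h1 := DD_le (t := 4 * Rh) (fun i hi b hb => ?_) hDp
    · refine h1.trans (mul_le_mul_of_nonneg_left l1 hQ0)
    · refine (norm_sub_le _ _).trans ?_
      rw [← hukp]
      have := T.F1 p hp i hi b hb
      linarith
  obtain ⟨p, hp, hpu, -, hp2, hfp, hDp, hWp, hQp⟩ := stage H E (uu_diff a n mm rr) hF hff hDd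
    (differentiableOn_const (1 : ℂ)) hfj hδ hκ0 (W := W) (fun x => rfl)
    hp₂ hfp₂ hDp₂ (ra := -1) (rb := 2 * Rh) (by have := norm_nonneg (uu a n mm rr k p₂); linarith)
    hst (fun _ _ _ => one_ne_zero)
    (by
      intro p hp _ _ hp2 hfp hDp hWp
      have h1 := hVge p hp hfp
      have h2 : V p ≤ V₀ + κ * (Q * Λ) + κ * Real.log ‖D p‖ := by
        have := hWV p
        linarith
      have h3 := mul_le_mul_of_nonneg_left (hDle p hp hp2 hDp) hκ0.le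
      have h4 : κ * (Q * Λ) + κ * (Q * Λ) ≤ κ * ((Q + 1) * (4 * Λ + G)) := by
        rw [← mul_add]
        apply mul_le_mul_of_nonneg_left _ hκ0.le
        nlinarith [mul_nonneg hQ0 l0, mul_nonneg hQ0 hG]
      have h5 : c₀ / 2 * Dl a n xT p < c₀ / 2 * n₀ := by linarith
      exact lt_of_mul_lt_mul_left h5 (by positivity))
    (by
      intro p hp hpu _ hp2 hfp hDp hWp l hl1 hl2
      by_cases hlk : l = k
      · subst hlk
        by_contra hcon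
        rcases not_LB T hp hl1 hl2 hcon with h1 | h1
        · rw [← hukp] at h1
          linarith
        · have h2 : ‖(fx a n p)^[mm l] (p (some l))‖ ≤ 2 * Rh := by
            rw [← hukp]; exact hp2.le
          have h3 := DD_near (t := 4 * Rh) (by linarith) (fun i hi b hb => ?_) hDp h1
          · have h4 := mul_le_mul_of_nonneg_left l1 hQ0
            have h5 : Real.log ‖D p‖ ≤ -Z + Q * Λ := h3.trans (by linarith)
            have h6 := mul_le_mul_of_nonneg_left h5 hκ0.le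
            have h7 := hV0 p hp hfp
            have h8 := hWV p
            have h9 : κ * (Z - 4 * (Q + 1) * Λ) ≤ κ * (Z - Q * Λ - Q * Λ) := by
              apply mul_le_mul_of_nonneg_left _ hκ0.le
              nlinarith [mul_nonneg hQ0 l0]
            nlinarith
          · refine (norm_sub_le _ _).trans ?_
            have := T.F1 p hp i hi b hb
            linarith
      · exact NB_LB T U' hp hl1 hl2 (hNB l hl1 hl2 p hp (hpu l hl1 hl2 hlk)))
  refine ⟨p, hp, hpu, ?_, hfp, ?_⟩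
  · rcases hQp with h1 | h1
    · have := norm_nonneg (uu a n mm rr k p)
      linarith
    · exact h1
  · have h2 : V p ≤ V₀ + κ * (Q * Λ) + κ * Real.log ‖D p‖ := by
      have := hWV p
      linarith
    have h3 := mul_le_mul_of_nonneg_left (hDle p hp hp2 hDp) hκ0.le
    have h4 : κ * (Q * Λ) + κ * (Q * Λ) ≤ κ * ((Q + 1) * (4 * Λ + G)) := by
      rw [← mul_add]
      apply mul_le_mul_of_nonneg_left _ hκ0.le
      nlinarith [mul_nonneg hQ0 l0, mul_nonneg hQ0 hG]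
    linarith

/-- Sink stage. -/
theorem snk_stage (H : HH) {a : ℂ} {n P M N : ℕ}
    {B R C₁ R₁ R₃ R₇ lam₀ lam₁ r₁ r₂ r' τ R₄ R₅ rg c₀ n₀ : ℝ} {v : ℂ} {ψ φ : PE n × ℂ → ℂ}
    {Es Ee : Finset (Fin n)} {rf : Fin n → Fin n} {ap : Fin n → ℕ} {xT : PE n}
    {Ω L₀ : Set (PE n)}
    (E : Env a n P M N B R C₁ R₁ R₃ R₇ lam₀ lam₁ r₁ r₂ r' τ R₄ R₅ rg c₀ n₀ v ψ φ Es Ee rf ap xT Ω L₀)
    {Rh s Y Z : ℝ} {mm : Fin n → ℕ} {rr : Fin n → Option (Fin n)}
    (T : Est a n P N R₃ r' Es Ee L₀ Rh s Y Z mm rr) {Λ G Cl : ℝ}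
    (U : Nums (Es ×ˢ Finset.range P).card Rh s Y Z Λ G Cl)
    {k r : Fin n} (hk1 : k ∉ Es) (hk2 : k ∉ Ee) (hkr : rr k = some r) {X : PE n → PE n}
    {j : ℕ} (hF : FF a n P M φ Es Ee rf ap (uu a n mm rr) Ω k X j)
    {ff : PE n → ℂ} (hff : DifferentiableOn ℂ ff Ω) (hff1 : ∀ x ∈ L₀, ‖ff x‖ ≤ 1)
    (hfj : ∀ x ∈ Ω, ff x ≠ 0 → (∀ i ∈ Es, KP (fx a n x) P (x (some i)) ≠ 0) ∧
      fderiv ℂ (cf a n j) x (X x) ≠ 0)
    {δ V₀ θ : ℝ} (hδ : 0 < δ) (hθ : 0 < θ) {V : PE n → ℝ}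
    (hV : ∀ x, V x = (volume (BN a n P R₃ R₇ φ Es rf r' τ N x)).toReal + c₀ / 2 * Dl a n xT x -
      δ * Real.log ‖ff x‖)
    {p₂ : PE n} (hp₂ : p₂ ∈ L₀) (hfp₂ : ff p₂ ≠ 0) (hVp₂ : V p₂ ≤ V₀)
    (hNB : ∀ l, l ∉ Es → l ∉ Ee → ∀ p ∈ L₀, uu a n mm rr l p = uu a n mm rr l p₂ →
      NB a n P Es Rh s (mm l) l p)
    (hsmall : V₀ + Cl * (V₀ + θ) < c₀ / 2 * n₀) {ra : ℝ} (hra0 : 0 < ra) (hra1 : ra ≤ 1)
    (hraG : -Real.log ra ≤ G) :
    ∃ p ∈ L₀, (∀ i, i ∉ Es → i ∉ Ee → i ≠ k → uu a n mm rr i p = uu a n mm rr i p₂) ∧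
      ‖uu a n mm rr k p‖ ≤ ra ∧ ff p ≠ 0 ∧ V p ≤ V₀ + Cl * (V₀ + θ) := by
  classical
  have hc₀ := E.hc₀
  obtain ⟨hRh, hs, hs1, l0, l1, l2, hG, hZ0, hZ, hZs, hY, hYZ, hCl⟩ := U
  have U' : Nums (Es ×ˢ Finset.range P).card Rh s Y Z Λ G Cl :=
    ⟨hRh, hs, hs1, l0, l1, l2, hG, hZ0, hZ, hZs, hY, hYZ, hCl⟩
  set Q : ℝ := ((Es ×ˢ Finset.range P).card : ℝ) with hQ
  have hQ0 : 0 ≤ Q := Nat.cast_nonneg _
  have hQ1 : 0 ≤ Q + 1 := by linarith
  have hlog2 : 0 ≤ Real.log 2 := Real.log_nonneg (by norm_num)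
  have hlogs : -Λ ≤ Real.log s := by linarith
  have hVge : ∀ x ∈ L₀, ff x ≠ 0 → c₀ / 2 * Dl a n xT x ≤ V x := by
    intro x hx hfx
    have h1 : Real.log ‖ff x‖ ≤ 0 := Real.log_nonpos (norm_nonneg _) (hff1 x hx)
    have h2 : 0 ≤ (volume (BN a n P R₃ R₇ φ Es rf r' τ N x)).toReal := ENNReal.toReal_nonneg
    have h3 : δ * Real.log ‖ff x‖ ≤ 0 := mul_nonpos_of_nonneg_of_nonpos hδ.le h1
    rw [hV]
    linarith
  have hV0 : ∀ x ∈ L₀, ff x ≠ 0 → 0 ≤ V x := fun x hx hfx =>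
    (mul_nonneg (by positivity) (Dl_nonneg a n xT x)).trans (hVge x hx hfx)
  have hV₀ : 0 ≤ V₀ := (hV0 p₂ hp₂ hfp₂).trans hVp₂
  set κ : ℝ := 2 * (V₀ + θ) / Z with hκ
  have hκ0 : 0 < κ := by positivity
  have hκZ : κ * Z = 2 * (V₀ + θ) := by rw [hκ]; field_simp
  -- the loss
  have hloss : κ * ((Q + 1) * (4 * Λ + G)) ≤ Cl * (V₀ + θ) := by
    have h1 : κ * ((Q + 1) * (4 * Λ + G)) = (V₀ + θ) / Z * (2 * (Q + 1) * (4 * Λ + G)) := by
      rw [hκ]; ring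
    rw [h1]
    calc (V₀ + θ) / Z * (2 * (Q + 1) * (4 * Λ + G)) ≤ (V₀ + θ) / Z * (Cl * Z) :=
          mul_le_mul_of_nonneg_left hCl (by positivity)
      _ = Cl * (V₀ + θ) := by field_simp
  have hloss0 : 0 ≤ κ * ((Q + 1) * (4 * Λ + G)) :=
    mul_nonneg hκ0.le (mul_nonneg hQ1 (by linarith))
  have hbud : V₀ < κ * (Z - 4 * (Q + 1) * Λ) := by
    have h1 : κ * (8 * (Q + 1) * Λ) ≤ κ * Z := mul_le_mul_of_nonneg_left hZ hκ0.le
    have h2 : κ * (Z - 4 * (Q + 1) * Λ) = κ * Z - κ * (8 * (Q + 1) * Λ) / 2 := by ring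
    rw [h2, hκZ]
    rw [hκZ] at h1
    linarith
  -- the trivial case
  rcases le_or_gt ‖uu a n mm rr k p₂‖ ra with htriv | hbig
  · exact ⟨p₂, hp₂, fun i _ _ _ => rfl, htriv, hfp₂, by linarith⟩
  have hNBk := hNB k hk1 hk2 p₂ hp₂ rfl
  set D : PE n → ℂ := DD a n P Es (mm k) k with hD
  have hDp₂ : D p₂ ≠ 0 := DD_ne hs hNBk
  have hDge : -(Q * Λ) ≤ Real.log ‖D p₂‖ := by
    have h1 := DD_ge hs hNBk
    have h2 : Q * (-Λ) ≤ Q * Real.log s := mul_le_mul_of_nonneg_left hlogs hQ0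
    linarith
  have hDd : DifferentiableOn ℂ D Ω := DD_diff H E.ha E.hn E.hP
    (fun x hx i hi => ((E.hΩO hx).2.1 i hi).1) (mm k) k
  have hukp : ∀ x, uu a n mm rr k x = (fx a n x)^[mm k] (x (some k)) - x (some r) := uu_some hkr
  have hfu : ∀ x, (fx a n x)^[mm k] (x (some k)) = uu a n mm rr k x + x (some r) := fun x => by
    rw [hukp]; ring
  set W : PE n → ℝ := fun x => (volume (BN a n P R₃ R₇ φ Es rf r' τ N x)).toReal +
    c₀ / 2 * Dl a n xT x - δ * Real.log ‖ff x‖ - κ * Real.log ‖D x‖ +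
      (κ * (Q + 1)) * Real.log ‖uu a n mm rr k x‖ with hW
  have hWV : ∀ x, W x = V x - κ * Real.log ‖D x‖ + κ * ((Q + 1) * Real.log ‖uu a n mm rr k x‖) := by
    intro x
    rw [hV]
    simp only [hW]
    ring
  -- bound of the functional at the starting point
  have hu₂ : ‖uu a n mm rr k p₂‖ ≤ 4 * Rh := by
    rw [hukp]
    refine (norm_sub_le _ _).trans ?_
    have := hNBk.1
    have := T.F2 p₂ hp₂ r
    linarith
  have hlu₂ : Real.log ‖uu a n mm rr k p₂‖ ≤ Λ :=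
    (Real.log_le_log (hra0.trans hbig) hu₂).trans l1
  have hWp₂ : W p₂ ≤ V₀ + κ * (2 * (Q + 1) * Λ) := by
    rw [hWV]
    have h1 := mul_le_mul_of_nonneg_left hDge hκ0.le
    have h2 : κ * ((Q + 1) * Real.log ‖uu a n mm rr k p₂‖) ≤ κ * ((Q + 1) * Λ) := by
      apply mul_le_mul_of_nonneg_left _ hκ0.le
      exact mul_le_mul_of_nonneg_left hlu₂ hQ1
    have h3 : κ * (Q * Λ) + κ * ((Q + 1) * Λ) ≤ κ * (2 * (Q + 1) * Λ) := by
      rw [← mul_add]
      apply mul_le_mul_of_nonneg_left _ hκ0.le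
      nlinarith
    linarith
  -- upper bound of the logarithms
  have hbigw : ∀ p ∈ L₀, 1 ≤ ‖uu a n mm rr k p‖ → D p ≠ 0 →
      Real.log ‖D p‖ - (Q + 1) * Real.log ‖uu a n mm rr k p‖ ≤
        Q * Λ - Real.log ‖uu a n mm rr k p‖ := by
    intro p hp hup hDp
    have hlw : 0 ≤ Real.log ‖uu a n mm rr k p‖ := Real.log_nonneg hup
    have h1 := DD_le (t := 4 * Rh * ‖uu a n mm rr k p‖) (fun i hi b hb => ?_) hDp
    · rw [Real.log_mul (by positivity) (by positivity)] at h1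
      have h2 : Q * (Real.log (4 * Rh) + Real.log ‖uu a n mm rr k p‖) ≤
          Q * (Λ + Real.log ‖uu a n mm rr k p‖) :=
        mul_le_mul_of_nonneg_left (by linarith) hQ0
      have h3 : Real.log ‖D p‖ ≤ Q * (Λ + Real.log ‖uu a n mm rr k p‖) := h1.trans h2
      linarith
    · rw [hfu]
      refine (norm_sub_le _ _).trans ?_
      have h2 := norm_add_le (uu a n mm rr k p) (p (some r))
      have h3 := T.F1 p hp i hi b hb
      have h4 := T.F2 p hp r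
      nlinarith
  have hsmw : ∀ p ∈ L₀, ‖uu a n mm rr k p‖ ≤ 1 → D p ≠ 0 → Real.log ‖D p‖ ≤ Q * Λ := by
    intro p hp hup hDp
    have h1 := DD_le (t := 4 * Rh) (fun i hi b hb => ?_) hDp
    · exact h1.trans (mul_le_mul_of_nonneg_left l1 hQ0)
    · rw [hfu]
      refine (norm_sub_le _ _).trans ?_
      have h2 := norm_add_le (uu a n mm rr k p) (p (some r))
      have h3 := T.F1 p hp i hi b hb
      have h4 := T.F2 p hp r
      linarith
  have hany : ∀ p ∈ L₀, ra ≤ ‖uu a n mm rr k p‖ → D p ≠ 0 →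
      Real.log ‖D p‖ - (Q + 1) * Real.log ‖uu a n mm rr k p‖ ≤ Q * Λ + (Q + 1) * G := by
    intro p hp hup hDp
    have hG' : 0 ≤ (Q + 1) * G := mul_nonneg hQ1 hG
    rcases le_total 1 ‖uu a n mm rr k p‖ with h1 | h1
    · have h2 := hbigw p hp h1 hDp
      have h3 : 0 ≤ Real.log ‖uu a n mm rr k p‖ := Real.log_nonneg h1
      linarith
    · have h2 := hsmw p hp h1 hDp
      have h3 : -G ≤ Real.log ‖uu a n mm rr k p‖ := by
        have := Real.log_le_log hra0 hup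
        linarith
      have h4 : (Q + 1) * (-G) ≤ (Q + 1) * Real.log ‖uu a n mm rr k p‖ :=
        mul_le_mul_of_nonneg_left h3 hQ1
      linarith
  have hVp : ∀ p ∈ L₀, ra ≤ ‖uu a n mm rr k p‖ → D p ≠ 0 → W p ≤ W p₂ →
      V p ≤ V₀ + Cl * (V₀ + θ) := by
    intro p hp hup hDp hWp
    have h1 := hWV p
    have h2 := mul_le_mul_of_nonneg_left (hany p hp hup hDp) hκ0.le
    have h3 : κ * (2 * (Q + 1) * Λ) + κ * (Q * Λ + (Q + 1) * G) ≤
        κ * ((Q + 1) * (4 * Λ + G)) := by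
      rw [← mul_add]
      apply mul_le_mul_of_nonneg_left _ hκ0.le
      nlinarith [mul_nonneg hQ0 l0]
    have h4 : κ * (Real.log ‖D p‖ - (Q + 1) * Real.log ‖uu a n mm rr k p‖) =
      κ * Real.log ‖D p‖ - κ * ((Q + 1) * Real.log ‖uu a n mm rr k p‖) := by ring
    linarith
  have hrb : ‖uu a n mm rr k p₂‖ ≤ Y := hu₂.trans hY
  obtain ⟨p, hp, hpu, hp1, hp2, hfp, hDp, hWp, hQp⟩ := stage H E (uu_diff a n mm rr) hF hff hDd
    (uu_diff a n mm rr k).differentiableOn hfj hδ hκ0 (W := W) (fun x => rfl)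
    hp₂ hfp₂ hDp₂ (ra := ra) (rb := Y) hbig.le hrb
    (fun x _ hx => norm_pos_iff.mp (hra0.trans_le hx))
    (by
      intro p hp _ hp1 hp2 hfp hDp hWp
      have h1 := hVge p hp hfp
      have h2 := hVp p hp hp1 hDp hWp
      have h5 : c₀ / 2 * Dl a n xT p < c₀ / 2 * n₀ := by linarith
      exact lt_of_mul_lt_mul_left h5 (by positivity))
    (by
      intro p hp hpu hp1 hp2 hfp hDp hWp l hl1 hl2
      by_cases hlk : l = k
      · subst hlk
        by_contra hcon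
        rcases not_LB T hp hl1 hl2 hcon with h1 | h1
        · rw [hfu] at h1
          have h2 := norm_add_le (uu a n mm rr l p) (p (some r))
          have h4 := T.F2 p hp r
          linarith
        · obtain ⟨i₀, hi₀, b₀, hb₀, hnear⟩ := h1
          have h2 : ‖(fx a n p)^[mm l] (p (some l))‖ ≤ 2 * Rh := by
            have h3 := T.F1 p hp i₀ hi₀ b₀ hb₀
            have h4 := norm_add_le ((fx a n p)^[mm l] (p (some l)) -
              (fx a n p)^[b₀] (SP (fx a n p) P (p (some i₀))))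
              ((fx a n p)^[b₀] (SP (fx a n p) P (p (some i₀))))
            rw [sub_add_cancel] at h4
            linarith
          have h2' : s / 2 ≤ ‖uu a n mm rr l p‖ := by
            have h3 := T.F5 p hp l r hkr i₀ hi₀ b₀ hb₀
            have h4 : p (some r) - (fx a n p)^[b₀] (SP (fx a n p) P (p (some i₀))) =
              ((fx a n p)^[mm l] (p (some l)) -
                (fx a n p)^[b₀] (SP (fx a n p) P (p (some i₀)))) - uu a n mm rr l p := by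
              rw [hukp]; ring
            rw [h4] at h3
            have h5 := norm_sub_le ((fx a n p)^[mm l] (p (some l)) -
                (fx a n p)^[b₀] (SP (fx a n p) P (p (some i₀)))) (uu a n mm rr l p)
            linarith
          have hlu : -Λ ≤ Real.log ‖uu a n mm rr l p‖ := by
            have h3 := Real.log_le_log (by positivity) h2'
            rw [Real.log_div hs.ne' (by norm_num)] at h3
            linarith
          have h3 := DD_near (t := 4 * Rh) (by linarith) (fun i hi b hb => ?_) hDp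
            ⟨i₀, hi₀, b₀, hb₀, hnear⟩
          · have h4 := mul_le_mul_of_nonneg_left l1 hQ0
            have h5 : Real.log ‖D p‖ ≤ -Z + Q * Λ := h3.trans (by linarith)
            have h5' : (Q + 1) * (-Λ) ≤ (Q + 1) * Real.log ‖uu a n mm rr l p‖ :=
              mul_le_mul_of_nonneg_left hlu hQ1
            have h6 : κ * (Z - Q * Λ - (Q + 1) * Λ) ≤
                κ * (-Real.log ‖D p‖ + (Q + 1) * Real.log ‖uu a n mm rr l p‖) := by
              apply mul_le_mul_of_nonneg_left _ hκ0.le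
              linarith
            have h7 := hV0 p hp hfp
            have h8 := hWV p
            have h9 : κ * (Z - 4 * (Q + 1) * Λ) + κ * (2 * (Q + 1) * Λ) ≤
                κ * (Z - Q * Λ - (Q + 1) * Λ) := by
              rw [← mul_add]
              apply mul_le_mul_of_nonneg_left _ hκ0.le
              nlinarith [mul_nonneg hQ0 l0]
            have h10 : κ * (-Real.log ‖D p‖ + (Q + 1) * Real.log ‖uu a n mm rr l p‖) =
              -(κ * Real.log ‖D p‖) + κ * ((Q + 1) * Real.log ‖uu a n mm rr l p‖) := by ring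
            linarith
          · refine (norm_sub_le _ _).trans ?_
            have := T.F1 p hp i hi b hb
            linarith
      · exact NB_LB T U' hp hl1 hl2 (hNB l hl1 hl2 p hp (hpu l hl1 hl2 hlk)))
  refine ⟨p, hp, hpu, ?_, hfp, hVp p hp hp1 hDp hWp⟩
  rcases hQp with h1 | h1
  · exact h1.le
  · exfalso
    have hw1 : 1 ≤ ‖uu a n mm rr k p‖ := by rw [h1]; linarith
    have h2 := hbigw p hp hw1 hDp
    have h3 : Z ≤ Real.log ‖uu a n mm rr k p‖ := by rw [h1]; exact hYZ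
    have h6 : κ * (Z - Q * Λ) ≤
        κ * (-Real.log ‖D p‖ + (Q + 1) * Real.log ‖uu a n mm rr k p‖) := by
      apply mul_le_mul_of_nonneg_left _ hκ0.le
      linarith
    have h7 := hV0 p hp hfp
    have h8 := hWV p
    have h9 : κ * (Z - 4 * (Q + 1) * Λ) + κ * (2 * (Q + 1) * Λ) ≤ κ * (Z - Q * Λ) := by
      rw [← mul_add]
      apply mul_le_mul_of_nonneg_left _ hκ0.le
      nlinarith [mul_nonneg hQ0 l0]
    have h10 : κ * (-Real.log ‖D p‖ + (Q + 1) * Real.log ‖uu a n mm rr k p‖) =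
      -(κ * Real.log ‖D p‖) + κ * ((Q + 1) * Real.log ‖uu a n mm rr k p‖) := by ring
    linarith

end Run7.h598.TT
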