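import Mathlib
import Pool.Agent.Run7.h598.TT.Steps2

/-!
The iteration over the critical points which are not good.
-/

set_option autoImplicit false

open Topology Filter Metric Set Polynomial MeasureTheory
open Pool.Agent.H713R3.ZA
open Pool.Agent.H713R5.QJ

namespace Run7.h598.TT

theorem NB_esc {a : ℂ} {n P N : ℕ} {R₃ r' : ℝ} {Es Ee : Finset (Fin n)} {L₀ : Set (PE n)}
    {Rh s Y Z : ℝ} {mm : Fin n → ℕ} {rr : Fin n → Option (Fin n)}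
    (T : Est a n P N R₃ r' Es Ee L₀ Rh s Y Z mm rr) {Q : ℕ} {Λ G Cl : ℝ}
    (U : Nums Q Rh s Y Z Λ G Cl) {x : PE n} (hx : x ∈ L₀) {l : Fin n} (hl : rr l = none)
    (h : ‖uu a n mm rr l x‖ = 2 * Rh) : NB a n P Es Rh s (mm l) l x := by
  rw [uu_none hl] at h
  have h1 := U.hRh
  have h2 := U.hs1
  refine ⟨by linarith, fun i hi b hb => ?_⟩
  have h3 := T.F1 x hx i hi b hb
  have h4 := norm_sub_norm_le ((fx a n x)^[mm l] (x (some l)))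
    ((fx a n x)^[b] (SP (fx a n x) P (x (some i))))
  linarith

theorem NB_snk {a : ℂ} {n P N : ℕ} {R₃ r' : ℝ} {Es Ee : Finset (Fin n)} {L₀ : Set (PE n)}
    {Rh s Y Z : ℝ} {mm : Fin n → ℕ} {rr : Fin n → Option (Fin n)}
    (T : Est a n P N R₃ r' Es Ee L₀ Rh s Y Z mm rr) {Q : ℕ} {Λ G Cl : ℝ}
    (U : Nums Q Rh s Y Z Λ G Cl) {x : PE n} (hx : x ∈ L₀) {l r : Fin n} (hl : rr l = some r)
    (h : ‖uu a n mm rr l x‖ ≤ s) : NB a n P Es Rh s (mm l) l x := by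
  have h1 := U.hRh
  have h2 := U.hs1
  have h0 : (fx a n x)^[mm l] (x (some l)) = uu a n mm rr l x + x (some r) := by
    rw [uu_some hl]; ring
  constructor
  · rw [h0]
    have h3 := norm_add_le (uu a n mm rr l x) (x (some r))
    have h4 := T.F2 x hx r
    linarith
  · intro i hi b hb
    have h3 := T.F5 x hx l r hl i hi b hb
    have h4 : x (some r) - (fx a n x)^[b] (SP (fx a n x) P (x (some i))) =
      ((fx a n x)^[mm l] (x (some l)) - (fx a n x)^[b] (SP (fx a n x) P (x (some i)))) -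
        uu a n mm rr l x := by rw [h0]; ring
    rw [h4] at h3
    have h5 := norm_sub_le ((fx a n x)^[mm l] (x (some l)) -
      (fx a n x)^[b] (SP (fx a n x) P (x (some i)))) (uu a n mm rr l x)
    linarith

theorem iter (H : HH) {a : ℂ} {n P M N : ℕ}
    {B R C₁ R₁ R₃ R₇ lam₀ lam₁ r₁ r₂ r' τ R₄ R₅ rg c₀ n₀ : ℝ} {v : ℂ} {ψ φ : PE n × ℂ → ℂ}
    {Es Ee : Finset (Fin n)} {rf : Fin n → Fin n} {ap : Fin n → ℕ} {xT : PE n}
    {Ω L₀ : Set (PE n)}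
    (E : Env a n P M N B R C₁ R₁ R₃ R₇ lam₀ lam₁ r₁ r₂ r' τ R₄ R₅ rg c₀ n₀ v ψ φ Es Ee rf ap xT Ω L₀)
    {Rh s Y Z : ℝ} {mm : Fin n → ℕ} {rr : Fin n → Option (Fin n)}
    (T : Est a n P N R₃ r' Es Ee L₀ Rh s Y Z mm rr) {Λ G Cl : ℝ}
    (U : Nums (Es ×ˢ Finset.range P).card Rh s Y Z Λ G Cl) (hCl0 : 0 ≤ Cl)
    {X : Fin n → PE n → PE n} {jj : Fin n → ℕ}
    (hF : ∀ k, k ∉ Es → k ∉ Ee → FF a n P M φ Es Ee rf ap (uu a n mm rr) Ω k (X k) (jj k))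
    {ff : PE n → ℂ} (hff : DifferentiableOn ℂ ff Ω) (hff1 : ∀ x ∈ L₀, ‖ff x‖ ≤ 1)
    (hfj : ∀ k, k ∉ Es → k ∉ Ee → ∀ x ∈ Ω, ff x ≠ 0 →
      (∀ i ∈ Es, KP (fx a n x) P (x (some i)) ≠ 0) ∧ fderiv ℂ (cf a n (jj k)) x (X k x) ≠ 0)
    {δ θ : ℝ} (hδ : 0 < δ) (hθ : 0 < θ) {V : PE n → ℝ}
    (hV : ∀ x, V x = (volume (BN a n P R₃ R₇ φ Es rf r' τ N x)).toReal + c₀ / 2 * Dl a n xT x -
      δ * Real.log ‖ff x‖)
    {x₂ : PE n} (hx₂ : x₂ ∈ L₀) (hfx₂ : ff x₂ ≠ 0) (hVx₂ : V x₂ ≤ θ)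
    (hNB : ∀ l, l ∉ Es → l ∉ Ee → ∀ p ∈ L₀, uu a n mm rr l p = uu a n mm rr l x₂ →
      NB a n P Es Rh s (mm l) l p)
    (hst : ∀ l, l ∉ Es → l ∉ Ee → rr l = none → ‖uu a n mm rr l x₂‖ ≤ 2 * Rh)
    {ra : ℝ} (hra0 : 0 < ra) (hra1 : ra ≤ s)
    (hraG : -Real.log ra ≤ G) (hsmall : (Cl + 1) ^ n * (2 * θ) ≤ c₀ / 2 * n₀) :
    ∀ S : Finset (Fin n), (∀ l ∈ S, l ∉ Es ∧ l ∉ Ee) →
    ∃ p ∈ L₀, ff p ≠ 0 ∧ V p + θ ≤ (Cl + 1) ^ S.card * (2 * θ) ∧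
      (∀ l, l ∉ Es → l ∉ Ee → l ∉ S → uu a n mm rr l p = uu a n mm rr l x₂) ∧
      ∀ l ∈ S, (rr l = none → ‖uu a n mm rr l p‖ = 2 * Rh) ∧
        ∀ r, rr l = some r → ‖uu a n mm rr l p‖ ≤ ra := by
  classical
  intro S
  induction S using Finset.induction_on with
  | empty =>
    intro _
    refine ⟨x₂, hx₂, hfx₂, ?_, fun _ _ _ _ => rfl, fun l hl => absurd hl (Finset.notMem_empty l)⟩
    simp only [Finset.card_empty, pow_zero, one_mul]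
    linarith
  | insert k S hk ih =>
    intro hS
    obtain ⟨p₂, hp₂, hfp₂, hVp₂, hpu, hpd⟩ := ih (fun l hl => hS l (Finset.mem_insert_of_mem hl))
    obtain ⟨hk1, hk2⟩ := hS k (Finset.mem_insert_self k S)
    have hcard : (insert k S).card = S.card + 1 := Finset.card_insert_of_notMem hk
    have hcn : S.card + 1 ≤ n := by
      rw [← hcard]
      simpa using Finset.card_le_univ (insert k S)
    have hCl1 : 1 ≤ Cl + 1 := by linarith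
    obtain ⟨V₀, hV₀⟩ : ∃ V₀ : ℝ, V₀ = (Cl + 1) ^ S.card * (2 * θ) - θ := ⟨_, rfl⟩
    have hV₁ : V₀ + Cl * (V₀ + θ) = (Cl + 1) ^ (S.card + 1) * (2 * θ) - θ := by
      rw [hV₀, pow_succ]; ring
    have hsm : V₀ + Cl * (V₀ + θ) < c₀ / 2 * n₀ := by
      have h1 : (Cl + 1) ^ (S.card + 1) ≤ (Cl + 1) ^ n := pow_le_pow_right₀ hCl1 hcn
      have h2 := mul_le_mul_of_nonneg_right h1 (by positivity : (0 : ℝ) ≤ 2 * θ)
      rw [hV₁]
      linarith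
    have hNB₂ : ∀ l, l ∉ Es → l ∉ Ee → ∀ p ∈ L₀, uu a n mm rr l p = uu a n mm rr l p₂ →
        NB a n P Es Rh s (mm l) l p := by
      intro l hl1 hl2 p hp hlp
      by_cases hlS : l ∈ S
      · obtain ⟨h1, h2⟩ := hpd l hlS
        rcases hr : rr l with _ | r
        · exact NB_esc T U hp hr (by rw [hlp]; exact h1 hr)
        · exact NB_snk T U hp hr (by rw [hlp]; exact (h2 r hr).trans hra1)
      · exact hNB l hl1 hl2 p hp (hlp.trans (hpu l hl1 hl2 hlS))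
    have hVp₂' : V p₂ ≤ V₀ := by rw [hV₀]; linarith
    have hres : ∃ p ∈ L₀, (∀ i, i ∉ Es → i ∉ Ee → i ≠ k →
        uu a n mm rr i p = uu a n mm rr i p₂) ∧ ((rr k = none → ‖uu a n mm rr k p‖ = 2 * Rh) ∧
        ∀ r, rr k = some r → ‖uu a n mm rr k p‖ ≤ ra) ∧ ff p ≠ 0 ∧
        V p ≤ V₀ + Cl * (V₀ + θ) := by
      rcases hr : rr k with _ | r
      · obtain ⟨p, e1, e2, e3, e4, e5⟩ := esc_stage H E T U hk1 hk2 hr (hF k hk1 hk2) hff hff1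
          (hfj k hk1 hk2) hδ hθ hV hp₂ hfp₂ hVp₂' hNB₂
          (by rw [hpu k hk1 hk2 hk]; exact hst k hk1 hk2 hr) hsm
        exact ⟨p, e1, e2, ⟨fun _ => e3, fun r hr' => by simp at hr'⟩, e4, e5⟩
      · obtain ⟨p, e1, e2, e3, e4, e5⟩ := snk_stage H E T U hk1 hk2 hr (hF k hk1 hk2) hff hff1
          (hfj k hk1 hk2) hδ hθ hV hp₂ hfp₂ hVp₂' hNB₂ hsm hra0 (hra1.trans U.hs1) hraG
        exact ⟨p, e1, e2, ⟨fun h => by simp at h, fun _ _ => e3⟩, e4, e5⟩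
    obtain ⟨p, hp, hpu', hpd', hfp, hVp⟩ := hres
    refine ⟨p, hp, hfp, ?_, ?_, ?_⟩
    · rw [hcard]
      rw [hV₁] at hVp
      linarith
    · intro l hl1 hl2 hlS
      rw [Finset.mem_insert, not_or] at hlS
      rw [hpu' l hl1 hl2 hlS.1]
      exact hpu l hl1 hl2 hlS.2
    · intro l hl
      rcases Finset.mem_insert.mp hl with rfl | hl'
      · exact hpd'
      · have hlk : l ≠ k := fun h => hk (h ▸ hl')
        obtain ⟨hl1, hl2⟩ := hS l hl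
        rw [hpu' l hl1 hl2 hlk]
        exact hpd l hl'

end Run7.h598.TT
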