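import Mathlib
import Pool.Agent.H713R5.QJ.TNINF
import Pool.Agent.H713R5.QJ.Core5
import Pool.Agent.W346.BM.AP2
import Pool.Agent.W346.BM.ATT
import Pool.Agent.W820.BM.Asm2

/-!
Orbits which come close to a sink or which become large.
-/

set_option autoImplicit false

open Topology Filter Metric Set Polynomial MeasureTheory
open Pool.Agent.H713R3.ZA
open Pool.Agent.H713R5.QJ

namespace Run7.h598.TT

/-- contraction towards a sink -/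
theorem near_contr (H : HH) {a : ℂ} {n P : ℕ} {B lam₀ lam₁ r₁ r₂ : ℝ} (ha : a ≠ 0) (hn : 1 ≤ n)
    (hP : 0 < P) (hKL : KL a n P B lam₀ lam₁ r₁ r₂) {x : PE n} (hx : x ∈ ball (0 : PE n) B)
    {zs : ℂ} (h1 : (fx a n x)^[P] zs = zs) (h2 : lam₀ ≤ ‖deriv ((fx a n x)^[P]) zs‖)
    (h3 : ‖deriv ((fx a n x)^[P]) zs‖ ≤ lam₁) {z : ℂ} (hz : z ∈ ball zs r₁) (k : ℕ) :
    ‖(fx a n x)^[P * k] z - zs‖ ≤ 2 * lam₁ ^ k * ‖z - zs‖ := by
  obtain ⟨-, hK⟩ := H.ko2 H.ko0 H.ko1 H.ko3 a n P ha hn hP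
  obtain ⟨hS, -⟩ := H.ko0 (fx a n x) P (Pool.Agent.H713R3.ZA.fx_differentiable a n x) hP
  have hl0 := hKL.l0
  have hA : ∀ w ∈ ball zs r₁, (x, w) ∈ A0 a n P ∧ LP (fx a n x) P w = deriv ((fx a n x)^[P]) zs ∧
      (fx a n x)^[P] w ∈ ball zs r₁ := by
    intro w hw
    obtain ⟨e1, e2⟩ := hKL.att x hx zs h1 h2 h3 w hw
    have e3 : SP (fx a n x) P w = zs := hS w zs e1
    have e4 : LP (fx a n x) P w = deriv ((fx a n x)^[P]) zs := by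
      unfold LP; rw [e3]
    refine ⟨⟨⟨zs, e1⟩, ?_⟩, e4, e2⟩
    show LP (fx a n x) P w ≠ 0
    rw [e4]
    intro h0
    rw [h0, norm_zero] at h2
    linarith
  have claim : ∀ k : ℕ, (fx a n x)^[P * k] z ∈ ball zs r₁ ∧
      KP (fx a n x) P ((fx a n x)^[P * k] z) =
        deriv ((fx a n x)^[P]) zs ^ k * KP (fx a n x) P z := by
    intro k
    induction k with
    | zero => exact ⟨hz, by simp⟩
    | succ k ih =>
      obtain ⟨i1, i2⟩ := ih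
      have e1 : (fx a n x)^[P * (k + 1)] z = (fx a n x)^[P] ((fx a n x)^[P * k] z) := by
        rw [← Function.iterate_add_apply, Nat.mul_succ, Nat.add_comm]
      obtain ⟨j1, j2, j3⟩ := hA _ i1
      rw [e1]
      refine ⟨j3, ?_⟩
      rw [(hK x _ j1).2.2.2.2, i2, j2]
      ring
  obtain ⟨c1, c2⟩ := claim k
  have hzero := hKL.zero x hx zs h1 h2 h3
  have hc := hKL.close x hx zs h1 h2 h3 _ c1 zs (mem_ball_self hKL.r1)
  have hc' := hKL.close x hx zs h1 h2 h3 z hz zs (mem_ball_self hKL.r1)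
  rw [hzero, sub_zero] at hc hc'
  have e1 : ‖KP (fx a n x) P ((fx a n x)^[P * k] z)‖ ≤ lam₁ ^ k * ‖KP (fx a n x) P z‖ := by
    rw [c2, norm_mul, norm_pow]
    exact mul_le_mul_of_nonneg_right (pow_le_pow_left₀ (norm_nonneg _) h3 k) (norm_nonneg _)
  have e2 := norm_sub_norm_le (KP (fx a n x) P z) (z - zs)
  have e3 := norm_sub_norm_le ((fx a n x)^[P * k] z - zs) (KP (fx a n x) P ((fx a n x)^[P * k] z))
  rw [norm_sub_rev ((fx a n x)^[P * k] z - zs) _] at e3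
  have e4 : 0 ≤ lam₁ := (norm_nonneg _).trans h3
  have e5 : lam₁ ^ k * ‖KP (fx a n x) P z‖ ≤ lam₁ ^ k * (9 / 8 * ‖z - zs‖) :=
    mul_le_mul_of_nonneg_left (by linarith) (pow_nonneg e4 k)
  have e6 : 0 ≤ lam₁ ^ k * ‖z - zs‖ := mul_nonneg (pow_nonneg e4 k) (norm_nonneg _)
  nlinarith

/-- uniform Lipschitz constant -/
theorem lip_fx (a : ℂ) (n : ℕ) (B R : ℝ) : ∃ Lp : ℝ, 1 ≤ Lp ∧ ∀ x : PE n, ‖x‖ ≤ B →
    ∀ z w : ℂ, ‖z‖ ≤ R → ‖w‖ ≤ R → ‖fx a n x z - fx a n x w‖ ≤ Lp * ‖z - w‖ := by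
  obtain ⟨A, hA1, hA⟩ := exists_coeff_bound a n B
  have hA0 : 0 ≤ A := by linarith
  set N : ℕ := n + 2 with hN
  set ρ : ℝ := max R 1 with hρ
  have hρ1 : 1 ≤ ρ := le_max_right _ _
  refine ⟨N * (A * N) * ρ ^ N + 1, by
    have : 0 ≤ N * (A * N) * ρ ^ N := by positivity
    linarith, ?_⟩
  intro x hx z w hz hw
  have hdeg : (fam a n x).natDegree < N := lt_of_le_of_lt (natDegree_fam_le a n x) (by omega)
  have hdeg1 : (derivative (fam a n x)).natDegree < N :=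
    lt_of_le_of_lt (natDegree_derivative_le _) (by omega)
  have hc1 := Pool.Agent.W346.BM.der_coeff (fam a n x) N A hA0 hdeg (hA x hx)
  have hb1 : ∀ u ∈ closedBall (0 : ℂ) ρ, ‖(derivative (fam a n x)).eval u‖ ≤
      N * (A * N) * ρ ^ N := fun u hu =>
    Pool.Agent.W346.BM.eval_bound _ N (A * N) ρ (by positivity) hρ1 hdeg1 hc1 u
      (mem_closedBall_zero_iff.1 hu)
  have h1 := (convex_closedBall (0 : ℂ) ρ).norm_image_sub_le_of_norm_hasDerivWithin_le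
    (f := fx a n x) (fun u _ => ((fam a n x).hasDerivAt u).hasDerivWithinAt) hb1
    (mem_closedBall_zero_iff.2 (hw.trans (le_max_left _ _)))
    (mem_closedBall_zero_iff.2 (hz.trans (le_max_left _ _)))
  refine h1.trans ?_
  apply mul_le_mul_of_nonneg_right _ (norm_nonneg _)
  linarith

theorem lip_iter {f : ℂ → ℂ} {Lp Rh : ℝ} (hL : 1 ≤ Lp)
    (hf : ∀ z w : ℂ, ‖z‖ ≤ Rh + 1 → ‖w‖ ≤ Rh + 1 → ‖f z - f w‖ ≤ Lp * ‖z - w‖) {y zs : ℂ}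
    (hzs : ∀ j : ℕ, ‖f^[j] zs‖ ≤ Rh) (t : ℕ) (h : Lp ^ t * ‖y - zs‖ ≤ 1) :
    ‖f^[t] y - f^[t] zs‖ ≤ Lp ^ t * ‖y - zs‖ := by
  induction t with
  | zero => simp
  | succ t ih =>
    have h1 : Lp ^ t * ‖y - zs‖ ≤ Lp ^ (t + 1) * ‖y - zs‖ :=
      mul_le_mul_of_nonneg_right (pow_le_pow_right₀ hL (Nat.le_succ t)) (norm_nonneg _)
    have h2 := ih (h1.trans h)
    rw [Function.iterate_succ_apply', Function.iterate_succ_apply']
    have h3 : ‖f^[t] y‖ ≤ Rh + 1 := by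
      have := norm_add_le (f^[t] y - f^[t] zs) (f^[t] zs)
      rw [sub_add_cancel] at this
      linarith [hzs t]
    refine (hf _ _ h3 (by linarith [hzs t])).trans ?_
    calc Lp * ‖f^[t] y - f^[t] zs‖ ≤ Lp * (Lp ^ t * ‖y - zs‖) :=
          mul_le_mul_of_nonneg_left h2 (by linarith)
      _ = Lp ^ (t + 1) * ‖y - zs‖ := by ring

/-- points close to a sink are very close to its cycle later -/
theorem near_far (H : HH) {a : ℂ} {n P : ℕ} {B lam₀ lam₁ r₁ r₂ r' Rh Lp : ℝ} (ha : a ≠ 0)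
    (hn : 1 ≤ n) (hP : 0 < P) (hKL : KL a n P B lam₀ lam₁ r₁ r₂) (hr'₁ : r' < r₁) (hr1 : r₁ ≤ 1)
    (hL : 1 ≤ Lp) {x : PE n} (hx : x ∈ ball (0 : PE n) B)
    (hlip : ∀ z w : ℂ, ‖z‖ ≤ Rh + 1 → ‖w‖ ≤ Rh + 1 → ‖fx a n x z - fx a n x w‖ ≤ Lp * ‖z - w‖)
    {u : ℂ} (hA : (x, u) ∈ A0 a n P) (hl0 : lam₀ ≤ ‖LP (fx a n x) P u‖)
    (hl1 : ‖LP (fx a n x) P u‖ ≤ lam₁)
    (hR : ∀ b : ℕ, ‖(fx a n x)^[b] (SP (fx a n x) P u)‖ ≤ Rh) {b : ℕ} {y : ℂ}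
    (hy : ‖y - (fx a n x)^[b] (SP (fx a n x) P u)‖ ≤ r') {m K₀ : ℕ} (hK : K₀ ≤ m / P)
    (hsm : 2 * Lp ^ P * lam₁ ^ K₀ ≤ 1) :
    ∃ b' < P, ‖(fx a n x)^[m] y - (fx a n x)^[b'] (SP (fx a n x) P u)‖ ≤
      2 * Lp ^ P * lam₁ ^ K₀ := by
  set f := fx a n x with hf
  set sp := SP f P u with hsp
  obtain ⟨h7, h8⟩ := NINFaux.sink_facts H.ko0 hP hA.1 b
  have hlam1 : 0 ≤ lam₁ := (norm_nonneg _).trans hl1
  have hlam1' : lam₁ ≤ 1 := hKL.l1.le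
  have h9 := near_contr H ha hn hP hKL hx h7.1 (by rw [h8]; exact hl0) (by rw [h8]; exact hl1)
    (z := y) (by rw [mem_ball, dist_eq_norm]; exact hy.trans_lt hr'₁) (m / P)
  have hy1 : ‖y - f^[b] sp‖ ≤ 1 := by
    have : ‖y - f^[b] sp‖ ≤ r' := hy
    linarith
  have h10 : ‖f^[P * (m / P)] y - f^[b] sp‖ ≤ 2 * lam₁ ^ K₀ := by
    refine h9.trans ?_
    have e1 : lam₁ ^ (m / P) ≤ lam₁ ^ K₀ := pow_le_pow_of_le_one hlam1 hlam1' hK
    have e2 : 0 ≤ lam₁ ^ (m / P) := pow_nonneg hlam1 _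
    calc 2 * lam₁ ^ (m / P) * ‖y - f^[b] sp‖ ≤ 2 * lam₁ ^ (m / P) * 1 :=
          mul_le_mul_of_nonneg_left hy1 (by linarith)
      _ ≤ 2 * lam₁ ^ K₀ := by linarith
  have hmod : m % P < P := Nat.mod_lt _ hP
  have hpow : Lp ^ (m % P) ≤ Lp ^ P := pow_le_pow_right₀ hL hmod.le
  have hLp0 : 0 ≤ Lp ^ (m % P) := by positivity
  have h11 : Lp ^ (m % P) * ‖f^[P * (m / P)] y - f^[b] sp‖ ≤ 2 * Lp ^ P * lam₁ ^ K₀ := by
    calc Lp ^ (m % P) * ‖f^[P * (m / P)] y - f^[b] sp‖ ≤ Lp ^ P * (2 * lam₁ ^ K₀) :=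
          mul_le_mul hpow h10 (norm_nonneg _) (by positivity)
      _ = 2 * Lp ^ P * lam₁ ^ K₀ := by ring
  have h12 := lip_iter (f := f) hL hlip (y := f^[P * (m / P)] y) (zs := f^[b] sp) (fun j => by
    rw [← Function.iterate_add_apply]; exact hR _) (m % P) (h11.trans hsm)
  have h13 : f^[m] y = f^[m % P] (f^[P * (m / P)] y) := by
    rw [← Function.iterate_add_apply, Nat.mod_add_div]
  have h14 : f^[m % P] (f^[b] sp) = f^[(m % P + b) % P] sp := by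
    rw [← Function.iterate_add_apply]
    have hfix : f^[P] sp = sp := by
      have := (NINFaux.sink_facts (x := x) H.ko0 hP hA.1 0).1.1
      simpa using this
    have h1 : f^[P * ((m % P + b) / P)] sp = sp := by
      rw [Function.iterate_mul]
      exact Function.iterate_fixed hfix _
    conv_lhs => rw [← Nat.mod_add_div (m % P + b) P, Function.iterate_add_apply, h1]
  refine ⟨(m % P + b) % P, Nat.mod_lt _ hP, ?_⟩
  rw [h13, ← h14]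
  exact h12.trans h11

/-- points which become large are very large later -/
theorem far_far {a : ℂ} {n : ℕ} {B R C₁ R₁ R₃ RA : ℝ} {ψ φ : PE n × ℂ → ℂ}
    (hb : BO a n B R C₁ R₁ R₃ ψ φ) {N s₀ M₀ : ℕ} (hs₀ : RA ≤ 2 ^ s₀) (hM₀ : N + s₀ ≤ M₀)
    (hAP : ∀ x : PE n, ‖x‖ ≤ B → ∀ z : ℂ, RA ≤ ‖z‖ →
      ∀ m : ℕ, M₀ ≤ m → ∀ j ≤ N + s₀, Real.exp ((m : ℝ) ^ 2) + B < ‖(fx a n x)^[m - j] z‖)
    {x : PE n} (hx : ‖x‖ ≤ B) {y : ℂ} {j : ℕ} (hj : j ≤ N) (hy : R₃ ≤ ‖(fx a n x)^[j] y‖) {m : ℕ}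
    (hm : M₀ ≤ m) : Real.exp ((m : ℝ) ^ 2) + B < ‖(fx a n x)^[m] y‖ := by
  have hR := hb.hR
  have hC := hb.hC
  have hR₁ := hb.hR₁
  have hR₃ := hb.hR₃
  have hgrow : ∀ t : ℕ, 2 ^ t * ‖(fx a n x)^[j] y‖ ≤ ‖(fx a n x)^[t] ((fx a n x)^[j] y)‖ := by
    intro t
    induction t with
    | zero => simp
    | succ t ih =>
      rw [Function.iterate_succ_apply']
      have h1 : (1 : ℝ) ≤ 2 ^ t := one_le_pow₀ (by norm_num)
      have h2 : R ≤ ‖(fx a n x)^[t] ((fx a n x)^[j] y)‖ := by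
        refine le_trans ?_ ih
        nlinarith
      have h3 := hb.esc x hx _ h2
      rw [pow_succ]
      linarith
  have h1 : RA ≤ ‖(fx a n x)^[s₀] ((fx a n x)^[j] y)‖ := by
    refine le_trans ?_ (hgrow s₀)
    have h2 : (0 : ℝ) ≤ 2 ^ s₀ := by positivity
    nlinarith
  have h2 := hAP x hx _ h1 m hm (s₀ + j) (by omega)
  rw [← Function.iterate_add_apply, ← Function.iterate_add_apply] at h2
  have h3 : m - (s₀ + j) + s₀ + j = m := by omega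
  rwa [h3] at h2

end Run7.h598.TT
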