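import Mathlib
import Pool.Agent.H713R5.QJ.TNINF
import Pool.Agent.H713R5.QJ.Core5

/-!
Upper semicontinuity of the level `N` area.
-/

set_option autoImplicit false

open Topology Filter Metric Set Polynomial MeasureTheory
open Pool.Agent.H713R3.ZA
open Pool.Agent.H713R5.QJ

namespace Run7.h598.TT

theorem iter_contAt (a : ℂ) (n N : ℕ) {V : Type} [TopologicalSpace V] {X : V → PE n} {Z : V → ℂ}
    {q : V} (hX : ContinuousAt X q) (hZ : ContinuousAt Z q) :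
    ContinuousAt (fun p => (fx a n (X p))^[N] (Z p)) q :=
  ContinuousAt.comp (f := fun p => (X p, Z p)) (g := fun p : PE n × ℂ => (fx a n p.1)^[N] p.2)
    (contDiff_fx a n N).continuous.continuousAt (hX.prodMk hZ)

theorem KP_contAt (H : HH) {a : ℂ} {n P : ℕ} (ha : a ≠ 0) (hn : 1 ≤ n) (hP : 0 < P) {x : PE n}
    {u : ℂ} (h : (x, u) ∈ A0 a n P) :
    ContinuousAt (fun y : PE n × ℂ => KP (fx a n y.1) P y.2) (x, u) := by
  obtain ⟨-, -, -, hA0o⟩ := H.ko1 H.ko0 a n P ha hn hP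
  obtain ⟨hKPd, -⟩ := H.ko2 H.ko0 H.ko1 H.ko3 a n P ha hn hP
  exact hKPd.continuousOn.continuousAt (hA0o.mem_nhds h)

theorem SP_contAt (H : HH) {a : ℂ} {n P : ℕ} (ha : a ≠ 0) (hn : 1 ≤ n) (hP : 0 < P) {x : PE n}
    {u : ℂ} (h : AT (fx a n x) P u) :
    ContinuousAt (fun y : PE n × ℂ => SP (fx a n y.1) P y.2) (x, u) := by
  obtain ⟨hATo, hSPd, -, -⟩ := H.ko1 H.ko0 a n P ha hn hP
  exact hSPd.continuousOn.continuousAt (hATo.mem_nhds h)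

theorem LP_contAt (H : HH) {a : ℂ} {n P : ℕ} (ha : a ≠ 0) (hn : 1 ≤ n) (hP : 0 < P) {x : PE n}
    {u : ℂ} (h : AT (fx a n x) P u) :
    ContinuousAt (fun y : PE n × ℂ => LP (fx a n y.1) P y.2) (x, u) := by
  obtain ⟨hATo, -, hLPd, -⟩ := H.ko1 H.ko0 a n P ha hn hP
  exact hLPd.continuousOn.continuousAt (hATo.mem_nhds h)

/-- iterates of points of `A0` -/
theorem A0_iter (H : HH) {a : ℂ} {n P : ℕ} (ha : a ≠ 0) (hn : 1 ≤ n) (hP : 0 < P) {x : PE n}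
    {u : ℂ} (h : (x, u) ∈ A0 a n P) (b : ℕ) : (x, (fx a n x)^[b] u) ∈ A0 a n P := by
  obtain ⟨-, hK⟩ := H.ko2 H.ko0 H.ko1 H.ko3 a n P ha hn hP
  induction b with
  | zero => exact h
  | succ b ih =>
    rw [Function.iterate_succ_apply']
    exact (hK x _ ih).2.1

theorem eventually_target (H : HH) {a : ℂ} {n P M N : ℕ}
    {B R C₁ R₁ R₃ R₇ lam₀ lam₁ r₁ r₂ r' τ : ℝ} {ψ φ : PE n × ℂ → ℂ}
    {Es Ee : Finset (Fin n)} {rf : Fin n → Fin n} (ha : a ≠ 0) (hn : 1 ≤ n) (hP : 0 < P)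
    (hb : BO a n B R C₁ R₁ R₃ ψ φ) (hKL : KL a n P B lam₀ lam₁ r₁ r₂) (hr'1 : r' < r₁)
    {Ω : Set (PE n)} (hΩo : IsOpen Ω) (hΩO : Ω ⊆ OO a n P M B R₃ Es Ee)
    (hlam : ∀ x ∈ Ω, ∀ i ∈ Es, lam₀ ≤ ‖LP (fx a n x) P (x (some i))‖ ∧
      ‖LP (fx a n x) P (x (some i))‖ ≤ lam₁) {x₀ : PE n} {z₀ : ℂ} (hx₀ : x₀ ∈ Ω)
    (hz₀ : z₀ ∉ BN a n P R₃ R₇ φ Es rf r' τ N x₀) :
    ∀ᶠ p : PE n × ℂ in 𝓝 (x₀, z₀), p.1 ∈ Ω ∧ p.2 ∉ BN a n P R₃ R₇ φ Es rf r' τ N p.1 := by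
  have hxB : x₀ ∈ ball (0 : PE n) B := (hΩO hx₀).1
  have hev : ∀ᶠ p : PE n × ℂ in 𝓝 (x₀, z₀), p.1 ∈ Ω :=
    continuous_fst.continuousAt.eventually (hΩo.mem_nhds hx₀)
  have hfst : ContinuousAt (fun p : PE n × ℂ => p.1) (x₀, z₀) := continuous_fst.continuousAt
  have hy : ContinuousAt (fun p : PE n × ℂ => (fx a n p.1)^[N] p.2) (x₀, z₀) :=
    (contDiff_fx a n N).continuous.continuousAt
  have hmem : (fx a n x₀)^[N] z₀ ∈ UF n R₃ R₇ φ x₀ ∪ US a n P Es rf r' τ x₀ := not_not.1 hz₀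
  rcases hmem with hF | hS
  · have hop : IsOpen (ball (0 : PE n) B ×ˢ {z : ℂ | R₃ < ‖z‖}) :=
      isOpen_ball.prod (isOpen_lt continuous_const continuous_norm)
    have hφc : ContinuousAt φ (x₀, (fx a n x₀)^[N] z₀) :=
      (hb.φd.continuousOn).continuousAt (hop.mem_nhds ⟨hxB, hF.1⟩)
    have h2 : ContinuousAt (fun p : PE n × ℂ => φ (p.1, (fx a n p.1)^[N] p.2)) (x₀, z₀) :=
      ContinuousAt.comp (f := fun p : PE n × ℂ => (p.1, (fx a n p.1)^[N] p.2)) (g := φ) hφc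
        (hfst.prodMk hy)
    filter_upwards [hev, hy.norm.eventually (lt_mem_nhds hF.1),
      h2.norm.eventually (lt_mem_nhds hF.2)] with p e1 e2 e3
    exact ⟨e1, fun h => h (Or.inl ⟨e2, e3⟩)⟩
  · obtain ⟨i, hi, hri, b, hbP, h5, h6⟩ := hS
    have hA := (hΩO hx₀).2.1 i hi
    have hci : ContinuousAt (fun p : PE n × ℂ => p.1 (some i)) (x₀, z₀) :=
      (continuous_apply (some i)).continuousAt.comp hfst
    have hSPc : ContinuousAt (fun p : PE n × ℂ => SP (fx a n p.1) P (p.1 (some i))) (x₀, z₀) :=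
      ContinuousAt.comp (f := fun p : PE n × ℂ => (p.1, p.1 (some i)))
        (g := fun y : PE n × ℂ => SP (fx a n y.1) P y.2) (SP_contAt H ha hn hP hA.1)
        (hfst.prodMk hci)
    have hs : ContinuousAt
        (fun p : PE n × ℂ => (fx a n p.1)^[b] (SP (fx a n p.1) P (p.1 (some i)))) (x₀, z₀) :=
      iter_contAt a n b hfst hSPc
    have hb' : ContinuousAt (fun p : PE n × ℂ => (fx a n p.1)^[b] (p.1 (some i))) (x₀, z₀) :=
      iter_contAt a n b hfst hci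
    have hl := hlam x₀ hx₀ i hi
    obtain ⟨h7, h8⟩ := NINFaux.sink_facts H.ko0 hP hA.1 b
    have hSk := (hKL.att x₀ hxB _ h7.1 (by rw [h8]; exact hl.1) (by rw [h8]; exact hl.2)
      ((fx a n x₀)^[N] z₀) (by rw [mem_ball, dist_eq_norm]; linarith)).1
    have hyA : (x₀, (fx a n x₀)^[N] z₀) ∈ A0 a n P := by
      refine ⟨⟨_, hSk⟩, ?_⟩
      obtain ⟨h1, -⟩ := H.ko0 (fx a n x₀) P (Pool.Agent.H713R3.ZA.fx_differentiable a n x₀) hP
      have h2 : SP (fx a n x₀) P ((fx a n x₀)^[N] z₀) = _ := h1 _ _ hSk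
      show deriv ((fx a n x₀)^[P]) (SP (fx a n x₀) P ((fx a n x₀)^[N] z₀)) ≠ 0
      rw [h2, h8]
      exact hA.2
    have hK1 : ContinuousAt (fun p : PE n × ℂ => KP (fx a n p.1) P ((fx a n p.1)^[N] p.2))
        (x₀, z₀) :=
      ContinuousAt.comp (f := fun p : PE n × ℂ => (p.1, (fx a n p.1)^[N] p.2))
        (g := fun y : PE n × ℂ => KP (fx a n y.1) P y.2) (KP_contAt H ha hn hP hyA)
        (hfst.prodMk hy)
    have hK2 : ContinuousAt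
        (fun p : PE n × ℂ => KP (fx a n p.1) P ((fx a n p.1)^[b] (p.1 (some i)))) (x₀, z₀) :=
      ContinuousAt.comp (f := fun p : PE n × ℂ => (p.1, (fx a n p.1)^[b] (p.1 (some i))))
        (g := fun y : PE n × ℂ => KP (fx a n y.1) P y.2)
        (KP_contAt H ha hn hP (A0_iter H ha hn hP hA b)) (hfst.prodMk hb')
    have hdiff : ContinuousAt (fun p : PE n × ℂ =>
        τ * ‖KP (fx a n p.1) P ((fx a n p.1)^[b] (p.1 (some i)))‖ -
          ‖KP (fx a n p.1) P ((fx a n p.1)^[N] p.2)‖) (x₀, z₀) :=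
      (continuousAt_const.mul hK2.norm).sub hK1.norm
    filter_upwards [hev, (hy.sub hs).norm.eventually (gt_mem_nhds h5),
      hdiff.eventually (lt_mem_nhds (sub_pos.mpr h6))] with p e1 e2 e3
    exact ⟨e1, fun h => h (Or.inr ⟨i, hi, hri, b, hbP, e2, sub_pos.mp e3⟩)⟩

/-- Upper semicontinuity of the level `N` area. -/
theorem usc_BN (H : HH) {a : ℂ} {n P M N : ℕ}
    {B R C₁ R₁ R₃ R₇ lam₀ lam₁ r₁ r₂ r' τ : ℝ} {ψ φ : PE n × ℂ → ℂ}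
    {Es Ee : Finset (Fin n)} {rf : Fin n → Fin n} (ha : a ≠ 0) (hn : 1 ≤ n) (hP : 0 < P)
    (hb : BO a n B R C₁ R₁ R₃ ψ φ) (hR₇ : R₃ + C₁ ≤ R₇) (hKL : KL a n P B lam₀ lam₁ r₁ r₂)
    (hr'1 : r' < r₁)
    {Ω : Set (PE n)} (hΩo : IsOpen Ω) (hΩO : Ω ⊆ OO a n P M B R₃ Es Ee)
    (hlam : ∀ x ∈ Ω, ∀ i ∈ Es, lam₀ ≤ ‖LP (fx a n x) P (x (some i))‖ ∧
      ‖LP (fx a n x) P (x (some i))‖ ≤ lam₁) {x₀ : PE n} (hx₀ : x₀ ∈ Ω) {η : ℝ} (hη : 0 < η) :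
    ∀ᶠ x in 𝓝 x₀, (volume (BN a n P R₃ R₇ φ Es rf r' τ N x)).toReal ≤
      (volume (BN a n P R₃ R₇ φ Es rf r' τ N x₀)).toReal + η := by
  set G : Set ℂ := {z | z ∉ BN a n P R₃ R₇ φ Es rf r' τ N x₀} with hG
  have hGo : IsOpen G := by
    rw [isOpen_iff_mem_nhds]
    intro z hz
    have h1 := eventually_target H ha hn hP hb hKL hr'1 hΩo hΩO hlam hx₀ hz
    have h2 : ContinuousAt (fun w : ℂ => ((x₀, w) : PE n × ℂ)) z := by fun_prop
    filter_upwards [h2.eventually h1] with w hw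
    exact hw.2
  set Rr : ℝ := R₇ + C₁ with hRr
  have hmeas : MeasurableSet (G ∩ closedBall (0 : ℂ) Rr) :=
    hGo.measurableSet.inter isClosed_closedBall.measurableSet
  have hfin : volume (G ∩ closedBall (0 : ℂ) Rr) ≠ ⊤ :=
    ne_top_of_le_ne_top (isCompact_closedBall (0 : ℂ) Rr).measure_lt_top.ne
      (measure_mono inter_subset_right)
  obtain ⟨K, hKs, hKc, hKv⟩ := hmeas.exists_isCompact_sdiff_lt (μ := (volume : Measure ℂ)) hfin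
    (ε := ENNReal.ofReal η) (by simpa using hη)
  set GG : Set (PE n × ℂ) := {p | p.1 ∈ Ω ∧ p.2 ∉ BN a n P R₃ R₇ φ Es rf r' τ N p.1} with hGG
  have hGGo : IsOpen GG := by
    rw [isOpen_iff_mem_nhds]
    rintro ⟨x, z⟩ ⟨h1, h2⟩
    exact eventually_target H ha hn hP hb hKL hr'1 hΩo hΩO hlam h1 h2
  obtain ⟨u, v, huo, -, hxu, hKv', huv⟩ := generalized_tube_lemma (isCompact_singleton (x := x₀))
    hKc hGGo (by
      rintro ⟨x, z⟩ ⟨h1, h2⟩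
      rw [mem_singleton_iff] at h1
      simp only at h1 h2
      subst h1
      exact ⟨hx₀, (hKs h2).1⟩)
  have hΩB : ∀ x ∈ Ω, x ∈ ball (0 : PE n) B := fun x hx => (hΩO hx).1
  filter_upwards [huo.mem_nhds (singleton_subset_iff.mp hxu), hΩo.mem_nhds hx₀] with x hx hxΩ
  have hsub : BN a n P R₃ R₇ φ Es rf r' τ N x ⊆ BN a n P R₃ R₇ φ Es rf r' τ N x₀ ∪
      ((G ∩ closedBall (0 : ℂ) Rr) \ K) := by
    intro z hz
    by_cases h1 : z ∈ BN a n P R₃ R₇ φ Es rf r' τ N x₀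
    · exact Or.inl h1
    · right
      refine ⟨⟨h1, BN_sub hb hR₇ (hΩB x hxΩ) hz⟩, fun hzK => ?_⟩
      exact (huv (show (x, z) ∈ u ×ˢ v from ⟨hx, hKv' hzK⟩)).2 hz
  have hle : volume (BN a n P R₃ R₇ φ Es rf r' τ N x) ≤
      volume (BN a n P R₃ R₇ φ Es rf r' τ N x₀) + ENNReal.ofReal η := by
    refine (measure_mono hsub).trans ((measure_union_le _ _).trans ?_)
    gcongr
  have hf₀ := BN_fin (P := P) (N := N) (r' := r') (τ := τ) hb hR₇ (Es := Es) (rf := rf) (hΩB x₀ hx₀)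
  have h1 := ENNReal.toReal_mono (ENNReal.add_ne_top.mpr ⟨hf₀, ENNReal.ofReal_ne_top⟩) hle
  rwa [ENNReal.toReal_add hf₀ ENNReal.ofReal_ne_top, ENNReal.toReal_ofReal hη.le] at h1

end Run7.h598.TT
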