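import Mathlib
import Pool.Agent.Run7.h598.TT.Crv
import Pool.Agent.Run7.h598.TT.Usc

/-!
The environment near a polynomial.
-/

set_option autoImplicit false

open Topology Filter Metric Set Polynomial MeasureTheory
open Pool.Agent.H713R3.ZA
open Pool.Agent.H713R5.QJ

namespace Run7.h598.TT

section
variable {a : ℂ} {n P : ℕ} {i : Fin n} {x₀ : PE n}

theorem pair_contAt (i : Fin n) (x₀ : PE n) :
    ContinuousAt (fun x : PE n => ((x, x (some i)) : PE n × ℂ)) x₀ :=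
  (continuous_id.prodMk (continuous_apply _)).continuousAt

theorem SPi_contAt (H : HH) (ha : a ≠ 0) (hn : 1 ≤ n) (hP : 0 < P)
    (h : AT (fx a n x₀) P (x₀ (some i))) :
    ContinuousAt (fun x : PE n => SP (fx a n x) P (x (some i))) x₀ :=
  ContinuousAt.comp (f := fun x : PE n => ((x, x (some i)) : PE n × ℂ))
    (g := fun y : PE n × ℂ => SP (fx a n y.1) P y.2) (SP_contAt H ha hn hP h)
    (pair_contAt i x₀)

theorem SPib_contAt (H : HH) (ha : a ≠ 0) (hn : 1 ≤ n) (hP : 0 < P)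
    (h : AT (fx a n x₀) P (x₀ (some i))) (b : ℕ) :
    ContinuousAt (fun x : PE n => (fx a n x)^[b] (SP (fx a n x) P (x (some i)))) x₀ :=
  iter_contAt a n b continuousAt_id (SPi_contAt H ha hn hP h)

theorem LPi_contAt (H : HH) (ha : a ≠ 0) (hn : 1 ≤ n) (hP : 0 < P)
    (h : AT (fx a n x₀) P (x₀ (some i))) :
    ContinuousAt (fun x : PE n => LP (fx a n x) P (x (some i))) x₀ :=
  ContinuousAt.comp (f := fun x : PE n => ((x, x (some i)) : PE n × ℂ))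
    (g := fun y : PE n × ℂ => LP (fx a n y.1) P y.2) (LP_contAt H ha hn hP h)
    (pair_contAt i x₀)

theorem KPib_contAt (H : HH) (ha : a ≠ 0) (hn : 1 ≤ n) (hP : 0 < P)
    (h : (x₀, x₀ (some i)) ∈ A0 a n P) (b : ℕ) :
    ContinuousAt (fun x : PE n => KP (fx a n x) P ((fx a n x)^[b] (x (some i)))) x₀ := by
  have h1 : ContinuousAt (fun x : PE n => ((x, (fx a n x)^[b] (x (some i))) : PE n × ℂ)) x₀ :=
    continuousAt_id.prodMk (iter_contAt a n b continuousAt_id (continuous_apply _).continuousAt)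
  exact ContinuousAt.comp (f := fun x : PE n => ((x, (fx a n x)^[b] (x (some i))) : PE n × ℂ))
    (g := fun y : PE n × ℂ => KP (fx a n y.1) P y.2)
    (KP_contAt H ha hn hP (A0_iter H ha hn hP h b)) h1

end

/-- the local data -/
structure Bas (a : ℂ) (n P M : ℕ)
    (B R C₁ R₁ R₃ R₇ lam₀ lam₁ r₁ r₂ r' τ R₄ R₅ rg c₀ n₀ : ℝ) (v : ℂ) (ψ φ : PE n × ℂ → ℂ)
    (Es Ee : Finset (Fin n)) (rf : Fin n → Fin n) (ap : Fin n → ℕ) (xT : PE n)
    (ρ₀ ρ₂ ε : ℝ) : Prop where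
  env : ∀ N : ℕ, Env a n P M N B R C₁ R₁ R₃ R₇ lam₀ lam₁ r₁ r₂ r' τ R₄ R₅ rg c₀ n₀ v ψ φ Es Ee
    rf ap xT (ball xT ρ₀) (closedBall xT ρ₂)
  hρ₂ : 0 < ρ₂
  hρ₂ρ : ρ₂ < ρ₀
  hρ₀r : ρ₀ ≤ r₁ / 16
  hρ₀ε : ρ₀ ≤ ε
  hr' : r' = r₁ / 2
  hr₁ : r₁ ≤ 1
  hn₀ : 0 < n₀
  hR₇' : R₇ = R₃ + C₁
  hl₁ : 0 < lam₁
  hK : ∀ x ∈ ball xT ρ₀, ∀ i ∈ Es, KP (fx a n x) P (x (some i)) ≠ 0
  hlam : ∀ x ∈ ball xT ρ₀, ∀ i ∈ Es, lam₀ ≤ ‖LP (fx a n x) P (x (some i))‖ ∧
    ‖LP (fx a n x) P (x (some i))‖ ≤ lam₁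
  mov : ∀ x ∈ ball xT ρ₀, ∀ i ∈ Es, ∀ b ≤ P, ‖(fx a n x)^[b] (SP (fx a n x) P (x (some i))) -
    (fx a n xT)^[b] (SP (fx a n xT) P (xT (some i)))‖ < min (r₁ / 16) ε
  per : ∀ x ∈ ball xT ρ₀, ∀ i ∈ Es, ∀ b : ℕ,
    ((fx a n x)^[b] (SP (fx a n x) P (x (some i))) = SP (fx a n x) P (x (some i)) ↔
      (fx a n xT)^[b] (SP (fx a n xT) P (xT (some i))) = SP (fx a n xT) P (xT (some i)))

theorem exists_base (H : HH) {a : ℂ} (ha : a ≠ 0) {n : ℕ} (hn : 1 ≤ n) (xT : PE n) {P : ℕ}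
    (hP : 0 < P) {Es Ee : Finset (Fin n)}
    (hEs : ∀ i ∈ Es, (xT, xT (some i)) ∈ A0 a n P ∧ KP (fx a n xT) P (xT (some i)) ≠ 0)
    (hEe : ∀ i ∈ Ee, Tendsto (fun k : ℕ => ‖(fx a n xT)^[k] (xT (some i))‖) atTop atTop)
    {ε : ℝ} (hε : 0 < ε) :
    ∃ (M : ℕ) (R C₁ R₁ R₃ R₇ lam₀ lam₁ r₁ r₂ r' τ R₄ R₅ rg c₀ n₀ : ℝ) (v : ℂ)
      (ψ φ : PE n × ℂ → ℂ) (rf : Fin n → Fin n) (ap : Fin n → ℕ) (ρ₀ ρ₂ : ℝ),
      Bas a n P M (‖xT‖ + 2) R C₁ R₁ R₃ R₇ lam₀ lam₁ r₁ r₂ r' τ R₄ R₅ rg c₀ n₀ v ψ φ Es Ee rf ap xT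
        ρ₀ ρ₂ ε := by
  classical
  obtain ⟨B, hB⟩ : ∃ B : ℝ, B = ‖xT‖ + 2 := ⟨_, rfl⟩
  rw [← hB]
  have hxT0 := norm_nonneg xT
  have hB0 : 0 < B := by linarith
  obtain ⟨R, C₁, R₁, R₃, ψ, φ, hb⟩ := exists_boett H.bsum H.inv ha hn hB0
  have hb1 := hb.hR; have hb2 := hb.hC; have hb3 := hb.hR₁; have hb4 := hb.hR₃
  obtain ⟨R₇, hR₇⟩ : ∃ R₇ : ℝ, R₇ = R₃ + C₁ := ⟨_, rfl⟩
  obtain ⟨R₄, R₅, rg, c₀, v, hR₄, hR₄0, hR₅, hrg, hc₀, hv, hgain⟩ :=
    H.gainp H.dic a n B (R₇ + 3 * C₁) ha hn hB0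
  -- the time `M`
  obtain ⟨M, hM⟩ : ∃ M : ℕ, ∀ i ∈ Ee, R₃ + 2 * C₁ < ‖(fx a n xT)^[M] (xT (some i))‖ := by
    have h1 : ∀ᶠ M : ℕ in atTop, ∀ i ∈ Ee, R₃ + 2 * C₁ < ‖(fx a n xT)^[M] (xT (some i))‖ := by
      rw [Filter.eventually_all_finset]
      intro i hi
      exact (hEe i hi).eventually (eventually_gt_atTop _)
    exact h1.exists
  -- multipliers
  obtain ⟨l₀, l₁, hl0, hl1, hl1', hlb⟩ := exists_lam Es (fun i => LP (fx a n xT) P (xT (some i)))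
    (fun i hi => ⟨(hEs i hi).1.2, (A0_Sk H hP (hEs i hi).1.1).2.1⟩)
  obtain ⟨lam₀, hlam₀⟩ : ∃ lam₀ : ℝ, lam₀ = l₀ / 2 := ⟨_, rfl⟩
  obtain ⟨lam₁, hlam₁⟩ : ∃ lam₁ : ℝ, lam₁ = (1 + l₁) / 2 := ⟨_, rfl⟩
  have hlam₀0 : 0 < lam₀ := by rw [hlam₀]; linarith
  have hlam₁1 : lam₁ < 1 := by rw [hlam₁]; linarith
  obtain ⟨r₁, r₂, hr₁1, hKL⟩ := H.ko3 H.ko0 a n P B lam₀ lam₁ 1 ha hn hP hB0 hlam₀0 hlam₁1 one_pos
  have hr₁ := hKL.r1
  have hr₂ := hKL.r2
  obtain ⟨r', hr'⟩ : ∃ r' : ℝ, r' = r₁ / 2 := ⟨_, rfl⟩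
  have hr'0 : 0 < r' := by rw [hr']; linarith
  -- references
  obtain ⟨rf, ap, hRFP, hrel₁, hdis₁⟩ := H.refp (fx a n xT) n P Es
    (fun i => SP (fx a n xT) P (xT (some i))) hP
    (fun i hi => (A0_Sk H hP (hEs i hi).1.1).1)
  obtain ⟨hOo, hnud⟩ := H.nud H.ko0 H.ko1 H.ko2 H.ko3 a n P M B R₃ Es Ee rf ap ha hn hP hRFP
  set O : Set (PE n) := OO a n P M B R₃ Es Ee with hO
  have hxTO : xT ∈ O := ⟨by rw [mem_ball_zero_iff]; linarith, fun i hi => (hEs i hi).1,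
    fun i hi => by have := hM i hi; linarith⟩
  -- a small ball
  have hev1 : ∀ᶠ x in 𝓝 xT, x ∈ O := hOo.mem_nhds hxTO
  have hev2 : ∀ᶠ x in 𝓝 xT, ∀ i ∈ Ee, R₃ + 2 * C₁ < ‖(fx a n x)^[M] (x (some i))‖ := by
    rw [Filter.eventually_all_finset]
    intro i hi
    exact (crit_cont a n M i).norm.continuousAt.eventually (lt_mem_nhds (hM i hi))
  have hev3 : ∀ᶠ x in 𝓝 xT, ∀ i ∈ Es, KP (fx a n x) P (x (some i)) ≠ 0 := by
    rw [Filter.eventually_all_finset]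
    intro i hi
    have h1 := KPib_contAt H ha hn hP (hEs i hi).1 0
    simp only [Function.iterate_zero, id_eq] at h1
    exact h1.eventually_ne (hEs i hi).2
  have hev4 : ∀ᶠ x in 𝓝 xT, ∀ i ∈ Es, lam₀ < ‖LP (fx a n x) P (x (some i))‖ ∧
      ‖LP (fx a n x) P (x (some i))‖ < lam₁ := by
    rw [Filter.eventually_all_finset]
    intro i hi
    have h1 := (LPi_contAt H ha hn hP (hEs i hi).1.1).norm
    have h2 := hlb i hi
    exact (h1.eventually (lt_mem_nhds (by rw [hlam₀]; linarith [h2.1]))).and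
      (h1.eventually (gt_mem_nhds (by rw [hlam₁]; linarith [h2.2])))
  have hmin : 0 < min (r₁ / 16) ε := lt_min (by positivity) hε
  have hev5 : ∀ᶠ x in 𝓝 xT, ∀ i ∈ Es, ∀ b ∈ Finset.range (P + 1),
      ‖(fx a n x)^[b] (SP (fx a n x) P (x (some i))) -
        (fx a n xT)^[b] (SP (fx a n xT) P (xT (some i)))‖ < min (r₁ / 16) ε := by
    rw [Filter.eventually_all_finset]
    intro i hi
    rw [Filter.eventually_all_finset]
    intro b _
    have h1 := (SPib_contAt H ha hn hP (hEs i hi).1.1 b).sub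
      (continuousAt_const (y := (fx a n xT)^[b] (SP (fx a n xT) P (xT (some i)))))
    exact h1.norm.eventually (gt_mem_nhds (by simpa using hmin))
  obtain ⟨ρ', hρ', hball⟩ := Metric.eventually_nhds_iff_ball.1
    (hev1.and (hev2.and (hev3.and (hev4.and hev5))))
  obtain ⟨ρ₀, hρ₀, hρ₀1, hρ₀2, hρ₀3⟩ : ∃ ρ₀ : ℝ, 0 < ρ₀ ∧ ρ₀ ≤ ρ' ∧ ρ₀ ≤ r₁ / 16 ∧ ρ₀ ≤ ε :=
    ⟨min ρ' (min (r₁ / 16) ε), lt_min hρ' hmin, min_le_left _ _,
      (min_le_right _ _).trans (min_le_left _ _), (min_le_right _ _).trans (min_le_right _ _)⟩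
  obtain ⟨ρ₂, n₀, hρ₂0, hρ₂ρ, hn₀, hn₀1, -, hsph⟩ := exists_sphere H ha hn xT hρ₀ hc₀ hc₀
  have hin : ∀ x ∈ ball xT ρ₀, _ := fun x hx => hball x (ball_subset_ball hρ₀1 hx)
  have hΩO : ball xT ρ₀ ⊆ O := fun x hx => (hin x hx).1
  have hΩc : IsPreconnected (ball xT ρ₀) := (convex_ball xT ρ₀).isPreconnected
  have hxTΩ : xT ∈ ball xT ρ₀ := mem_ball_self hρ₀
  have hLΩ : closedBall xT ρ₂ ⊆ ball xT ρ₀ := closedBall_subset_ball hρ₂ρ
  -- a bound of the positions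
  obtain ⟨CK, hCK⟩ : ∃ CK : ℝ, ∀ x ∈ closedBall xT ρ₂, ∀ i ∈ Es, ∀ b ≤ P,
      ‖KP (fx a n x) P ((fx a n x)^[b] (x (some i)))‖ ≤ CK := by
    obtain ⟨CK, hCK⟩ := (isCompact_closedBall xT ρ₂).exists_bound_of_continuousOn
      (f := fun x : PE n => ∑ i ∈ Es, ∑ b ∈ Finset.range (P + 1),
        ‖KP (fx a n x) P ((fx a n x)^[b] (x (some i)))‖) (by
        intro x hx
        apply ContinuousAt.continuousWithinAt
        have hAx := (hΩO (hLΩ hx)).2.1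
        exact tendsto_finsetSum _ fun i hi => tendsto_finsetSum _ fun b _ =>
          (KPib_contAt H ha hn hP (hAx i hi) b).norm)
    refine ⟨CK, fun x hx i hi b hb' => ?_⟩
    refine le_trans ?_ ((le_abs_self _).trans (hCK x hx))
    refine le_trans ?_ (Finset.single_le_sum
      (f := fun i => ∑ b ∈ Finset.range (P + 1),
        ‖KP (fx a n x) P ((fx a n x)^[b] (x (some i)))‖)
      (fun i _ => Finset.sum_nonneg fun b _ => norm_nonneg _) hi)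
    exact Finset.single_le_sum (f := fun b => ‖KP (fx a n x) P ((fx a n x)^[b] (x (some i)))‖)
      (fun b _ => norm_nonneg _) (Finset.mem_range.mpr (by omega))
  have hmin2 : 0 < min r₂ (r' / 4) := lt_min hr₂ (by positivity)
  obtain ⟨τ, hτ⟩ : ∃ τ : ℝ, τ = min r₂ (r' / 4) / (2 * (|CK| + 1)) := ⟨_, rfl⟩
  have hτ0 : 0 < τ := by rw [hτ]; positivity
  have hτC : τ * (|CK| + 1) < min r₂ (r' / 4) := by
    have : τ * (|CK| + 1) = min r₂ (r' / 4) / 2 := by rw [hτ]; field_simp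
    rw [this]; linarith
  refine ⟨M, R, C₁, R₁, R₃, R₇, lam₀, lam₁, r₁, r₂, r', τ, R₄, R₅, rg, c₀, n₀, v, ψ, φ, rf, ap, ρ₀,
    ρ₂, ?_⟩
  exact
    { env := fun N =>
        { ha := ha
          hn := hn
          hP := hP
          hb := hb
          hR₇ := hR₇.ge
          hKL := hKL
          hRFP := hRFP
          hΩo := isOpen_ball
          hΩO := hΩO
          hrel := by
            intro x hx i hi
            obtain ⟨h1, h2⟩ := H.clo H.ko0 H.ko1 a n P M B R₃ Es Ee ha hn hP (rf i)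
              (hRFP.mem i hi) i hi (ap i)
            exact (persist h1 h2 hΩc hΩO hxTΩ).1 (hrel₁ i hi) x hx
          hdis := by
            intro x hx i hi i' hi' h3 h4 h5 b
            obtain ⟨h1, h2⟩ := H.clo H.ko0 H.ko1 a n P M B R₃ Es Ee ha hn hP i hi i' hi' b
            exact (persist h1 h2 hΩc hΩO hxTΩ).2 (hdis₁ i hi i' hi' h3 h4 h5 b) x hx
          hr' := hr'0
          hr'₁ := by rw [hr']; linarith
          hτ := hτ0
          hR₄ := hR₄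
          hR₅ := hR₅
          hc₀ := hc₀
          hv := hv
          hgain := hgain
          hL₀c := isCompact_closedBall xT ρ₂
          hL₀Ω := hLΩ
          hlam := fun x hx i hi =>
            ⟨((hin x (hLΩ hx)).2.2.2.1 i hi).1.le, ((hin x (hLΩ hx)).2.2.2.1 i hi).2.le⟩
          hCK := by
            intro x hx i hi b hb'
            have h1 := hCK x hx i hi b hb'
            have h2 := le_abs_self CK
            exact (mul_le_mul_of_nonneg_left (by linarith : _ ≤ |CK| + 1) hτ0.le).trans_lt hτC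
          hF1 := by
            intro x hx i hi
            have h1 := (hin x (hLΩ hx)).2.1 i hi
            have h2 := hb.φc x (hΩO (hLΩ hx)).1 ((fx a n x)^[M] (x (some i))) (by linarith)
            have h3 := norm_sub_norm_le ((fx a n x)^[M] (x (some i)))
              (φ (x, (fx a n x)^[M] (x (some i))))
            rw [norm_sub_rev] at h3
            linarith
          hsat := by
            intro p hp hDp γ hγc hγ0 hev
            have hp' : p ∈ ball xT ρ₂ := by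
              rcases (mem_closedBall.mp hp).lt_or_eq with h1 | h1
              · exact mem_ball.mpr h1
              · exact absurd (hsph p (mem_sphere.mpr h1)) (not_le.mpr hDp)
            have h1 : ∀ᶠ t in 𝓝 (0 : ℂ), γ t ∈ ball xT ρ₂ :=
              hγc.eventually (isOpen_ball.mem_nhds (by rw [hγ0]; exact hp'))
            exact h1.mono fun t ht => ball_subset_closedBall ht }
      hρ₂ := hρ₂0
      hρ₂ρ := hρ₂ρ
      hρ₀r := hρ₀2
      hρ₀ε := hρ₀3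
      hr' := hr'
      hr₁ := hr₁1
      hn₀ := hn₀
      hR₇' := hR₇
      hl₁ := by rw [hlam₁]; linarith
      hK := fun x hx => (hin x hx).2.2.1
      hlam := fun x hx i hi =>
        ⟨((hin x hx).2.2.2.1 i hi).1.le, ((hin x hx).2.2.2.1 i hi).2.le⟩
      mov := fun x hx i hi b hb' => (hin x hx).2.2.2.2 i hi b (Finset.mem_range.mpr (by omega))
      per := by
        intro x hx i hi b
        obtain ⟨h1, h2⟩ := H.clo H.ko0 H.ko1 a n P M B R₃ Es Ee ha hn hP i hi i hi b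
        obtain ⟨h3, h4⟩ := persist h1 h2 hΩc hΩO hxTΩ
        constructor
        · intro h
          by_contra hne
          exact h4 (fun h' => hne h'.symm) x hx h.symm
        · intro h
          exact (h3 h.symm x hx).symm }

end Run7.h598.TT
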