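import Mathlib
import Pool.Agent.Run7.h598.TT.Iter
import Pool.Agent.Run7.h598.TT.Base
import Pool.Agent.Run7.h598.TT.Near

/-!
Choice of the numbers, and the estimates of the orbits.
-/

set_option autoImplicit false

open Topology Filter Metric Set Polynomial MeasureTheory
open Pool.Agent.H713R3.ZA
open Pool.Agent.H713R5.QJ

namespace Run7.h598.TT

theorem exists_Mp (P N M₀ N₀ Q : ℕ) {lam₁ Lp CA Rh s Λ η : ℝ} (hP : 0 < P) (hl0 : 0 < lam₁)
    (hl1 : lam₁ < 1) (hLp : 1 ≤ Lp) (hCA : 2 ≤ CA) (hs : 0 < s) (hη : 0 < η) {c : ℝ}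
    (hc : c = -Real.log lam₁ / (2 * P)) :
    ∃ M : ℕ, 1 ≤ M ∧ M₀ ≤ M ∧ N₀ ≤ M ∧
      2 * Lp ^ P * lam₁ ^ ((M - N) / P) ≤ Real.exp (-(c * M)) ∧
      8 * ((Q : ℝ) + 1) * Λ ≤ c * M ∧ Real.exp (-(c * M)) ≤ s / 2 ∧
      4 * Rh ≤ Real.exp ((M : ℝ) ^ 2) - Rh ∧ c * M ≤ Real.log (Real.exp ((M : ℝ) ^ 2) - Rh) ∧
      CA⁻¹ ^ M ≤ s ∧ CA⁻¹ ^ M < η := by
  have hlog : Real.log lam₁ < 0 := Real.log_neg hl0 hl1
  have hPr : (0 : ℝ) < P := by exact_mod_cast hP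
  have hc0 : 0 < c := by
    rw [hc]
    apply div_pos (by linarith) (by positivity)
  have hcast : Tendsto (fun M : ℕ => (M : ℝ)) atTop atTop := tendsto_natCast_atTop_atTop
  have hcM : Tendsto (fun M : ℕ => c * (M : ℝ)) atTop atTop := hcast.const_mul_atTop hc0
  have hsq : Tendsto (fun M : ℕ => (M : ℝ) ^ 2) atTop atTop :=
    (tendsto_pow_atTop (two_ne_zero)).comp hcast
  have hexp : Tendsto (fun M : ℕ => Real.exp ((M : ℝ) ^ 2)) atTop atTop :=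
    Real.tendsto_exp_atTop.comp hsq
  have hCAi : Tendsto (fun M : ℕ => CA⁻¹ ^ M) atTop (𝓝 0) := by
    apply tendsto_pow_atTop_nhds_zero_of_lt_one (by positivity)
    exact inv_lt_one_of_one_lt₀ (by linarith)
  have h4 : ∀ᶠ M : ℕ in atTop, 8 * ((Q : ℝ) + 1) * Λ ≤ c * M := hcM.eventually_ge_atTop _
  have h5 : ∀ᶠ M : ℕ in atTop, -Real.log (s / 2) ≤ c * M := hcM.eventually_ge_atTop _
  have h6 : ∀ᶠ M : ℕ in atTop, 5 * |Rh| + 2 * |Rh| ≤ Real.exp ((M : ℝ) ^ 2) :=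
    hexp.eventually_ge_atTop _
  have h7 : ∀ᶠ M : ℕ in atTop, c + 1 + N ≤ (M : ℝ) := hcast.eventually_ge_atTop _
  have h8 : ∀ᶠ M : ℕ in atTop, CA⁻¹ ^ M < min s η := hCAi.eventually (gt_mem_nhds (lt_min hs hη))
  have h9 : ∀ᶠ M : ℕ in atTop, Real.log (2 * Lp ^ P) + 2 * c * (N + P) ≤ c * M :=
    hcM.eventually_ge_atTop _
  obtain ⟨M, e4, e5, e6, e7, e8, e9, e1, e2, e3⟩ := (h4.and (h5.and (h6.and (h7.and (h8.and
    (h9.and ((eventually_ge_atTop 1).and ((eventually_ge_atTop M₀).and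
      (eventually_ge_atTop N₀))))))))).exists
  have hM1 : (1 : ℝ) ≤ M := by exact_mod_cast e1
  have hNM : N ≤ M := by
    have : (N : ℝ) ≤ M := by linarith
    exact_mod_cast this
  have hRh := le_abs_self Rh
  have hRh0 := abs_nonneg Rh
  refine ⟨M, e1, e2, e3, ?_, e4, ?_, by linarith, ?_, (e8.trans_le (min_le_left _ _)).le,
    e8.trans_le (min_le_right _ _)⟩
  · -- powers
    obtain ⟨K, hK⟩ : ∃ K : ℕ, K = (M - N) / P := ⟨_, rfl⟩
    rw [← hK]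
    have hKr : ((M : ℝ) - N) / P - 1 ≤ K := by
      have h1 : M - N < P * (K + 1) := by
        rw [hK]
        exact Nat.lt_mul_div_succ _ hP
      have h2 : ((M - N : ℕ) : ℝ) < P * (K + 1) := by exact_mod_cast h1
      rw [Nat.cast_sub hNM] at h2
      have h3 : ((M : ℝ) - N) / P < K + 1 := by
        rw [div_lt_iff₀ hPr]
        linarith
      linarith
    have hpow : lam₁ ^ K = Real.exp (K * Real.log lam₁) := by
      rw [mul_comm, Real.exp_mul, Real.exp_log hl0, Real.rpow_natCast]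
    have hLp0 : 0 < 2 * Lp ^ P := by positivity
    have h1 : 2 * Lp ^ P * lam₁ ^ K = Real.exp (Real.log (2 * Lp ^ P) + K * Real.log lam₁) := by
      rw [Real.exp_add, Real.exp_log hLp0, hpow]
    rw [h1]
    apply Real.exp_le_exp.mpr
    have h2 : K * Real.log lam₁ ≤ (((M : ℝ) - N) / P - 1) * Real.log lam₁ :=
      mul_le_mul_of_nonpos_right hKr hlog.le
    have h3 : (((M : ℝ) - N) / P - 1) * Real.log lam₁ = -(2 * c * (M - N - P)) := by
      rw [hc]; field_simp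
    have h4 : -(2 * c * ((M : ℝ) - N - P)) = -(c * M) - (c * M - 2 * c * (N + P)) := by ring
    linarith
  · have h1 : Real.exp (Real.log (s / 2)) = s / 2 := Real.exp_log (by positivity)
    rw [← h1]
    apply Real.exp_le_exp.mpr
    linarith
  · have h1 : Real.exp ((M : ℝ) ^ 2) / 2 ≤ Real.exp ((M : ℝ) ^ 2) - Rh := by linarith
    have h2 : 0 < Real.exp ((M : ℝ) ^ 2) / 2 := by positivity
    have h3 := Real.log_le_log h2 h1
    rw [Real.log_div (Real.exp_pos _).ne' (by norm_num), Real.log_exp] at h3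
    have h4 : Real.log 2 ≤ 1 := by
      have := Real.log_two_lt_d9
      linarith
    have h5 : (0 : ℝ) ≤ N := Nat.cast_nonneg N
    nlinarith

/-- A bounded orbit. -/
theorem sink_bound {a : ℂ} {n : ℕ} {x : PE n} {RA : ℝ} (hRA : 1 ≤ RA)
    (hgrow : ∀ z : ℂ, RA ≤ ‖z‖ → 2 * ‖z‖ ≤ ‖fx a n x z‖) {P : ℕ} (hP : 0 < P) {w : ℂ}
    (hw : (fx a n x)^[P] w = w) : ‖w‖ < RA := by
  by_contra hcon
  push Not at hcon
  obtain ⟨P', rfl⟩ : ∃ P', P = P' + 1 := ⟨P - 1, by omega⟩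
  have h1 := hgrow w hcon
  have h2 := Pool.Agent.W820.BM.grow hRA hgrow (z := fx a n x w) (by linarith [norm_nonneg w]) P'
  rw [← Function.iterate_succ_apply, hw] at h2
  linarith

theorem bad_bound {a : ℂ} {n : ℕ} {x : PE n} {RA : ℝ} (hRA : 1 ≤ RA)
    (hgrow : ∀ z : ℂ, RA ≤ ‖z‖ → 2 * ‖z‖ ≤ ‖fx a n x z‖) {u : ℂ} (hu : ¬ Good (fx a n x) u)
    (m : ℕ) : ‖(fx a n x)^[m] u‖ < RA := by
  by_contra hcon
  push Not at hcon
  exact hu (Or.inl (Pool.Agent.W820.BM.escapes hRA hgrow hcon))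

theorem bad_dist (H : HH) {a : ℂ} {n P : ℕ} {B lam₀ lam₁ r₁ r₂ : ℝ} (hP : 0 < P)
    (hKL : KL a n P B lam₀ lam₁ r₁ r₂) {x : PE n} (hx : x ∈ ball (0 : PE n) B) {u : ℂ}
    (hu : ¬ Good (fx a n x) u) {w : ℂ} (hA : AT (fx a n x) P w)
    (hl0 : lam₀ ≤ ‖LP (fx a n x) P w‖) (hl1 : ‖LP (fx a n x) P w‖ ≤ lam₁) (m b : ℕ) :
    r₁ ≤ ‖(fx a n x)^[m] u - (fx a n x)^[b] (SP (fx a n x) P w)‖ := by
  by_contra hcon
  push Not at hcon
  apply hu
  right
  refine ⟨P, hP, ?_⟩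
  obtain ⟨h7, h8⟩ := NINFaux.sink_facts H.ko0 hP hA b
  have h9 := (hKL.att x hx _ h7.1 (by rw [h8]; exact hl0) (by rw [h8]; exact hl1)
    ((fx a n x)^[m] u) (by rw [mem_ball, dist_eq_norm]; exact hcon)).1
  obtain ⟨-, -, h3, -, -⟩ := H.ko0 (fx a n x) P (Pool.Agent.H713R3.ZA.fx_differentiable a n x) hP
  have h10 : ∀ m : ℕ, AT (fx a n x) P ((fx a n x)^[m] u) → AT (fx a n x) P u := by
    intro m
    induction m with
    | zero => exact fun h => h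
    | succ m ih =>
      intro h
      rw [Function.iterate_succ_apply'] at h
      exact ih ((h3 _).mp h)
  exact h10 m ⟨_, h9⟩

end Run7.h598.TT
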