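import Mathlib
import Pool.Agent.Run7.h598.TT.Numb

/-!
The estimates of the orbits near a polynomial, and the new sinks.
-/

set_option autoImplicit false

open Topology Filter Metric Set Polynomial MeasureTheory
open Pool.Agent.H713R3.ZA
open Pool.Agent.H713R5.QJ

namespace Run7.h598.TT

theorem est_of (H : HH) {a : ℂ} {n P M : ℕ}
    {B R C₁ R₁ R₃ R₇ lam₀ lam₁ r₁ r₂ r' τ R₄ R₅ rg c₀ n₀ : ℝ} {v : ℂ} {ψ φ : PE n × ℂ → ℂ}
    {Es Ee : Finset (Fin n)} {rf : Fin n → Fin n} {ap : Fin n → ℕ} {xT : PE n}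
    {ρ₀ ρ₂ ε : ℝ}
    (D : Bas a n P M B R C₁ R₁ R₃ R₇ lam₀ lam₁ r₁ r₂ r' τ R₄ R₅ rg c₀ n₀ v ψ φ Es Ee rf ap xT
      ρ₀ ρ₂ ε)
    {RA : ℝ} (hRA : 1 ≤ RA) (hRAB : B + 1 ≤ RA) (hB : 0 ≤ B)
    (hgrow : ∀ x : PE n, ‖x‖ ≤ B → ∀ z : ℂ, RA ≤ ‖z‖ → 2 * ‖z‖ ≤ ‖fx a n x z‖)
    {N s₀ M₀ M' : ℕ} (hs₀ : RA ≤ 2 ^ s₀) (hM₀ : N + s₀ ≤ M₀)
    (hAP : ∀ x : PE n, ‖x‖ ≤ B → ∀ z : ℂ, RA ≤ ‖z‖ →
      ∀ m : ℕ, M₀ ≤ m → ∀ j ≤ N + s₀, Real.exp ((m : ℝ) ^ 2) + B < ‖(fx a n x)^[m - j] z‖)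
    (hMM : M₀ ≤ M') {Lp : ℝ} (hLp : 1 ≤ Lp)
    (hlip : ∀ x : PE n, ‖x‖ ≤ B → ∀ z w : ℂ, ‖z‖ ≤ RA + 1 → ‖w‖ ≤ RA + 1 →
      ‖fx a n x z - fx a n x w‖ ≤ Lp * ‖z - w‖) {c : ℝ}
    (hZ : 2 * Lp ^ P * lam₁ ^ ((M' - N) / P) ≤ Real.exp (-(c * M')))
    (hZ1 : Real.exp (-(c * M')) ≤ 1)
    (hbad : ∀ i, i ∉ Es → i ∉ Ee → ¬ Good (fx a n xT) (xT (some i)))
    {mm : Fin n → ℕ} (hmm : ∀ i, M' ≤ mm i) {rr : Fin n → Option (Fin n)}
    (hrr : ∀ l r, rr l = some r → r ∉ Es ∧ r ∉ Ee) :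
    Est a n P N R₃ r' Es Ee (closedBall xT ρ₂) RA (r₁ / 4) (Real.exp ((M' : ℝ) ^ 2) - RA) (c * M')
      mm rr := by
  have E := D.env N
  have hr₁ := E.hKL.r1
  have hin : ∀ x ∈ closedBall xT ρ₂, x ∈ ball xT ρ₀ := fun x hx => E.hL₀Ω hx
  have hO : ∀ x ∈ closedBall xT ρ₂, x ∈ OO a n P M B R₃ Es Ee := fun x hx => E.hΩO (hin x hx)
  have hxB : ∀ x ∈ closedBall xT ρ₂, ‖x‖ ≤ B := fun x hx => (mem_ball_zero_iff.mp (hO x hx).1).le
  have hxT : xT ∈ closedBall xT ρ₂ := mem_closedBall_self D.hρ₂.le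
  have hsinkb : ∀ x ∈ closedBall xT ρ₂, ∀ i ∈ Es, ∀ b : ℕ,
      ‖(fx a n x)^[b] (SP (fx a n x) P (x (some i)))‖ ≤ RA := by
    intro x hx i hi b
    obtain ⟨h7, -⟩ := NINFaux.sink_facts H.ko0 E.hP ((hO x hx).2.1 i hi).1 b
    exact (sink_bound hRA (hgrow x (hxB x hx)) E.hP h7.1).le
  exact
    { F1 := fun x hx i hi b _ => hsinkb x hx i hi b
      F2 := fun x hx i => by
        have h1 := norm_le_pi_norm x (some i)
        have h2 := hxB x hx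
        linarith
      F3 := by
        rintro x hx l hl1 hl2 ⟨j, hj, hjR⟩
        have h1 := far_far E.hb hs₀ hM₀ hAP (hxB x hx) hj hjR (hMM.trans (hmm l))
        have h2 : Real.exp ((M' : ℝ) ^ 2) ≤ Real.exp ((mm l : ℝ) ^ 2) := by
          apply Real.exp_le_exp.mpr
          have h3 : (M' : ℝ) ≤ mm l := by exact_mod_cast hmm l
          exact pow_le_pow_left₀ (Nat.cast_nonneg _) h3 2
        linarith
      F4 := by
        rintro x hx l hl1 hl2 ⟨j, hj, i, hi, b, hb', hnear⟩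
        have hl := E.hlam x hx i hi
        have hjm : j ≤ mm l := by have := hmm l; omega
        obtain ⟨b', hb'', h1⟩ := near_far H E.ha E.hn E.hP E.hKL E.hr'₁ D.hr₁ hLp (hO x hx).1
          (hlip x (hxB x hx)) ((hO x hx).2.1 i hi) hl.1 hl.2 (hsinkb x hx i hi) (b := b)
          (y := (fx a n x)^[j] (x (some l))) hnear (m := mm l - j) (K₀ := (M' - N) / P)
          (Nat.div_le_div_right (by have := hmm l; omega)) (hZ.trans hZ1)
        refine ⟨i, hi, b', hb'', ?_⟩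
        rw [← Function.iterate_add_apply, Nat.sub_add_cancel hjm] at h1
        exact h1.trans hZ
      F5 := by
        intro x hx l r hlr i hi b hb'
        obtain ⟨hr1, hr2⟩ := hrr l r hlr
        have hlT := E.hlam xT hxT i hi
        have h1 := bad_dist H E.hP E.hKL (hO xT hxT).1 (hbad r hr1 hr2)
          ((hO xT hxT).2.1 i hi).1 hlT.1 hlT.2 0 b
        simp only [Function.iterate_zero, id_eq] at h1
        have h2 := D.mov x (hin x hx) i hi b hb'.le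
        have h3 : ‖x (some r) - xT (some r)‖ ≤ ρ₂ := by
          have h4 := norm_le_pi_norm (x - xT) (some r)
          have h5 := mem_closedBall_iff_norm.mp hx
          exact h4.trans h5
        have h4 := D.hρ₂ρ
        have h5 := D.hρ₀r
        have h6 : ‖(fx a n x)^[b] (SP (fx a n x) P (x (some i))) -
            (fx a n xT)^[b] (SP (fx a n xT) P (xT (some i)))‖ < r₁ / 16 :=
          h2.trans_le (min_le_left _ _)
        have h7 : xT (some r) - (fx a n xT)^[b] (SP (fx a n xT) P (xT (some i))) =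
          (x (some r) - (fx a n x)^[b] (SP (fx a n x) P (x (some i)))) -
          (x (some r) - xT (some r)) + ((fx a n x)^[b] (SP (fx a n x) P (x (some i))) -
            (fx a n xT)^[b] (SP (fx a n xT) P (xT (some i)))) := by ring
        rw [h7] at h1
        have h8 := norm_add_le ((x (some r) - (fx a n x)^[b] (SP (fx a n x) P (x (some i)))) -
          (x (some r) - xT (some r))) ((fx a n x)^[b] (SP (fx a n x) P (x (some i))) -
            (fx a n xT)^[b] (SP (fx a n xT) P (xT (some i))))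
        have h9 := norm_sub_le (x (some r) - (fx a n x)^[b] (SP (fx a n x) P (x (some i))))
          (x (some r) - xT (some r))
        linarith }

theorem nb_of (H : HH) {a : ℂ} {n P M : ℕ}
    {B R C₁ R₁ R₃ R₇ lam₀ lam₁ r₁ r₂ r' τ R₄ R₅ rg c₀ n₀ : ℝ} {v : ℂ} {ψ φ : PE n × ℂ → ℂ}
    {Es Ee : Finset (Fin n)} {rf : Fin n → Fin n} {ap : Fin n → ℕ} {xT : PE n}
    {ρ₀ ρ₂ ε : ℝ}
    (D : Bas a n P M B R C₁ R₁ R₃ R₇ lam₀ lam₁ r₁ r₂ r' τ R₄ R₅ rg c₀ n₀ v ψ φ Es Ee rf ap xT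
      ρ₀ ρ₂ ε)
    {RA : ℝ} (hRA : 1 ≤ RA)
    (hgrow : ∀ x : PE n, ‖x‖ ≤ B → ∀ z : ℂ, RA ≤ ‖z‖ → 2 * ‖z‖ ≤ ‖fx a n x z‖)
    (hbad : ∀ i, i ∉ Es → i ∉ Ee → ¬ Good (fx a n xT) (xT (some i)))
    {mm : Fin n → ℕ} {rr : Fin n → Option (Fin n)} {x₂ : PE n} (hx₂ : x₂ ∈ closedBall xT ρ₂)
    (hcl : ∀ l, l ∉ Es → l ∉ Ee → ‖(fx a n x₂)^[mm l] (x₂ (some l)) -
      (fx a n xT)^[mm l] (xT (some l))‖ < r₁ / 16) :
    (∀ l, l ∉ Es → l ∉ Ee → ∀ p ∈ closedBall xT ρ₂, uu a n mm rr l p = uu a n mm rr l x₂ →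
      NB a n P Es RA (r₁ / 4) (mm l) l p) ∧
    ∀ l, l ∉ Es → l ∉ Ee → rr l = none → ‖uu a n mm rr l x₂‖ ≤ 2 * RA := by
  have E := D.env 0
  have hr₁ := E.hKL.r1
  have hr₁1 := D.hr₁
  have hin : ∀ x ∈ closedBall xT ρ₂, x ∈ ball xT ρ₀ := fun x hx => E.hL₀Ω hx
  have hO : ∀ x ∈ closedBall xT ρ₂, x ∈ OO a n P M B R₃ Es Ee := fun x hx => E.hΩO (hin x hx)
  have hxB : ∀ x ∈ closedBall xT ρ₂, ‖x‖ ≤ B := fun x hx => (mem_ball_zero_iff.mp (hO x hx).1).le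
  have hxT : xT ∈ closedBall xT ρ₂ := mem_closedBall_self D.hρ₂.le
  have hρ := D.hρ₂ρ
  have hρr := D.hρ₀r
  have hTb : ∀ l, l ∉ Es → l ∉ Ee → ‖(fx a n xT)^[mm l] (xT (some l))‖ < RA := fun l h1 h2 =>
    bad_bound hRA (hgrow xT (hxB xT hxT)) (hbad l h1 h2) (mm l)
  have hmov : ∀ p ∈ closedBall xT ρ₂, ∀ r : Fin n, ‖p (some r) - x₂ (some r)‖ ≤ r₁ / 8 := by
    intro p hp r
    have h1 := norm_le_pi_norm (p - x₂) (some r)
    have h2 : ‖p - x₂‖ ≤ 2 * ρ₂ := by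
      have h3 : p - x₂ = (p - xT) - (x₂ - xT) := by ring
      rw [h3]
      have h4 := norm_sub_le (p - xT) (x₂ - xT)
      have h5 := mem_closedBall_iff_norm.mp hp
      have h6 := mem_closedBall_iff_norm.mp hx₂
      linarith
    exact h1.trans (h2.trans (by linarith))
  refine ⟨?_, ?_⟩
  · intro l hl1 hl2 p hp hup
    have key : ‖(fx a n p)^[mm l] (p (some l)) - (fx a n xT)^[mm l] (xT (some l))‖ ≤
        3 * r₁ / 16 := by
      have h1 : ‖(fx a n p)^[mm l] (p (some l)) - (fx a n x₂)^[mm l] (x₂ (some l))‖ ≤ r₁ / 8 := by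
        rcases hr : rr l with _ | r
        · rw [uu_none hr, uu_none hr] at hup
          rw [hup, sub_self, norm_zero]
          positivity
        · rw [uu_some hr, uu_some hr] at hup
          have h2 : (fx a n p)^[mm l] (p (some l)) - (fx a n x₂)^[mm l] (x₂ (some l)) =
              p (some r) - x₂ (some r) := by linear_combination hup
          rw [h2]
          exact hmov p hp r
      have h2 := hcl l hl1 hl2
      have h3 := norm_add_le ((fx a n p)^[mm l] (p (some l)) - (fx a n x₂)^[mm l] (x₂ (some l)))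
        ((fx a n x₂)^[mm l] (x₂ (some l)) - (fx a n xT)^[mm l] (xT (some l)))
      rw [sub_add_sub_cancel] at h3
      linarith
    constructor
    · have h1 := hTb l hl1 hl2
      have h2 := norm_add_le ((fx a n p)^[mm l] (p (some l)) - (fx a n xT)^[mm l] (xT (some l)))
        ((fx a n xT)^[mm l] (xT (some l)))
      rw [sub_add_cancel] at h2
      linarith
    · intro i hi b hb'
      have hlT := E.hlam xT hxT i hi
      have h1 := bad_dist H E.hP E.hKL (hO xT hxT).1 (hbad l hl1 hl2)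
        ((hO xT hxT).2.1 i hi).1 hlT.1 hlT.2 (mm l) b
      have h2 := (D.mov p (hin p hp) i hi b hb'.le).trans_le (min_le_left _ _)
      have h7 : (fx a n xT)^[mm l] (xT (some l)) -
            (fx a n xT)^[b] (SP (fx a n xT) P (xT (some i))) =
          ((fx a n p)^[mm l] (p (some l)) - (fx a n p)^[b] (SP (fx a n p) P (p (some i)))) -
          ((fx a n p)^[mm l] (p (some l)) - (fx a n xT)^[mm l] (xT (some l))) +
          ((fx a n p)^[b] (SP (fx a n p) P (p (some i))) -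
            (fx a n xT)^[b] (SP (fx a n xT) P (xT (some i)))) := by ring
      rw [h7] at h1
      have h8 := norm_add_le
        (((fx a n p)^[mm l] (p (some l)) - (fx a n p)^[b] (SP (fx a n p) P (p (some i)))) -
          ((fx a n p)^[mm l] (p (some l)) - (fx a n xT)^[mm l] (xT (some l))))
        ((fx a n p)^[b] (SP (fx a n p) P (p (some i))) -
            (fx a n xT)^[b] (SP (fx a n xT) P (xT (some i))))
      have h9 := norm_sub_le
        ((fx a n p)^[mm l] (p (some l)) - (fx a n p)^[b] (SP (fx a n p) P (p (some i))))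
        ((fx a n p)^[mm l] (p (some l)) - (fx a n xT)^[mm l] (xT (some l)))
      linarith
  · intro l hl1 hl2 hr
    rw [uu_none hr]
    have h1 := hTb l hl1 hl2
    have h2 := hcl l hl1 hl2
    have h3 := norm_add_le ((fx a n x₂)^[mm l] (x₂ (some l)) - (fx a n xT)^[mm l] (xT (some l)))
      ((fx a n xT)^[mm l] (xT (some l)))
    rw [sub_add_cancel] at h3
    linarith

/-- the new sinks -/
theorem new_sink {a : ℂ} {n : ℕ} {B RA CA Lp d : ℝ} (hRA : 1 ≤ RA) (hRAB : B + 1 ≤ RA)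
    (hCA : 2 ≤ CA)
    (hatt : ∀ x : PE n, ‖x‖ ≤ B → ∀ y : ℂ, deriv (fx a n x) y = 0 → ∀ m : ℕ, 1 ≤ m →
      (∀ j ≤ m, ‖(fx a n x)^[j] y‖ ≤ RA) → ‖(fx a n x)^[m] y - y‖ ≤ CA⁻¹ ^ m →
      ∃ z : ℂ, (fx a n x)^[m] z = z ∧ ‖z - y‖ ≤ 2 * CA⁻¹ ^ m ∧
        ‖deriv ((fx a n x)^[m]) z‖ < 1 ∧
        ∀ u : ℂ, ‖(fx a n x)^[m] u - y‖ ≤ CA⁻¹ ^ m →
          Tendsto (fun k : ℕ => (fx a n x)^[m * k] u) atTop (𝓝 z))
    {x : PE n} (hx : ‖x‖ ≤ B)
    (hgrow : ∀ z : ℂ, RA ≤ ‖z‖ → 2 * ‖z‖ ≤ ‖fx a n x z‖) (hLp : 1 ≤ Lp)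
    (hlip : ∀ z w : ℂ, ‖z‖ ≤ RA + 1 → ‖w‖ ≤ RA + 1 → ‖fx a n x z - fx a n x w‖ ≤ Lp * ‖z - w‖)
    {r : Fin n} (hd : d ≤ ‖fx a n x (x (some r)) - x (some r)‖) {m : ℕ} (hm : 1 ≤ m)
    (hsm : 2 * CA⁻¹ ^ m * (Lp + 1) < d)
    (hcl : ‖(fx a n x)^[m] (x (some r)) - x (some r)‖ ≤ CA⁻¹ ^ m) :
    ∃ z : ℂ, (fx a n x)^[m] z = z ∧ fx a n x z ≠ z ∧ ‖deriv ((fx a n x)^[m]) z‖ < 1 ∧
      ∀ u : ℂ, ‖(fx a n x)^[m] u - x (some r)‖ ≤ CA⁻¹ ^ m →
        Tendsto (fun k : ℕ => (fx a n x)^[m * k] u) atTop (𝓝 z) := by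
  have hCAi0 : 0 < CA⁻¹ := inv_pos.mpr (by linarith)
  have hCAi1 : CA⁻¹ ≤ 1 / 2 := by
    rw [inv_le_comm₀ (by linarith) (by norm_num)]
    linarith
  have hpow : CA⁻¹ ^ m ≤ 1 / 2 := by
    calc CA⁻¹ ^ m ≤ CA⁻¹ ^ 1 := pow_le_pow_of_le_one hCAi0.le (by linarith) hm
      _ ≤ 1 / 2 := by rw [pow_one]; exact hCAi1
  have hxr : ‖x (some r)‖ ≤ B := (norm_le_pi_norm x (some r)).trans hx
  have horb : ∀ l ≤ m, ‖(fx a n x)^[l] (x (some r))‖ ≤ RA := by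
    intro l hl
    by_contra hcon
    push Not at hcon
    have h1 := Pool.Agent.W820.BM.grow hRA hgrow hcon.le (m - l)
    rw [← Function.iterate_add_apply, Nat.sub_add_cancel hl] at h1
    have h3 := norm_add_le ((fx a n x)^[m] (x (some r)) - x (some r)) (x (some r))
    rw [sub_add_cancel] at h3
    linarith
  obtain ⟨z, hz1, hz2, hz3, hz4⟩ := hatt x hx (x (some r)) (by
    rw [deriv_fx, Finset.prod_eq_zero (Finset.mem_univ r) (sub_self _), mul_zero]) m hm horb hcl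
  refine ⟨z, hz1, ?_, hz3, hz4⟩
  intro hfix
  have h1 : ‖z‖ ≤ RA + 1 := by
    have h2 := norm_add_le (z - x (some r)) (x (some r))
    rw [sub_add_cancel] at h2
    linarith
  have h2 := hlip (x (some r)) z (by linarith) h1
  rw [hfix] at h2
  have h3 : fx a n x (x (some r)) - x (some r) = (fx a n x (x (some r)) - z) + (z - x (some r)) := by
    ring
  rw [h3] at hd
  have h4 := norm_add_le (fx a n x (x (some r)) - z) (z - x (some r))
  rw [norm_sub_rev (x (some r)) z] at h2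
  have h5 : Lp * ‖z - x (some r)‖ ≤ Lp * (2 * CA⁻¹ ^ m) :=
    mul_le_mul_of_nonneg_left hz2 (by linarith)
  nlinarith

end Run7.h598.TT
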