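import Mathlib
import Pool.Agent.Run7.h598.TT.Orb
import Pool.Agent.W820.BM.Asm3

/-!
The local theorem: all types near a polynomial whose bad set has zero area.
-/

set_option autoImplicit false

open Topology Filter Metric Set Polynomial MeasureTheory
open Pool.Agent.H713R3.ZA
open Pool.Agent.H713R5.QJ

namespace Run7.h598.TT

theorem main_loc (H : HH) {a : ℂ} (ha : a ≠ 0) {n : ℕ} (hn : 1 ≤ n) (xT : PE n) {P : ℕ}
    (hP : 0 < P) {Es Ee : Finset (Fin n)} (hse : ∀ i ∈ Ee, i ∉ Es)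
    (hEs : ∀ i ∈ Es, (xT, xT (some i)) ∈ A0 a n P ∧ KP (fx a n xT) P (xT (some i)) ≠ 0)
    (hEe : ∀ i ∈ Ee, Tendsto (fun k : ℕ => ‖(fx a n xT)^[k] (xT (some i))‖) atTop atTop)
    (hbad : ∀ i, i ∉ Es → i ∉ Ee → ¬ Good (fx a n xT) (xT (some i)))
    (hvol : volume {z : ℂ | ¬ Good (fx a n xT) z} = 0) {ε : ℝ} (hε : 0 < ε) (k : ℕ)
    (τt : Fin n → Option (Fin k)) (hτt : ∀ j, ∃ i, (i ∉ Es ∧ i ∉ Ee) ∧ τt i = some j) (N₀ : ℕ) :
    ∃ (x : PE n) (p : Fin k → ℕ) (z : Fin k → ℂ),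
      ‖x - xT‖ < ε ∧
      (∀ i ∈ Ee, Tendsto (fun l : ℕ => ‖(fx a n x)^[l] (x (some i))‖) atTop atTop) ∧
      (∀ i ∈ Es, AT (fx a n x) P (x (some i)) ∧
        ‖SP (fx a n x) P (x (some i)) - SP (fx a n xT) P (xT (some i))‖ < ε ∧
        ∀ b : ℕ, ((fx a n x)^[b] (SP (fx a n x) P (x (some i))) = SP (fx a n x) P (x (some i)) ↔
          (fx a n xT)^[b] (SP (fx a n xT) P (xT (some i))) = SP (fx a n xT) P (xT (some i)))) ∧
      Function.Injective p ∧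
      (∀ j, (p j).Prime ∧ N₀ ≤ p j ∧ (fx a n x)^[p j] (z j) = z j ∧ fx a n x (z j) ≠ z j ∧
        ‖deriv ((fx a n x)^[p j]) (z j)‖ < 1) ∧
      (∀ i, i ∉ Es → i ∉ Ee → τt i = none →
        Tendsto (fun l : ℕ => ‖(fx a n x)^[l] (x (some i))‖) atTop atTop) ∧
      (∀ i j, i ∉ Es → i ∉ Ee → τt i = some j →
        Tendsto (fun l : ℕ => (fx a n x)^[p j * l] (x (some i))) atTop (𝓝 (z j))) := by
  classical
  obtain ⟨B, hB⟩ : ∃ B : ℝ, B = ‖xT‖ + 2 := ⟨_, rfl⟩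
  have hB0 : 0 < B := by have := norm_nonneg xT; linarith
  obtain ⟨RA, hRA, hRAB, hgrow, hap2⟩ := Pool.Agent.W346.BM.ap2 a n B ha hn
  obtain ⟨CA, hCA, hatt⟩ := Pool.Agent.W346.BM.att a n B RA hB0.le (by linarith)
  obtain ⟨Lp, hLp, hlip⟩ := lip_fx a n B (RA + 1)
  -- the bad critical points are not almost fixed
  obtain ⟨d, hd0, hd⟩ : ∃ d : ℝ, 0 < d ∧ ∀ᶠ x in 𝓝 xT, ∀ r : Fin n, r ∉ Es → r ∉ Ee →
      d < ‖fx a n x (x (some r)) - x (some r)‖ := by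
    have hfix : ∀ r : Fin n, r ∉ Es → r ∉ Ee →
        0 < ‖fx a n xT (xT (some r)) - xT (some r)‖ := by
      intro r hr1 hr2
      rw [norm_pos_iff, sub_ne_zero]
      intro hfix
      apply hbad r hr1 hr2
      right
      refine ⟨1, one_pos, xT (some r), ?_, ?_, ?_⟩
      · simpa using hfix
      · rw [Function.iterate_one, deriv_fx, Finset.prod_eq_zero (Finset.mem_univ r) (sub_self _),
          mul_zero, norm_zero]
        exact one_pos
      · simp only [one_mul]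
        have h1 : ∀ l : ℕ, (fx a n xT)^[l] (xT (some r)) = xT (some r) := fun l =>
          Function.iterate_fixed hfix l
        simp only [h1]
        exact tendsto_const_nhds
    have h1 : ∀ᶠ d : ℝ in 𝓝[>] 0, 0 < d ∧ ∀ r : Fin n, r ∉ Es → r ∉ Ee →
        d < ‖fx a n xT (xT (some r)) - xT (some r)‖ := by
      apply (eventually_mem_nhdsWithin).and
      rw [Filter.eventually_all]
      intro r
      by_cases hr1 : r ∈ Es
      · exact Filter.Eventually.of_forall fun d h => absurd hr1 h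
      by_cases hr2 : r ∈ Ee
      · exact Filter.Eventually.of_forall fun d _ h => absurd hr2 h
      have h2 := hfix r hr1 hr2
      filter_upwards [mem_nhdsWithin_of_mem_nhds (Iio_mem_nhds h2)] with d hd _ _
      exact hd
    obtain ⟨d, hd0, hd⟩ := h1.exists
    refine ⟨d, hd0, ?_⟩
    rw [Filter.eventually_all]
    intro r
    by_cases hr1 : r ∈ Es
    · exact Filter.Eventually.of_forall fun d h => absurd hr1 h
    by_cases hr2 : r ∈ Ee
    · exact Filter.Eventually.of_forall fun d _ h => absurd hr2 h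
    have h2 : Continuous (fun x : PE n => fx a n x (x (some r)) - x (some r)) :=
      (crit_cont a n 1 r).sub (continuous_apply _)
    filter_upwards [h2.norm.continuousAt.eventually (lt_mem_nhds (hd r hr1 hr2))] with x hx _ _
    exact hx
  obtain ⟨ε₁, hε₁, hdb⟩ := Metric.eventually_nhds_iff_ball.1 hd
  -- the base
  obtain ⟨M, R, C₁, R₁, R₃, R₇, lam₀, lam₁, r₁, r₂, r', τ, R₄, R₅, rg, c₀, n₀, v, ψ, φ, rf, ap, ρ₀,
    ρ₂, D⟩ := exists_base H ha hn xT hP hEs hEe (ε := min ε ε₁) (lt_min hε hε₁)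
  rw [← hB] at D
  have E := D.env
  have hr₁ := (E 0).hKL.r1
  have hr₁1 := D.hr₁
  have hc₀ := (E 0).hc₀
  have hn₀ := D.hn₀
  have hl₁ := D.hl₁
  have hl₁1 := (E 0).hKL.l1
  have hb := (E 0).hb
  have hxT : xT ∈ closedBall xT ρ₂ := mem_closedBall_self D.hρ₂.le
  have hin : ∀ x ∈ closedBall xT ρ₂, x ∈ ball xT ρ₀ := fun x hx => (E 0).hL₀Ω hx
  have hO : ∀ x ∈ ball xT ρ₀, x ∈ OO a n P M B R₃ Es Ee := fun x hx => (E 0).hΩO hx
  have hxB : ∀ x ∈ closedBall xT ρ₂, ‖x‖ ≤ B := fun x hx =>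
    (mem_ball_zero_iff.mp (hO x (hin x hx)).1).le
  -- numbers
  obtain ⟨Q, hQ⟩ : ∃ Q : ℕ, Q = (Es ×ˢ Finset.range P).card := ⟨_, rfl⟩
  obtain ⟨s, hs⟩ : ∃ s : ℝ, s = r₁ / 4 := ⟨_, rfl⟩
  have hs0 : 0 < s := by rw [hs]; positivity
  have hs1 : s ≤ 1 := by rw [hs]; linarith
  have hPr : (0 : ℝ) < P := by exact_mod_cast hP
  obtain ⟨c, hc⟩ : ∃ c : ℝ, c = -Real.log lam₁ / (2 * P) := ⟨_, rfl⟩
  have hc0 : 0 < c := by
    rw [hc]
    exact div_pos (by linarith [Real.log_neg hl₁ hl₁1]) (by positivity)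
  have hlog2 : 0 ≤ Real.log 2 := Real.log_nonneg (by norm_num)
  have hlogs : Real.log s ≤ 0 := Real.log_nonpos hs0.le hs1
  have hlogR : 0 ≤ Real.log (4 * RA) := Real.log_nonneg (by linarith)
  have hlogC : 0 ≤ Real.log CA := Real.log_nonneg (by linarith)
  obtain ⟨Λ, hΛ⟩ : ∃ Λ : ℝ, Λ = Real.log (4 * RA) + (Real.log 2 - Real.log s) := ⟨_, rfl⟩
  have hΛ0 : 0 ≤ Λ := by rw [hΛ]; linarith
  obtain ⟨Cl, hCl⟩ : ∃ Cl : ℝ, Cl = 2 * ((Q : ℝ) + 1) * (4 * Λ + Real.log 2 +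
    2 ^ k * Real.log CA) / c := ⟨_, rfl⟩
  have hCl0 : 0 ≤ Cl := by
    rw [hCl]
    have : 0 ≤ (2 : ℝ) ^ k * Real.log CA := mul_nonneg (by positivity) hlogC
    have h2 : 0 ≤ 4 * Λ + Real.log 2 + 2 ^ k * Real.log CA := by linarith
    positivity
  obtain ⟨θ, hθ⟩ : ∃ θ : ℝ, θ = c₀ * n₀ / (4 * (Cl + 1) ^ n) := ⟨_, rfl⟩
  have hθ0 : 0 < θ := by rw [hθ]; positivity
  have hsmall : (Cl + 1) ^ n * (2 * θ) ≤ c₀ / 2 * n₀ := by
    rw [hθ]
    apply le_of_eq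
    field_simp
    ring
  -- the time `N`
  obtain ⟨N, hN⟩ := (H.ninf H.ko0 H.ko1 H.ko2 H.ko3 H.fatp a n P M B R C₁ R₁ R₃ R₇ lam₀ lam₁ r₁ r₂ r'
    τ ψ φ Es Ee rf ap xT ha hn hP hb (E 0).hR₇ (E 0).hKL (E 0).hr' (E 0).hr'₁ (E 0).hτ
    (hO xT (hin xT hxT)) (fun i hi => (E 0).hlam xT hxT i hi)).2
    (fun i hi => (hEs i hi).2) (E 0).hRFP ((E 0).hrel xT (hin xT hxT)) hbad (θ / 4) (by positivity)
  have hN := hN N le_rfl
  rw [hvol, ENNReal.toReal_zero, zero_add] at hN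
  obtain ⟨s₀, hs₀⟩ : ∃ s₀ : ℕ, RA ≤ 2 ^ s₀ := by
    obtain ⟨s₀, hs₀⟩ := pow_unbounded_of_one_lt RA (by norm_num : (1 : ℝ) < 2)
    exact ⟨s₀, hs₀.le⟩
  obtain ⟨M₀, hM₀, hap2⟩ := hap2 (N + s₀)
  obtain ⟨M', m1, m2, m3, m4, m5, m6, m7, m8, m9, m10⟩ := exists_Mp P N M₀ N₀ Q (lam₁ := lam₁)
    (Lp := Lp) (CA := CA) (Rh := RA) (s := s) (Λ := Λ) (η := d / (2 * (Lp + 1))) hP hl₁ hl₁1 hLp hCA
    hs0 (by positivity) hc
  obtain ⟨p, hpinj, hp⟩ := Pool.Agent.W820.BM.exists_primes k M' m1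
  choose r hr0 hr using hτt
  set mm : Fin n → ℕ := fun i => (τt i).elim M' p with hmm
  set rr : Fin n → Option (Fin n) := fun i => (τt i).map r with hrr
  have hmmM : ∀ i, M' ≤ mm i := by
    intro i
    simp only [hmm]
    cases τt i with
    | none => exact le_rfl
    | some j => exact (hp j).2.1
  have hrrb : ∀ l q, rr l = some q → q ∉ Es ∧ q ∉ Ee := by
    intro l q hlq
    simp only [hrr] at hlq
    rcases hτl : τt l with _ | j
    · rw [hτl] at hlq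
      simp at hlq
    · rw [hτl] at hlq
      simp only [Option.map_some, Option.some.injEq] at hlq
      rw [← hlq]
      exact hr0 j
  have hZ1 : Real.exp (-(c * M')) ≤ 1 := m6.trans (by linarith)
  have hEst := est_of H D hRA hRAB hB0.le hgrow hs₀ hM₀ hap2 m2 hLp hlip m4 hZ1 hbad hmmM hrrb
  rw [← hs] at hEst
  -- the numbers
  have hCAi0 : 0 < CA⁻¹ := inv_pos.mpr (by linarith)
  have hCAi1 : CA⁻¹ ≤ 1 := inv_le_one_of_one_le₀ (by linarith)
  obtain ⟨ra, hra⟩ : ∃ ra : ℝ, ra = CA⁻¹ ^ (2 ^ k * M') := ⟨_, rfl⟩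
  have hra0 : 0 < ra := by rw [hra]; positivity
  have hMle : M' ≤ 2 ^ k * M' := Nat.le_mul_of_pos_left M' (by positivity)
  have hra1 : ra ≤ s := by
    rw [hra]
    exact (pow_le_pow_of_le_one hCAi0.le hCAi1 hMle).trans m9
  obtain ⟨G, hG⟩ : ∃ G : ℝ, G = 2 ^ k * M' * Real.log CA := ⟨_, rfl⟩
  have hG0 : 0 ≤ G := by rw [hG]; positivity
  have hraG : -Real.log ra ≤ G := by
    rw [hra, hG, Real.log_pow, Real.log_inv]
    push_cast
    linarith
  have hM'1 : (1 : ℝ) ≤ M' := by exact_mod_cast m1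
  have hNums : Nums (Es ×ˢ Finset.range P).card RA s (Real.exp ((M' : ℝ) ^ 2) - RA) (c * M') Λ G
      Cl := by
    rw [← hQ]
    exact
      { hRh := hRA
        hs := hs0
        hs1 := hs1
        l0 := hΛ0
        l1 := by rw [hΛ]; linarith
        l2 := by rw [hΛ]; linarith
        hG := hG0
        hZ0 := by positivity
        hZ := m5
        hZs := m6
        hY := m7
        hYZ := m8
        hCl := by
          have h1 : Cl * (c * M') = 2 * ((Q : ℝ) + 1) * ((4 * Λ + Real.log 2 +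
              2 ^ k * Real.log CA) * M') := by
            rw [hCl]; field_simp
          rw [h1]
          apply mul_le_mul_of_nonneg_left _ (by positivity)
          rw [hG]
          have h2 : 4 * Λ + Real.log 2 ≤ (4 * Λ + Real.log 2) * M' :=
            le_mul_of_one_le_right (by linarith) hM'1
          nlinarith }
  -- the fields
  have hbadne : (ball xT ρ₀).Nonempty := ⟨xT, hin xT hxT⟩
  have hfield : ∀ l : Fin n, ∃ (X : PE n → PE n) (j : ℕ), l ∉ Es → l ∉ Ee →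
      FF a n P M φ Es Ee rf ap (uu a n mm rr) (ball xT ρ₀) l X j := by
    intro l
    by_cases hl : l ∉ Es ∧ l ∉ Ee
    · obtain ⟨X, j, h⟩ := exists_FF H ha hn hP hb (E 0).hRFP (uu_diff a n mm rr) hse isOpen_ball
        hbadne (E 0).hΩO hl.1 hl.2
      exact ⟨X, j, fun _ _ => h⟩
    · exact ⟨fun _ => 0, 0, fun h1 h2 => absurd ⟨h1, h2⟩ hl⟩
  choose X jj hX using hfield
  set Bd : Finset (Fin n) := Finset.univ.filter (fun l => l ∉ Es ∧ l ∉ Ee) with hBd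
  have hBdm : ∀ l, l ∈ Bd ↔ (l ∉ Es ∧ l ∉ Ee) := by
    intro l
    simp [hBd]
  set sp : Fin n → PE n → ℂ := fun l x => fderiv ℂ (cf a n (jj l)) x (X l x) with hsp
  have hspd : ∀ l ∈ Bd, DifferentiableOn ℂ (sp l) (ball xT ρ₀) := by
    intro l hl
    obtain ⟨h1, h2⟩ := (hBdm l).mp hl
    exact speed_diff (jj l) isOpen_ball (hX l h1 h2).Xd
  have hspne : ∀ l ∈ Bd, ∃ x ∈ ball xT ρ₀, sp l x ≠ 0 := by
    intro l hl
    obtain ⟨h1, h2⟩ := (hBdm l).mp hl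
    exact (hX l h1 h2).ne
  set f₀ : PE n → ℂ := fun x => ∏ l ∈ Bd, sp l x with hf₀
  have hf₀d : DifferentiableOn ℂ f₀ (ball xT ρ₀) := prod_diff Bd sp hspd
  obtain ⟨Fm, hFm⟩ := (isCompact_closedBall xT ρ₂).exists_bound_of_continuousOn
    (hf₀d.continuousOn.mono (E 0).hL₀Ω)
  have hFm0 : 0 ≤ Fm := (norm_nonneg _).trans (hFm xT hxT)
  set ff : PE n → ℂ := fun x => ((Fm + 1 : ℝ) : ℂ)⁻¹ * f₀ x with hff
  have hffd : DifferentiableOn ℂ ff (ball xT ρ₀) := hf₀d.const_mul _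
  have hFmc : ((Fm + 1 : ℝ) : ℂ)⁻¹ ≠ 0 := by
    rw [Ne, inv_eq_zero, Complex.ofReal_eq_zero]
    linarith
  have hff1 : ∀ x ∈ closedBall xT ρ₂, ‖ff x‖ ≤ 1 := by
    intro x hx
    simp only [hff]
    rw [norm_mul, norm_inv, Complex.norm_real, Real.norm_eq_abs, abs_of_pos (by linarith),
      inv_mul_le_iff₀ (by linarith)]
    linarith [hFm x hx]
  have hfj : ∀ l, l ∉ Es → l ∉ Ee → ∀ x ∈ ball xT ρ₀, ff x ≠ 0 →
      (∀ i ∈ Es, KP (fx a n x) P (x (some i)) ≠ 0) ∧ fderiv ℂ (cf a n (jj l)) x (X l x) ≠ 0 := by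
    intro l hl1 hl2 x hx hfx
    refine ⟨D.hK x hx, ?_⟩
    have h1 : f₀ x ≠ 0 := right_ne_zero_of_mul hfx
    exact Finset.prod_ne_zero_iff.mp h1 l ((hBdm l).mpr ⟨hl1, hl2⟩)
  -- the starting point
  have hev1 : ∀ᶠ x in 𝓝 xT, x ∈ ball xT ρ₂ := isOpen_ball.mem_nhds (mem_ball_self D.hρ₂)
  have hev2 : ∀ᶠ x in 𝓝 xT, c₀ / 2 * Dl a n xT x < θ / 4 := by
    have h1 : Continuous (fun x => c₀ / 2 * Dl a n xT x) :=
      continuous_const.mul (Dl_continuous a n xT)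
    have h2 : c₀ / 2 * Dl a n xT xT < θ / 4 := by
      have : Dl a n xT xT = 0 := by simp [Dl]
      rw [this, mul_zero]
      positivity
    exact h1.continuousAt.eventually (gt_mem_nhds h2)
  have hev3 := usc_BN (N := N) (rf := rf) (τ := τ) H ha hn hP hb (E 0).hR₇ (E 0).hKL (E 0).hr'₁
    isOpen_ball (E 0).hΩO D.hlam (hin xT hxT) (η := θ / 4) (by positivity)
  have hev4 : ∀ᶠ x in 𝓝 xT, ∀ l : Fin n, ‖(fx a n x)^[mm l] (x (some l)) -
      (fx a n xT)^[mm l] (xT (some l))‖ < r₁ / 16 := by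
    rw [Filter.eventually_all]
    intro l
    have h1 := ((crit_cont a n (mm l) l).sub
      (continuous_const (y := (fx a n xT)^[mm l] (xT (some l))))).norm
    exact h1.continuousAt.eventually (gt_mem_nhds (by simpa using (by positivity : 0 < r₁ / 16)))
  obtain ⟨W, hWev, hWo, hxTW⟩ := _root_.eventually_nhds_iff.mp
    (hev1.and (hev2.and (hev3.and hev4)))
  obtain ⟨x₂, hx₂W, hx₂sp⟩ := exists_ne H.iden Bd sp isOpen_ball
    ((convex_ball xT ρ₀).isPreconnected) hspd hspne W hWo ⟨xT, hxTW⟩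
    (fun x hx => hin x (ball_subset_closedBall (hWev x hx).1))
  obtain ⟨w1, w2, w3, w4⟩ := hWev x₂ hx₂W
  have hx₂L : x₂ ∈ closedBall xT ρ₂ := ball_subset_closedBall w1
  have hfx₂ : ff x₂ ≠ 0 := mul_ne_zero hFmc (Finset.prod_ne_zero_iff.mpr hx₂sp)
  obtain ⟨δ, hδ⟩ : ∃ δ : ℝ, δ = θ / (4 * (|Real.log ‖ff x₂‖| + 1)) := ⟨_, rfl⟩
  have hδ0 : 0 < δ := by rw [hδ]; positivity
  have hδ1 : -(δ * Real.log ‖ff x₂‖) ≤ θ / 4 := by
    have h1 : -Real.log ‖ff x₂‖ ≤ |Real.log ‖ff x₂‖| + 1 := by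
      have := neg_abs_le (Real.log ‖ff x₂‖)
      linarith
    have h2 := mul_le_mul_of_nonneg_left h1 hδ0.le
    have h3 : δ * (|Real.log ‖ff x₂‖| + 1) = θ / 4 := by
      rw [hδ]; field_simp
    linarith
  set V : PE n → ℝ := fun x => (volume (BN a n P R₃ R₇ φ Es rf r' τ N x)).toReal +
    c₀ / 2 * Dl a n xT x - δ * Real.log ‖ff x‖ with hV
  have hVx₂ : V x₂ ≤ θ := by
    simp only [hV]
    linarith
  obtain ⟨hNB, hst⟩ := nb_of H D hRA hgrow hbad (mm := mm) (rr := rr) hx₂L (fun l _ _ => w4 l)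
  rw [← hs] at hNB
  -- the iteration
  obtain ⟨x, hxL, -, -, -, hdone⟩ := iter H (E N) hEst hNums hCl0 (X := X) (jj := jj)
    (fun l h1 h2 => hX l h1 h2) hffd hff1 hfj hδ0 hθ0 (V := V) (fun x => rfl) hx₂L hfx₂ hVx₂ hNB hst
    hra0 hra1 hraG hsmall Bd (fun l hl => (hBdm l).mp hl)
  have hxρ₀ := hin x hxL
  have hxO := hO x hxρ₀
  have hgx := hgrow x (hxB x hxL)
  have hxε₁ : x ∈ ball xT ε₁ := ball_subset_ball (D.hρ₀ε.trans (min_le_right _ _)) hxρ₀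
  -- the sinks
  have hcl : ∀ i j, i ∉ Es → i ∉ Ee → τt i = some j →
      ‖(fx a n x)^[p j] (x (some i)) - x (some (r j))‖ ≤ CA⁻¹ ^ (p j) := by
    intro i j hi1 hi2 hij
    have h1 : rr i = some (r j) := by simp only [hrr, hij, Option.map_some]
    have h2 := (hdone i ((hBdm i).mpr ⟨hi1, hi2⟩)).2 (r j) h1
    rw [uu_some h1] at h2
    have h3 : mm i = p j := by simp only [hmm, hij, Option.elim]
    rw [h3] at h2
    refine h2.trans ?_
    rw [hra]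
    exact pow_le_pow_of_le_one hCAi0.le hCAi1 (hp j).2.2
  have hsink : ∀ j, ∃ z : ℂ, (fx a n x)^[p j] z = z ∧ fx a n x z ≠ z ∧
      ‖deriv ((fx a n x)^[p j]) z‖ < 1 ∧
      ∀ u : ℂ, ‖(fx a n x)^[p j] u - x (some (r j))‖ ≤ CA⁻¹ ^ (p j) →
        Tendsto (fun l : ℕ => (fx a n x)^[p j * l] u) atTop (𝓝 z) := by
    intro j
    apply new_sink hRA hRAB hCA hatt (hxB x hxL) hgx hLp (hlip x (hxB x hxL))
      (hdb x hxε₁ (r j) (hr0 j).1 (hr0 j).2).le (hp j).1.one_lt.le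
    · have h1 : CA⁻¹ ^ (p j) ≤ CA⁻¹ ^ M' := pow_le_pow_of_le_one hCAi0.le hCAi1 (hp j).2.1
      have h2 : 2 * CA⁻¹ ^ (p j) * (Lp + 1) ≤ 2 * CA⁻¹ ^ M' * (Lp + 1) := by
        apply mul_le_mul_of_nonneg_right _ (by linarith)
        linarith
      refine h2.trans_lt ?_
      rw [lt_div_iff₀ (by positivity)] at m10
      linarith
    · exact hcl (r j) j (hr0 j).1 (hr0 j).2 (hr j)
  choose z hz1 hz2 hz3 hz4 using hsink
  refine ⟨x, p, z, ?_, ?_, ?_, hpinj, ?_, ?_, ?_⟩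
  · have h1 := mem_ball_iff_norm.mp hxρ₀
    exact h1.trans_le (D.hρ₀ε.trans (min_le_left _ _))
  · intro i hi
    have h1 := hxO.2.2 i hi
    exact esc_of_large hb hxO.1 (k := M) (by linarith [hb.hR, hb.hC, hb.hR₁, hb.hR₃])
  · intro i hi
    refine ⟨(hxO.2.1 i hi).1, ?_, D.per x hxρ₀ i hi⟩
    have h1 := D.mov x hxρ₀ i hi 0 (Nat.zero_le _)
    simp only [Function.iterate_zero, id_eq] at h1
    exact h1.trans_le ((min_le_right _ _).trans (min_le_left _ _))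
  · intro j
    exact ⟨(hp j).1, m3.trans (hp j).2.1, hz1 j, hz2 j, hz3 j⟩
  · intro i hi1 hi2 hi
    have h1 : rr i = none := by simp only [hrr, hi, Option.map_none]
    have h2 := (hdone i ((hBdm i).mpr ⟨hi1, hi2⟩)).1 h1
    rw [uu_none h1] at h2
    exact Pool.Agent.W820.BM.escapes hRA hgx (m := mm i) (by rw [h2]; linarith)
  · intro i j hi1 hi2 hij
    exact hz4 j _ (hcl i j hi1 hi2 hij)

end Run7.h598.TT
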