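import Mathlib
import Pool.Agent.Run7.h598.TT.MainLoc
import Pool.Agent.H713R5.QJ.Main
import Pool.Agent.W820.BM.Asm6

/-!
Facts for the final statements.
-/

set_option autoImplicit false

open Topology Filter Metric Set Polynomial MeasureTheory
open Pool.Agent.H713R3.ZA
open Pool.Agent.H713R5.QJ

namespace Run7.h598.TT

/-- the position of a point which is never mapped onto the sink is not zero -/
theorem KP_ne_zero (H : HH) {a : ℂ} {n P : ℕ} {B lam₀ lam₁ r₁ r₂ : ℝ} (ha : a ≠ 0) (hn : 1 ≤ n)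
    (hP : 0 < P) (hKL : KL a n P B lam₀ lam₁ r₁ r₂) {x : PE n} (hx : x ∈ ball (0 : PE n) B) {u : ℂ}
    (hA : (x, u) ∈ A0 a n P) (hl0 : lam₀ ≤ ‖LP (fx a n x) P u‖) (hl1 : ‖LP (fx a n x) P u‖ ≤ lam₁)
    (hne : ∀ l : ℕ, (fx a n x)^[l] u ≠ SP (fx a n x) P u) : KP (fx a n x) P u ≠ 0 := by
  intro h0
  obtain ⟨-, hK⟩ := H.ko2 H.ko0 H.ko1 H.ko3 a n P ha hn hP
  obtain ⟨hS1, hS2, hS3⟩ := A0_Sk H hP hA.1
  have hAk : ∀ k : ℕ, (x, (fx a n x)^[P * k] u) ∈ A0 a n P := fun k =>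
    A0_iter H ha hn hP hA (P * k)
  have hKk : ∀ k : ℕ, KP (fx a n x) P ((fx a n x)^[P * k] u) = 0 := by
    intro k
    induction k with
    | zero => simpa using h0
    | succ k ih =>
      have e1 : (fx a n x)^[P * (k + 1)] u = (fx a n x)^[P] ((fx a n x)^[P * k] u) := by
        rw [← Function.iterate_add_apply, Nat.mul_succ, Nat.add_comm]
      rw [e1, (hK x _ (hAk k)).2.2.2.2, ih, mul_zero]
  have hr₁ := hKL.r1
  have hev : ∀ᶠ k : ℕ in atTop, (fx a n x)^[P * k] u ∈ ball (SP (fx a n x) P u) r₁ :=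
    hS3.eventually (isOpen_ball.mem_nhds (mem_ball_self hr₁))
  obtain ⟨k, hk⟩ := hev.exists
  have hc := hKL.close x hx _ hS1 hl0 hl1 _ hk _ (mem_ball_self hr₁)
  rw [hKL.zero x hx _ hS1 hl0 hl1, hKk k, sub_zero, zero_sub, norm_neg] at hc
  apply hne (P * k)
  rw [← sub_eq_zero, ← norm_eq_zero]
  have := norm_nonneg ((fx a n x)^[P * k] u - SP (fx a n x) P u)
  linarith

/-- the sink is determined by the point which it attracts -/
theorem SP_unique (H : HH) {a : ℂ} {n P : ℕ} {x : PE n} {u w : ℂ} {Q : ℕ} (hP : 0 < P)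
    (hQ : 0 < Q) (hA : AT (fx a n x) P u)
    (ht : Tendsto (fun l : ℕ => (fx a n x)^[Q * l] u) atTop (𝓝 w)) :
    SP (fx a n x) P u = w := by
  have h1 := (A0_Sk H hP hA).2.2
  have h2 : Tendsto (fun k : ℕ => (fx a n x)^[P * (Q * k)] u) atTop
      (𝓝 (SP (fx a n x) P u)) := h1.comp (tendsto_id.const_mul_atTop' hQ)
  have h3 : Tendsto (fun k : ℕ => (fx a n x)^[Q * (P * k)] u) atTop (𝓝 w) :=
    ht.comp (tendsto_id.const_mul_atTop' hP)
  refine tendsto_nhds_unique h2 (h3.congr fun k => ?_)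
  rw [show Q * (P * k) = P * (Q * k) by ring]

/-- a period of a sink -/
theorem sink_period (H : HH) {a : ℂ} {n P : ℕ} {x : PE n} {u : ℂ} {Q : ℕ} (hP : 0 < P)
    (hQ : 0 < Q) (hA : AT (fx a n x) P u)
    (hfix : (fx a n x)^[Q] (SP (fx a n x) P u) = SP (fx a n x) P u) :
    ‖deriv ((fx a n x)^[Q]) (SP (fx a n x) P u)‖ < 1 ∧
      Tendsto (fun l : ℕ => (fx a n x)^[Q * l] u) atTop (𝓝 (SP (fx a n x) P u)) := by
  have hd := Pool.Agent.H713R3.ZA.fx_differentiable a n x
  obtain ⟨hS1, hS2, hS3⟩ := A0_Sk H hP hA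
  set f := fx a n x with hf
  set w := SP f P u with hw
  have hiter : ∀ (m k : ℕ), f^[m] w = w → deriv (f^[m * k]) w = deriv (f^[m]) w ^ k := by
    intro m k hm
    induction k with
    | zero => simp
    | succ k ih =>
      have h1 : f^[m * (k + 1)] = f^[m * k] ∘ f^[m] := by
        rw [← Function.iterate_add, Nat.mul_succ]
      have hdm : ∀ j : ℕ, Differentiable ℂ (f^[j]) := fun j => hd.iterate j
      rw [h1, deriv_comp _ (hdm _ _) (hdm _ _), hm, ih, pow_succ]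
  constructor
  · have h1 := hiter Q P hfix
    have h2 := hiter P Q hS1
    rw [mul_comm P Q] at h2
    have h3 : ‖deriv (f^[Q]) w‖ ^ P < 1 := by
      rw [← norm_pow, ← h1, h2, norm_pow]
      exact pow_lt_one₀ (norm_nonneg _) hS2 hQ.ne'
    by_contra hcon
    push Not at hcon
    exact absurd h3 (not_lt.mpr (one_le_pow₀ hcon))
  · have h1 := NINFaux.tendsto_orbit hd.continuous hP hS1 hS3
    have h2 : Tendsto (fun l : ℕ => ‖f^[Q * l] u - f^[Q * l] w‖) atTop (𝓝 0) :=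
      h1.comp (tendsto_id.const_mul_atTop' hQ)
    rw [tendsto_iff_norm_sub_tendsto_zero]
    refine h2.congr fun l => ?_
    have h3 : f^[Q * l] w = w := by
      rw [Function.iterate_mul]
      exact Function.iterate_fixed hfix _
    rw [h3]

/-- closeness of the coefficients -/
theorem coeff_close (a : ℂ) (n : ℕ) (xT : PE n) {ε : ℝ} (hε : 0 < ε) :
    ∃ ε₁ : ℝ, 0 < ε₁ ∧ ∀ x : PE n, ‖x - xT‖ < ε₁ → ∀ j : ℕ,
      ‖(fam a n x).coeff j - (fam a n xT).coeff j‖ < ε := by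
  have hev : ∀ᶠ x in 𝓝 xT, ∀ j ∈ Finset.range (n + 2),
      ‖(fam a n x).coeff j - (fam a n xT).coeff j‖ < ε := by
    rw [Filter.eventually_all_finset]
    intro j _
    have h1 : Continuous (fun x : PE n => (fam a n x).coeff j - (fam a n xT).coeff j) :=
      (cf_diff a n j).continuous.sub continuous_const
    exact h1.norm.continuousAt.eventually (gt_mem_nhds (by simpa using hε))
  obtain ⟨ε₁, hε₁, hb⟩ := Metric.eventually_nhds_iff_ball.1 hev
  refine ⟨ε₁, hε₁, fun x hx j => ?_⟩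
  by_cases hj : j < n + 2
  · exact hb x (by rw [mem_ball, dist_eq_norm]; exact hx) j (Finset.mem_range.mpr hj)
  · rw [coeff_eq_zero_of_natDegree_lt (by have := natDegree_fam_le a n x; omega),
      coeff_eq_zero_of_natDegree_lt (by have := natDegree_fam_le a n xT; omega), sub_zero, norm_zero]
    exact hε

end Run7.h598.TT
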